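import Pool.Agent.K9h83.FF.Sound

/-!
# A satisfying assignment gives a winning strategy
-/

set_option autoImplicit false

namespace Pool.Agent.K9h83.FF

open Pool.Agent.NPC

/-- the code of the first `m` values of the block `b` -/
def ch (A : ℕ → Bool) (r b : ℕ) : ℕ → ℕ
  | 0 => 0
  | m + 1 => 2 * ch A r b m + (A (b * r + m)).toNat

theorem ch_lt (A : ℕ → Bool) (r b m : ℕ) : ch A r b m < 2 ^ m := by
  induction m with
  | zero => simp [ch]
  | succ m ih =>
    rw [ch, pow_succ]
    have := Bool.toNat_le (A (b * r + m))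
    omega

theorem ch_div (A : ℕ → Bool) (r b : ℕ) {m q : ℕ} (h : q ≤ m) :
    ch A r b m / 2 ^ (m - q) = ch A r b q := by
  induction m with
  | zero =>
    have : q = 0 := by omega
    subst this
    simp
  | succ m ih =>
    rcases Nat.lt_or_ge m q with h1 | h1
    · have : q = m + 1 := by omega
      subst this
      simp
    · rw [show m + 1 - q = 1 + (m - q) by omega, pow_add, ← Nat.div_div_eq_div_mul, pow_one, ch]
      have := Bool.toNat_le (A (b * r + m))
      rw [show (2 * ch A r b m + (A (b * r + m)).toNat) / 2 = ch A r b m by omega]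
      exact ih h1

theorem vl_ch (A : ℕ → Bool) {r : ℕ} (hr : 1 ≤ r) (v : ℕ) : vl r (ch A r (v / r) r) v = A v := by
  have hq := Nat.mod_lt v hr
  unfold vl
  have h1 := ch_div A r (v / r) (m := r) (q := v % r + 1) (by omega)
  rw [show r - (v % r + 1) = r - 1 - v % r by omega] at h1
  rw [h1, ch, Nat.div_add_mod']
  cases A v
  · simp
  · rw [Bool.toNat_true, Nat.mul_add_mod]
    rfl

theorem ln_change {r b d : ℕ} (h : ln r b (d + 1) ≠ ln r b d) :
    ∃ q, q < r ∧ d = 2 * (b * r + q) ∧ ln r b d = q ∧ ln r b (d + 1) = q + 1 := by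
  have h3 : 2 * b * r = 2 * (b * r) := by ring
  unfold ln at h ⊢
  rw [h3] at h ⊢
  refine ⟨(d - 2 * (b * r)) / 2, ?_⟩
  have h1 : 2 * (b * r) ≤ d := by
    by_contra hc
    apply h
    rw [show d + 1 - 2 * (b * r) = 0 by omega, show d - 2 * (b * r) = 0 by omega]
  have h2 : (d - 2 * (b * r) + 1) / 2 < r := by
    by_contra hc
    apply h
    rw [min_eq_left (not_lt.1 hc), min_eq_left]
    omega
  have h4 : min r ((d - 2 * (b * r) + 1) / 2) = (d - 2 * (b * r) + 1) / 2 := min_eq_right h2.le
  have h5 : min r ((d + 1 - 2 * (b * r) + 1) / 2) = (d + 1 - 2 * (b * r) + 1) / 2 :=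
    min_eq_right (by omega)
  rw [h4, h5] at h
  rw [h4, h5]
  omega

variable (φ : F3) (r w : ℕ) (A : ℕ → Bool) (τ : ℕ → ℕ)

/-- the slot which gets the `o`-th move of the clause `j` -/
def prm (j o : ℕ) : ℕ := (τ j + 1 + o) % 3

/-- the move for the clause `j` -/
def cmv (j o h : ℕ) : Lb :=
  ((slot (cl φ j) (prm τ j o)).2 / r, 2 * w * r + 3 * j,
    ch A r ((slot (cl φ j) (prm τ j o)).2 / r) r, prm τ j o, h, 0)

/-- the moves -/
def mov (i : ℕ) : Lb :=
  if i < 2 * w * r then
    (if i % 2 = 0 then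
      (i / 2 / r, i + 1, 2 * ch A r (i / 2 / r) (i / 2 % r) + (1 - (A (i / 2)).toNat), 0, 0, 0)
    else (i / 2 / r, i, ch A r (i / 2 / r) (i / 2 % r + 1), 0, 1, 0))
  else cmv φ r w A τ ((i - 2 * w * r) / 3) ((i - 2 * w * r) % 3) ((i - 2 * w * r) % 3 + 1)

variable {φ r w A τ}

theorem mov_even (hr : 1 ≤ r) {s : ℕ} (hs : s < w * r) :
    mov φ r w A τ (2 * s) =
      (s / r, 2 * s + 1, 2 * ch A r (s / r) (s % r) + (1 - (A s).toNat), 0, 0, 0) := by
  unfold mov
  have h3 : 2 * w * r = 2 * (w * r) := by ring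
  rw [if_pos (by omega), if_pos (by omega), show 2 * s / 2 = s by omega]

theorem mov_odd (hr : 1 ≤ r) {s : ℕ} (hs : s < w * r) :
    mov φ r w A τ (2 * s + 1) = (s / r, 2 * s + 1, ch A r (s / r) (s % r + 1), 0, 1, 0) := by
  unfold mov
  have h3 : 2 * w * r = 2 * (w * r) := by ring
  rw [if_pos (by omega), if_neg (by omega), show (2 * s + 1) / 2 = s by omega]

theorem mov_clause {j o : ℕ} (ho : o < 3) :
    mov φ r w A τ (2 * w * r + 3 * j + o) = cmv φ r w A τ j o (o + 1) := by
  unfold mov
  rw [if_neg (by omega), show (2 * w * r + 3 * j + o - 2 * w * r) / 3 = j by omega,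
    show (2 * w * r + 3 * j + o - 2 * w * r) % 3 = o by omega]

theorem gl_clause {j o : ℕ} (hj : j < φ.length) (hr : 1 ≤ r)
    (hτ : (A (slot (cl φ j) (τ j)).2 = (slot (cl φ j) (τ j)).1)) (ho : o < 3)
    (ht : τ j < 3) :
    2 ≤ gl φ r w ((slot (cl φ j) (prm τ j o)).2 / r) (2 * w * r + 3 * j)
      (ch A r ((slot (cl φ j) (prm τ j o)).2 / r) r) (prm τ j o) ∧
    (o = 2 → gl φ r w ((slot (cl φ j) (prm τ j o)).2 / r) (2 * w * r + 3 * j)
      (ch A r ((slot (cl φ j) (prm τ j o)).2 / r) r) (prm τ j o) = 3) := by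
  have h0 : prm τ j o < 3 := Nat.mod_lt _ (by omega)
  unfold gl
  have e1 : 2 * w * r + 3 * j - 2 * w * r = 3 * j := by omega
  have e2 : 3 * j / 3 = j := by omega
  rw [if_neg (by omega), e1, e2, if_pos ⟨by omega, hj, h0, rfl⟩]
  refine ⟨by split_ifs <;> omega, ?_⟩
  intro h2
  have h3 : prm τ j o = τ j := by
    unfold prm
    omega
  rw [h3, if_pos]
  rw [vl_ch A hr]
  exact hτ

theorem mov_ok (hr : 1 ≤ r) (hw : 1 ≤ w) (hv : ∀ j < φ.length, ∀ t < 3, (slot (cl φ j) t).2 / r < w)
    (hτ : ∀ j < φ.length, A (slot (cl φ j) (τ j)).2 = (slot (cl φ j) (τ j)).1)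
    (ht : ∀ j, τ j < 3) {i : ℕ} (hi : i < Hh φ r w) :
    Ok φ r w (mov φ r w A τ i) ∧ i < (Lab φ r w).dep (mov φ r w A τ i) := by
  have h3 : 2 * w * r = 2 * (w * r) := by ring
  have hH : 2 * (w * r) ≤ Hh φ r w := by
    unfold Hh
    omega
  by_cases h1 : i < 2 * w * r
  · set s := i / 2 with hs
    have hsw : s < w * r := by omega
    have hb0 : s / r < w := Nat.div_lt_of_lt_mul (by rwa [mul_comm])
    obtain ⟨hl0, hl1, hl2⟩ := ln_sel hr s
    by_cases h2 : i % 2 = 0
    · have hi' : i = 2 * s := by omega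
      rw [hi', mov_even hr hsw, ok_main φ r w (by omega), Lab_dep]
      refine ⟨⟨hb0, by omega, ?_⟩, by simp only; omega⟩
      rw [hl1, pow_succ]
      have := ch_lt A r (s / r) (s % r)
      omega
    · have hi' : i = 2 * s + 1 := by omega
      rw [hi', mov_odd hr hsw, ok_gad φ r w (by omega), Lab_dep]
      have hg : ∀ a, gl φ r w (s / r) (2 * s + 1) a 0 = 1 := by
        intro a
        unfold gl
        rw [if_pos (by omega), if_pos]
        exact ⟨by omega, by rw [show (2 * s + 1) / 2 = s by omega], rfl⟩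
      refine ⟨⟨hb0, by omega, by omega, ?_, ?_, ?_⟩, by simp only; omega⟩
      · rw [hl1]
        exact ch_lt _ _ _ _
      · rw [hg]
        omega
      · rw [hg]
        exact Or.inl ⟨le_rfl, rfl⟩
  · obtain ⟨j, o, ho, rfl⟩ : ∃ j o, o < 3 ∧ i = 2 * w * r + 3 * j + o :=
      ⟨(i - 2 * w * r) / 3, (i - 2 * w * r) % 3, Nat.mod_lt _ (by omega), by omega⟩
    have hj : j < φ.length := by
      unfold Hh at hi
      omega
    rw [mov_clause ho, cmv, ok_gad φ r w (by omega), Lab_dep]
    have h0 : prm τ j o < 3 := Nat.mod_lt _ (by omega)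
    have hbw := hv j hj _ h0
    obtain ⟨hg1, hg2⟩ := gl_clause (w := w) (A := A) (τ := τ) hj hr (hτ j hj) ho (ht j)
    refine ⟨⟨hbw, ?_, ?_, ?_, by omega, Or.inl ⟨?_, rfl⟩⟩, ?_⟩
    · have : 0 < w * r := Nat.mul_pos (by omega) (by omega)
      omega
    · unfold Hh
      omega
    · rw [ln_after]
      · exact ch_lt _ _ _ _
      · have : ((slot (cl φ j) (prm τ j o)).2 / r + 1) * r ≤ w * r := Nat.mul_le_mul_right r hbw
        have e1 : 2 * ((slot (cl φ j) (prm τ j o)).2 / r) * r + 2 * r =
          2 * (((slot (cl φ j) (prm τ j o)).2 / r + 1) * r) := by ring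
        omega
    · rcases (by omega : o ≤ 1 ∨ o = 2) with h | h
      · omega
      · rw [hg2 h]
        omega
    · simp only
      omega

theorem burn_anc {σ : List Lb} {u v : Lb} (hv : v ∈ (Lab φ r w).Burn σ)
    (h : (Lab φ r w).Anc u v) : u ∈ (Lab φ r w).Burn σ :=
  ⟨h.mem hv.1, fun a ha h' => hv.2 a ha (h'.trans h)⟩

theorem burn_main (hr : 1 ≤ r) {σ : List Lb}
    (hσ : ∀ s < w * r, mov φ r w A τ (2 * s) ∈ σ) {b : ℕ} (hb : b < w) :
    ∀ d a, d ≤ Hh φ r w → a < 2 ^ ln r b d → mv b d a ∈ (Lab φ r w).Burn σ →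
      a = ch A r b (ln r b d) := by
  intro d
  induction d with
  | zero =>
    intro a _ ha _
    have h0 : ln r b 0 = 0 := ln_before (Nat.zero_le _)
    rw [h0] at ha ⊢
    simp only [pow_zero] at ha
    rw [ch]
    omega
  | succ d ih =>
    intro a hd ha hburn
    have hm := mv_mem φ r w hb hd ha
    have hne : mv b (d + 1) a ≠ (Lab φ r w).root := by
      intro h
      have := congrArg (Lab φ r w).dep h
      rw [dep_mv, (Lab φ r w).dep_root] at this
      omega
    have hanc := RT.anc_par hm hne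
    rw [mv_par] at hanc
    have hmono := ln_mono r b (show d ≤ d + 1 by omega)
    have h1 := ih (a / 2 ^ (ln r b (d + 1) - ln r b d)) (by omega) (by
      rw [Nat.div_lt_iff_lt_mul (by positivity), ← pow_add]
      rwa [Nat.add_sub_cancel' hmono]) (burn_anc hburn hanc)
    by_cases hc : ln r b (d + 1) = ln r b d
    · rw [hc, Nat.sub_self, pow_zero, Nat.div_one] at h1
      rw [hc]
      exact h1
    · obtain ⟨q, hq, hdq, h2, h3⟩ := ln_change hc
      rw [h2, h3, show q + 1 - q = 1 by omega, pow_one] at h1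
      rw [h3]
      have hs : b * r + q < w * r := by
        have : (b + 1) * r ≤ w * r := Nat.mul_le_mul_right r hb
        have e1 : (b + 1) * r = b * r + r := by ring
        omega
      have hdiv : (b * r + q) / r = b := by
        rw [mul_comm, Nat.mul_add_div (by omega), Nat.div_eq_of_lt hq, Nat.add_zero]
      have hmod : (b * r + q) % r = q := by
        rw [mul_comm, Nat.mul_add_mod, Nat.mod_eq_of_lt hq]
      have h4 := hσ _ hs
      rw [mov_even hr hs, hdiv, hmod, ← hdq] at h4
      rw [ch]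
      have h5 : a ≠ 2 * ch A r b q + (1 - (A (b * r + q)).toNat) := by
        intro h
        refine hburn.2 _ h4 ?_
        rw [← h, mv_pos (by omega)]
        exact RT.Anc.refl _ _
      have := Bool.toNat_le (A (b * r + q))
      omega

theorem cut {σ : List Lb} {b d a t h x h0 : ℕ} (hv : (b, d, a, t, h, x) ∈ (Lab φ r w).Burn σ)
    (h1 : 1 ≤ h0) (h2 : h0 ≤ gl φ r w b d a t) (h3 : (b, d, a, t, h0, 0) ∈ σ) : h < h0 := by
  by_contra hc
  have hc := not_lt.1 hc
  have hok := (ok_gad φ r w (show 1 ≤ h by omega)).1 hv.1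
  rcases Nat.lt_or_ge h0 h with h4 | h4
  · exact hv.2 _ h3 (gad_anc_gad φ r w hv.1 h1 h4)
  · have h5 : h = h0 := by omega
    subst h5
    have h6 : x = 0 := by
      rcases hok.2.2.2.2.2 with h | h
      · exact h.2
      · omega
    subst h6
    exact hv.2 _ h3 (RT.Anc.refl _ _)

variable (φ r w A τ) in
/-- the burning vertices -/
def fin : Finset Lb :=
  {(0, 0, 0, 0, 0, 0)} ∪
  ((Finset.range w ×ˢ Finset.Icc 1 (Hh φ r w)).image
    fun z => (z.1, z.2, ch A r z.1 (ln r z.1 z.2), 0, 0, 0)) ∪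
  ((Finset.range φ.length ×ˢ Finset.range 3).image
    fun z => cmv φ r w A τ z.1 (if z.2 = 0 then 1 else 2) (if z.2 = 2 then 2 else 1))

theorem fin_card : (fin φ r w A τ).card ≤ Bb φ r w := by
  unfold fin Bb
  refine (Finset.card_union_le _ _).trans ?_
  refine add_le_add ((Finset.card_union_le _ _).trans ?_) (Finset.card_image_le.trans ?_)
  · refine add_le_add (by simp) (Finset.card_image_le.trans ?_)
    rw [Finset.card_product, Finset.card_range, Nat.card_Icc]
    simp
  · rw [Finset.card_product, Finset.card_range, Finset.card_range]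
    omega

theorem complete (hr : 1 ≤ r) (hw : 1 ≤ w)
    (hv : ∀ j < φ.length, ∀ t < 3, (slot (cl φ j) t).2 / r < w) (hsat : SAT3 φ) :
    (Lab φ r w).Win (Bb φ r w) (Hh φ r w) := by
  classical
  obtain ⟨A, hA⟩ := hsat
  have hex : ∀ j, ∃ t, t < 3 ∧ (j < φ.length → A (slot (cl φ j) t).2 = (slot (cl φ j) t).1) := by
    intro j
    by_cases hj : j < φ.length
    · have hcl : cl φ j = φ[j] := by
        unfold cl
        rw [List.getD_eq_getElem?_getD, List.getElem?_eq_getElem hj, Option.getD_some]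
      rcases hA φ[j] (List.getElem_mem hj) with h | h | h
      · exact ⟨0, by omega, fun _ => by rw [hcl]; simpa [slot] using h⟩
      · exact ⟨1, by omega, fun _ => by rw [hcl]; simpa [slot] using h⟩
      · exact ⟨2, by omega, fun _ => by rw [hcl]; simpa [slot] using h⟩
    · exact ⟨0, by omega, fun h => absurd h hj⟩
  choose τ ht hτ using hex
  have hok := fun i (hi : i < Hh φ r w) => mov_ok hr hw hv hτ ht hi
  set σ := (List.range (Hh φ r w)).map (mov φ r w A τ) with hσdef
  have hlen : σ.length = Hh φ r w := by simp [hσdef]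
  have hmem : ∀ i < Hh φ r w, mov φ r w A τ i ∈ σ := fun i hi =>
    List.mem_map_of_mem (List.mem_range.2 hi)
  have hget : ∀ i, ∀ hi : i < σ.length, σ[i] = mov φ r w A τ i := by
    intro i hi
    simp [hσdef]
  have h3 : 2 * w * r = 2 * (w * r) := by ring
  have hH : 2 * (w * r) ≤ Hh φ r w := by
    unfold Hh
    omega
  refine ⟨σ, ?_, ?_, hlen.le⟩
  · intro i hi
    rw [hget i hi]
    obtain ⟨h1, h2⟩ := hok i (by rwa [hlen] at hi)
    exact ⟨h1, Or.inl h2⟩
  · refine le_trans ?_ (fin_card (A := A) (τ := τ))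
    rw [← Set.ncard_coe_finset]
    refine Set.ncard_le_ncard ?_ (Finset.finite_toSet _)
    rintro ⟨b, d, a, t, h, x⟩ hv'
    rw [Finset.mem_coe]
    have hbm : ∀ b < w, ∀ d a, d ≤ Hh φ r w → a < 2 ^ ln r b d →
        mv b d a ∈ (Lab φ r w).Burn σ → a = ch A r b (ln r b d) := fun b hb =>
      burn_main hr (fun s hs => hmem _ (by omega)) hb
    rcases Nat.lt_or_ge h 1 with hh | hh
    · have hh' : h = 0 := by omega
      subst hh'
      have hv1 := hv'.1
      rcases hv1 with hv1 | ⟨h1, h2, h4, h5, h6⟩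
      · rw [hv1]
        unfold fin
        simp
      · simp only at h1 h2 h4 h5 h6
        have h7 : t = 0 ∧ x = 0 := by
          rcases h6 with h6 | h6
          · exact ⟨h6.1, h6.2.2⟩
          · omega
        obtain ⟨rfl, rfl⟩ := h7
        rw [← mv_pos h2] at hv'
        have h8 := hbm b h1 d a h4 h5 hv'
        rw [h8]
        unfold fin
        refine Finset.mem_union_left _ (Finset.mem_union_right _ ?_)
        rw [Finset.mem_image]
        exact ⟨(b, d), Finset.mem_product.2 ⟨Finset.mem_range.2 h1, Finset.mem_Icc.2 ⟨h2, h4⟩⟩,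
          rfl⟩
    · have hok' := (ok_gad φ r w hh).1 hv'.1
      obtain ⟨h1, h2, h4, h5, h6, h7⟩ := hok'
      have h8 := hbm b h1 d a h4 h5 (burn_anc hv' (gad_anc_main φ r w hh hv'.1))
      by_cases hsel : d < 2 * w * r
      · exfalso
        have hg : d % 2 = 1 ∧ d / 2 / r = b ∧ t = 0 := by
          by_contra hc
          unfold gl at h6
          rw [if_pos hsel, if_neg hc] at h6
          omega
        obtain ⟨g1, g2, g3⟩ := hg
        subst g3
        have hd2 : d = 2 * (d / 2) + 1 := by omega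
        set s := d / 2 with hs
        have hsw : s < w * r := by omega
        have hmm := hmem (2 * s + 1) (by omega)
        rw [mov_odd hr hsw, g2, ← hd2] at hmm
        have hl := (ln_sel hr s).2.1
        rw [g2, ← hd2] at hl
        rw [← hl, ← h8] at hmm
        have := cut hv' le_rfl (by omega) hmm
        omega
      · have hg : (d - 2 * w * r) % 3 = 0 ∧ (d - 2 * w * r) / 3 < φ.length ∧ t < 3 ∧
            (slot (cl φ ((d - 2 * w * r) / 3)) t).2 / r = b := by
          by_contra hc
          unfold gl at h6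
          rw [if_neg hsel, if_neg hc] at h6
          omega
        obtain ⟨g1, g2, g3, g4⟩ := hg
        have hdj : d = 2 * w * r + 3 * ((d - 2 * w * r) / 3) := by omega
        set j := (d - 2 * w * r) / 3 with hj
        have htj := ht j
        obtain ⟨o, ho, hot⟩ : ∃ o, o < 3 ∧ prm τ j o = t := by
          unfold prm
          exact ⟨(t + 5 - τ j) % 3, by omega, by omega⟩
        have hl : ln r b d = r := by
          refine ln_after ?_
          have : (b + 1) * r ≤ w * r := Nat.mul_le_mul_right r h1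
          have e1 : 2 * b * r + 2 * r = 2 * ((b + 1) * r) := by ring
          omega
        rw [hl] at h8
        have hcm : ∀ h, cmv φ r w A τ j o h = (b, d, a, t, h, 0) := by
          intro h
          unfold cmv
          rw [hot, g4, ← hdj, ← h8]
        have hmm := hmem (2 * w * r + 3 * j + o) (by unfold Hh; omega)
        rw [mov_clause ho, hcm] at hmm
        obtain ⟨hg1, hg2⟩ := gl_clause (w := w) (A := A) (τ := τ) g2 hr (hτ j g2) ho htj
        rw [hot, g4, ← hdj, ← h8] at hg1 hg2
        have hcut := cut hv' (h0 := o + 1) (by omega) (by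
          rcases (by omega : o ≤ 1 ∨ o = 2) with h' | h'
          · omega
          · rw [hg2 h']
            omega) hmm
        have hx : x = 0 := by
          rcases h7 with h7 | h7
          · exact h7.2
          · omega
        subst hx
        rw [← hcm h]
        unfold fin
        refine Finset.mem_union_right _ ?_
        rw [Finset.mem_image]
        refine ⟨(j, h + o - 2), Finset.mem_product.2 ⟨Finset.mem_range.2 g2,
          Finset.mem_range.2 (by omega)⟩, ?_⟩
        rcases (by omega : (o = 1 ∧ h = 1) ∨ (o = 2 ∧ h = 1) ∨ (o = 2 ∧ h = 2)) with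
          ⟨rfl, rfl⟩ | ⟨rfl, rfl⟩ | ⟨rfl, rfl⟩ <;> rfl

end Pool.Agent.K9h83.FF
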