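import Pool.Agent.NPC.Sat2
import Pool.Agent.NPC.Dec

/-!
# The firefighter problem on trees: definitions
-/

set_option autoImplicit false

namespace Pool.Agent.K9h83.FF

open Pool.Agent.NPC

/-- The list `p` describes a tree: its vertices are `0, ..., p.length`, the fire starts at the
vertex `0`, and the vertex `i + 1` is joined to the vertex `p[i]`, which has a smaller number. -/
def IsTree (p : List ℕ) : Prop := ∀ i < p.length, p.getD i 0 ≤ i

/-- Adjacency in the tree `p`. -/
def Adj (p : List ℕ) (u v : ℕ) : Prop :=
  ∃ i < p.length, (u = p.getD i 0 ∧ v = i + 1) ∨ (v = p.getD i 0 ∧ u = i + 1)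

/-- The vertices on fire after the step `t`, if the vertices `σ[0], σ[1], ...` are protected in
the steps `1, 2, ...`: in the step `t + 1` first the vertex `σ[t]` is protected, and then the fire
spreads to all neighbours which are not protected. -/
def fire (p σ : List ℕ) : ℕ → Set ℕ
  | 0 => {0}
  | t + 1 => fire p σ t ∪ {v | v ∉ σ.take (t + 1) ∧ ∃ u ∈ fire p σ t, Adj p u v}

/-- The list `σ` is a strategy: each `σ[t]` is a vertex which is not on fire after the step `t`. -/
def Strategy (p σ : List ℕ) : Prop :=
  ∀ t < σ.length, σ.getD t 0 ≤ p.length ∧ σ.getD t 0 ∉ fire p σ t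

/-- The vertices which burn. -/
def burned (p σ : List ℕ) : Set ℕ := {v | ∃ t, v ∈ fire p σ t}

/-- The vertices which are saved. -/
def saved (p σ : List ℕ) : Set ℕ := {v | v ≤ p.length ∧ v ∉ burned p σ}

/-- Saving `k` vertices: some strategy saves at least `k` vertices. -/
def Saving (p : List ℕ) (k : ℕ) : Prop := ∃ σ, Strategy p σ ∧ k ≤ (saved p σ).ncard

/-- Saving all but `k` vertices: with some strategy at most `k` vertices burn. -/
def SavingAllBut (p : List ℕ) (k : ℕ) : Prop := ∃ σ, Strategy p σ ∧ (burned p σ).ncard ≤ k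

/-- Maximum `k`-vertex protection: some strategy which protects at most `k` vertices saves at
least `K` vertices. -/
def Protection (p : List ℕ) (k K : ℕ) : Prop :=
  ∃ σ, Strategy p σ ∧ σ.length ≤ k ∧ K ≤ (saved p σ).ncard

/-- `3`-CNF formulas: lists of clauses with three literals. -/
abbrev F3 : Type := List (Lit ℕ × Lit ℕ × Lit ℕ)

/-- All variables of the formula are less than `N`. -/
def Vars (φ : F3) (N : ℕ) : Prop := ∀ C ∈ φ, C.1.2 < N ∧ C.2.1.2 < N ∧ C.2.2.2 < N

/-- The procedure `B` is right about the satisfiability of all `3`-CNF formulas with at most `N`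
variables and at most `N` clauses, when it gets the formula and a string of `T` ones. -/
def Right (B : List Bool → List Bool) (N T : ℕ) : Prop :=
  ∀ φ : F3, Vars φ N → φ.length ≤ N →
    (B (bits (φ, List.replicate T true)) = [true] ↔ SAT3 φ)

/-- The exponential time hypothesis, in its weak uniform form, for the total number of variables
and clauses: there is no algorithm `B` such that for every `c > 0` the algorithm `B` decides the
satisfiability of the `3`-CNF formulas `φ` with at most `N` variables and `N` clauses, for all
sufficiently large `N`, in time polynomial in `2 ^ (N / c)`. -/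
def ETH : Prop := ¬ ∃ B : List Bool → List Bool, PolyTime B ∧
  ∀ c : ℕ, 0 < c → ∃ n₀ : ℕ, ∀ N, n₀ ≤ N → Right B N (2 ^ (N / c))

/-- `g k = o(k)` -/
def Sublinear (g : ℕ → ℕ) : Prop := ∀ c : ℕ, ∃ k₀ : ℕ, ∀ k, k₀ ≤ k → c * g k ≤ k

/-- The question `Q p x` about trees `p` and further data `x` with the parameter `κ x` is decided
in time `2 ^ g(κ x)` times a polynomial: some polynomial time procedure answers it when it gets
the input and a string of `T ≥ 2 ^ g(κ x)` ones. -/
def Decides {α : Type} [TEnc α] (g : ℕ → ℕ) (κ : α → ℕ) (Q : List ℕ → α → Prop) : Prop :=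
  ∃ A : List Bool → List Bool, PolyTime A ∧
    ∀ (p : List ℕ) (x : α) (T : ℕ), IsTree p → 2 ^ g (κ x) ≤ T →
      (A (bits ((p, x), List.replicate T true)) = [true] ↔ Q p x)

end Pool.Agent.K9h83.FF
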