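import Pool.Agent.K9h83.FF.PolyR

/-!
# The lower bounds
-/

set_option autoImplicit false

namespace Pool.Agent.K9h83.FF

open Pool.Agent.NPC

theorem rr_pos (a : AI) : 1 ≤ rr a := Nat.le_add_left _ _

theorem ww_pos (a : AI) : 1 ≤ ww a := Nat.le_add_left _ _

theorem PP_le (a : AI) : 2 ^ rr a ≤ PP a := by
  unfold rr PP
  rw [Nat.size_eq_bits_len]
  rcases Nat.eq_zero_or_pos a.2.length with h | h
  · rw [h]
    simp
  · have h1 : 0 < Nat.size a.2.length := Nat.size_pos.2 h
    have h2 : 2 ^ (Nat.size a.2.length - 1) ≤ a.2.length := Nat.lt_size.1 (by omega)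
    rw [show Nat.size a.2.length + 1 = (Nat.size a.2.length - 1) + 2 by omega, pow_add]
    omega

/-- the test in the definition of the number of blocks -/
def tst (a : AI) (b : ℕ) : Bool :=
  a.1.any fun C => decide (b * rr a ≤ C.1.2 ∨ b * rr a ≤ C.2.1.2 ∨ b * rr a ≤ C.2.2.2)

theorem ww_eq (a : AI) : ww a = ((List.range (PP a)).filter (tst a)).length + 1 := rfl

theorem ww_le {a : AI} {c : ℕ} (h : ∀ b, tst a b = true → b < c) : ww a ≤ c + 1 := by
  rw [ww_eq]
  have h1 : ((List.range (PP a)).filter (tst a)).Nodup := List.nodup_range.filter _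
  have h2 : ((List.range (PP a)).filter (tst a)).length ≤ (List.range c).length := by
    refine List.Subperm.length_le (List.subperm_of_subset h1 ?_)
    intro b hb
    rw [List.mem_filter] at hb
    exact List.mem_range.2 (h b hb.2)
  rw [List.length_range] at h2
  omega

theorem lt_ww {a : AI} {b : ℕ} (hb : b < PP a) (h : ∀ b' ≤ b, tst a b' = true) : b < ww a := by
  rw [ww_eq]
  have h2 : (List.range (b + 1)).length ≤ ((List.range (PP a)).filter (tst a)).length := by
    refine List.Subperm.length_le (List.subperm_of_subset List.nodup_range ?_)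
    intro b' hb'
    rw [List.mem_range] at hb'
    rw [List.mem_filter, List.mem_range]
    exact ⟨by omega, h b' (by omega)⟩
  rw [List.length_range] at h2
  omega

theorem sublinear_bound {g : ℕ → ℕ} (hg : Sublinear g) {C c : ℕ} (hC : 0 < C) (hc : 0 < c) :
    ∃ n₀, ∀ N, n₀ ≤ N → ∀ k ≤ C * N, g k ≤ N / c := by
  obtain ⟨k₀, hk₀⟩ := hg (C * c)
  refine ⟨c * ∑ i ∈ Finset.range k₀, g i, fun N hN k hk => ?_⟩
  rw [Nat.le_div_iff_mul_le hc]
  rcases Nat.lt_or_ge k k₀ with h | h
  · have h1 : g k ≤ ∑ i ∈ Finset.range k₀, g i :=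
      Finset.single_le_sum (f := g) (fun _ _ => Nat.zero_le _) (Finset.mem_range.2 h)
    calc g k * c ≤ (∑ i ∈ Finset.range k₀, g i) * c := Nat.mul_le_mul_right _ h1
      _ = c * ∑ i ∈ Finset.range k₀, g i := mul_comm _ _
      _ ≤ N := hN
  · have h1 := (hk₀ k h).trans hk
    rw [mul_assoc] at h1
    have h2 := Nat.le_of_mul_le_mul_left h1 hC
    rwa [mul_comm] at h2

/-- the constant -/
def Cc (c : ℕ) : ℕ := (c + 1) * (4 * c + 11) + 4

/-- The parameters of the reduction. -/
theorem params {c N : ℕ} (hc : 0 < c) (hN : c * c ≤ N) (hN1 : 1 ≤ N) {φ : F3} (hφ : Vars φ N)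
    (hM : φ.length ≤ N) {a : AI} (ha : a = (φ, List.replicate (2 ^ (N / c)) true)) :
    (∀ j < φ.length, ∀ t < 3, (slot (cl φ j) t).2 / rr a < ww a) ∧
    Hh φ (rr a) (ww a) ≤ Cc c * N ∧ Bb φ (rr a) (ww a) ≤ Cc c * N := by
  have hlen : a.2.length = 2 ^ (N / c) := by rw [ha]; simp
  have ha1 : a.1 = φ := by rw [ha]
  have hr : rr a = N / c + 2 := by
    unfold rr
    rw [hlen, Nat.size_eq_bits_len, Nat.size_pow]
  have hP : PP a = 4 * 2 ^ (N / c) + 2 := by
    unfold PP
    rw [hlen]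
  have hcP : c ≤ 2 ^ (N / c) := by
    have h1 : c ≤ N / c := by rwa [Nat.le_div_iff_mul_le hc]
    exact h1.trans Nat.lt_two_pow_self.le
  have hNr : N ≤ c * rr a := by
    have h1 := Nat.div_add_mod N c
    have h2 := Nat.mod_lt N hc
    have h3 : c * rr a = c * (N / c) + 2 * c := by rw [hr]; ring
    omega
  have hrpos := rr_pos a
  have hvar : ∀ j < φ.length, ∀ t < 3, (slot (cl φ j) t).2 < N ∧
      ∀ b, b * rr a ≤ (slot (cl φ j) t).2 → tst a b = true := by
    intro j hj t ht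
    have hcl : cl φ j = φ[j] := by
      unfold cl
      rw [List.getD_eq_getElem?_getD, List.getElem?_eq_getElem hj, Option.getD_some]
    have h1 := hφ φ[j] (List.getElem_mem hj)
    have h2 : ∀ b, (b * rr a ≤ φ[j].1.2 ∨ b * rr a ≤ φ[j].2.1.2 ∨ b * rr a ≤ φ[j].2.2.2) →
        tst a b = true := by
      intro b hb
      unfold tst
      rw [List.any_eq_true]
      refine ⟨φ[j], ?_, decide_eq_true hb⟩
      rw [ha1]
      exact List.getElem_mem hj
    rw [hcl]
    rcases (by omega : t = 0 ∨ t = 1 ∨ t = 2) with rfl | rfl | rfl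
    · exact ⟨h1.1, fun b hb => h2 b (Or.inl hb)⟩
    · exact ⟨h1.2.1, fun b hb => h2 b (Or.inr (Or.inl hb))⟩
    · exact ⟨h1.2.2, fun b hb => h2 b (Or.inr (Or.inr hb))⟩
  have hw : ww a ≤ c + 1 := by
    refine ww_le fun b hb => ?_
    unfold tst at hb
    rw [List.any_eq_true] at hb
    obtain ⟨C, hC, hb⟩ := hb
    rw [ha1] at hC
    have h1 := hφ C hC
    have h2 := of_decide_eq_true hb
    have h3 : b * rr a < c * rr a := by
      refine lt_of_lt_of_le ?_ hNr
      rcases h2 with h2 | h2 | h2 <;> omega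
    exact lt_of_mul_lt_mul_right h3 (Nat.zero_le _)
  have hHle : Hh φ (rr a) (ww a) ≤ (4 * c + 11) * N := by
    unfold Hh
    have h1 : ww a * rr a ≤ (c + 1) * rr a := Nat.mul_le_mul_right _ hw
    have h2 : c * (N / c) ≤ N := Nat.mul_div_le N c
    have h3 : N / c ≤ N := Nat.div_le_self _ _
    have h4 : (c + 1) * rr a = c * (N / c) + 2 * c + N / c + 2 := by rw [hr]; ring
    have h5 : 2 * ww a * rr a = 2 * (ww a * rr a) := by ring
    have h6 : c ≤ c * N := Nat.le_mul_of_pos_right c hN1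
    have h7 : (4 * c + 11) * N = 4 * (c * N) + 11 * N := by ring
    omega
  refine ⟨?_, ?_, ?_⟩
  · intro j hj t ht
    obtain ⟨h1, h2⟩ := hvar j hj t ht
    refine lt_ww ?_ ?_
    · have h3 : (slot (cl φ j) t).2 / rr a < c := by
        rw [Nat.div_lt_iff_lt_mul (by omega)]
        omega
      omega
    · intro b hb
      refine h2 b ?_
      exact (Nat.mul_le_mul_right _ hb).trans (Nat.div_mul_le_self _ _)
  · refine hHle.trans ?_
    unfold Cc
    refine Nat.mul_le_mul_right _ ?_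
    have : 1 * (4 * c + 11) ≤ (c + 1) * (4 * c + 11) := Nat.mul_le_mul_right _ (by omega)
    omega
  · unfold Bb Cc
    have h1 : ww a * Hh φ (rr a) (ww a) ≤ (c + 1) * ((4 * c + 11) * N) := Nat.mul_le_mul hw hHle
    have h2 : ((c + 1) * (4 * c + 11) + 4) * N = (c + 1) * ((4 * c + 11) * N) + 4 * N := by ring
    omega

/-- The lower bound for a question `Q` which the reduction reaches. -/
theorem lower {α : Type} [TEnc α] {κ : α → ℕ} {Q : List ℕ → α → Prop} (D : AI → α)
    (hD : NPC.Poly D)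
    (hQ : ∀ a : AI, (∀ j < a.1.length, ∀ t < 3, (slot (cl a.1 j) t).2 / rr a < ww a) →
      (Q (pl a.1 (rr a) (ww a) (PP a)) (D a) ↔ SAT3 a.1))
    (hκ : ∀ a : AI, ∀ n, Hh a.1 (rr a) (ww a) ≤ n → Bb a.1 (rr a) (ww a) ≤ n → κ (D a) ≤ n)
    (heth : ETH) {g : ℕ → ℕ} (hg : Sublinear g) : ¬ Decides g κ Q := by
  rintro ⟨A, hA, hdec⟩
  refine heth ⟨fun x => match unbits (F3 × List Bool) x with
    | some a => A (bits ((pl a.1 (rr a) (ww a) (PP a), D a), a.2))
    | none => [false], ?_, ?_⟩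
  · refine H622R2.polyTime_of_poly_list ?_
    refine (NPC.Poly.optCases (o := unbits (F3 × List Bool)) (g := fun _ => [false])
      (h := fun _ a => A (bits ((pl a.1 (rr a) (ww a) (PP a), D a), a.2))) poly_unbits
      (NPC.Poly.const _) ?_).congr ?_
    · have h0 : NPC.Poly (fun a : AI => A (bits ((pl a.1 (rr a) (ww a) (PP a), D a), a.2))) :=
        (Pool.Agent.Q227.poly_of_polyTime hA).comp (NPC.Poly.pair (NPC.Poly.pair pl_poly hD)
          (NPC.Poly.snd NPC.Poly.id))
      exact h0.comp (f := fun q : List Bool × AI => q.2) (NPC.Poly.snd NPC.Poly.id)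
    · intro x
      cases unbits (F3 × List Bool) x <;> rfl
  · intro c hc
    obtain ⟨n₀, hn₀⟩ := sublinear_bound hg (C := Cc c) (by unfold Cc; omega) hc
    refine ⟨n₀ + c * c + 1, fun N hN φ hφ hM => ?_⟩
    beta_reduce
    rw [unbits_bits]
    obtain ⟨a, ha⟩ : ∃ a : AI, a = (φ, List.replicate (2 ^ (N / c)) true) := ⟨_, rfl⟩
    obtain ⟨h1, h2, h3⟩ := params hc (by omega) (by omega) hφ hM ha
    have ha1 : a.1 = φ := by rw [ha]
    have ha2 : a.2 = List.replicate (2 ^ (N / c)) true := by rw [ha]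
    rw [← ha]
    simp only
    have hp := (reduction (φ := φ) (rr_pos a) (ww_pos a) (PP_le a) h1).1
    rw [ha2, hdec _ _ _ (by rwa [ha1]) ?_, ← ha1]
    · exact hQ a (by rwa [ha1])
    · refine Nat.pow_le_pow_right (by omega) ?_
      refine hn₀ N (by omega) _ ?_
      exact hκ a _ (by rwa [ha1]) (by rwa [ha1])

theorem saving_all_but (heth : ETH) {g : ℕ → ℕ} (hg : Sublinear g) :
    ¬ Decides g (fun k => k) SavingAllBut := by
  refine lower (fun a => Bb a.1 (rr a) (ww a)) BbU.toPoly ?_ (fun a n _ h => h) heth hg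
  intro a h
  exact (reduction (rr_pos a) (ww_pos a) (PP_le a) h).2.1

theorem protection (heth : ETH) {g : ℕ → ℕ} (hg : Sublinear g) :
    ¬ Decides g (fun x : ℕ × ℕ => x.1) (fun p x => Protection p x.1 x.2) := by
  refine lower (fun a => (Hh a.1 (rr a) (ww a),
    (pl a.1 (rr a) (ww a) (PP a)).length + 1 - Bb a.1 (rr a) (ww a))) ?_ ?_ (fun a n h _ => h)
    heth hg
  · have h1 := HhU.toPoly
    have h2 := BbU.toPoly
    have h3 := NPC.Poly.length pl_poly
    fun_prop
  · intro a h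
    exact (reduction (rr_pos a) (ww_pos a) (PP_le a) h).2.2

end Pool.Agent.K9h83.FF
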