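import Pool.Agent.K9h83.FF.Tree

/-!
# The fire in the tree given by a parent list
-/

set_option autoImplicit false

namespace Pool.Agent.K9h83.FF

/-- the parent -/
def up (p : List ℕ) (v : ℕ) : ℕ := if v = 0 then 0 else p.getD (v - 1) 0

/-- the depth, with fuel -/
def depF (p : List ℕ) : ℕ → ℕ → ℕ
  | 0, _ => 0
  | f + 1, v => if v = 0 then 0 else depF p f (up p v) + 1

theorem depF_zero (p : List ℕ) (f : ℕ) : depF p f 0 = 0 := by
  cases f <;> simp [depF]

theorem up_lt {p : List ℕ} (hp : IsTree p) {v : ℕ} (hv : v ≤ p.length) (h0 : v ≠ 0) :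
    up p v < v := by
  rw [up, if_neg h0]
  have := hp (v - 1) (by omega)
  omega

theorem depF_eq {p : List ℕ} (hp : IsTree p) : ∀ v f : ℕ, v ≤ p.length → v ≤ f →
    depF p f v = depF p v v := by
  intro v
  induction v using Nat.strong_induction_on with
  | _ v ih =>
    intro f hv hf
    rcases Nat.eq_zero_or_pos v with rfl | h0
    · rw [depF_zero, depF_zero]
    · obtain ⟨f', rfl⟩ : ∃ f', f = f' + 1 := ⟨f - 1, by omega⟩
      obtain ⟨v', rfl⟩ : ∃ v', v = v' + 1 := ⟨v - 1, by omega⟩
      have h1 := up_lt hp hv (by omega)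
      rw [depF, depF, if_neg (by omega), if_neg (by omega),
        ih _ h1 f' (by omega) (by omega), ih _ h1 v' (by omega) (by omega)]

/-- the tree given by a parent list -/
def Tp (p : List ℕ) (hp : IsTree p) : RT ℕ where
  S := {v | v ≤ p.length}
  root := 0
  par := up p
  dep v := depF p v v
  root_mem := Nat.zero_le _
  dep_root := rfl
  par_mem v hv h0 := (up_lt hp hv h0).le.trans hv
  dep_par v hv h0 := by
    obtain ⟨w, rfl⟩ : ∃ w, v = w + 1 := ⟨v - 1, by omega⟩
    have h1 := up_lt hp hv h0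
    have hv' : w + 1 ≤ p.length := hv
    show depF p (w + 1) (w + 1) = depF p (up p (w + 1)) (up p (w + 1)) + 1
    rw [depF, if_neg h0, depF_eq hp _ w (by omega) (by omega)]

theorem mem_Tp {p : List ℕ} {hp : IsTree p} {v : ℕ} : v ∈ (Tp p hp).S ↔ v ≤ p.length := Iff.rfl

theorem adj_iff {p : List ℕ} (hp : IsTree p) (u v : ℕ) :
    Adj p u v ↔ (v ≤ p.length ∧ v ≠ 0 ∧ up p v = u) ∨ (u ≤ p.length ∧ u ≠ 0 ∧ up p u = v) := by
  constructor
  · rintro ⟨i, hi, ⟨rfl, rfl⟩ | ⟨rfl, rfl⟩⟩
    · left
      refine ⟨by omega, by omega, ?_⟩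
      rw [up, if_neg (by omega), Nat.add_sub_cancel]
    · right
      refine ⟨by omega, by omega, ?_⟩
      rw [up, if_neg (by omega), Nat.add_sub_cancel]
  · rintro (⟨h1, h2, rfl⟩ | ⟨h1, h2, rfl⟩)
    · refine ⟨v - 1, by omega, Or.inl ⟨?_, by omega⟩⟩
      rw [up, if_neg h2]
    · refine ⟨u - 1, by omega, Or.inr ⟨?_, by omega⟩⟩
      rw [up, if_neg h2]

theorem fire_char {p : List ℕ} (hp : IsTree p) (σ : List ℕ) : ∀ t : ℕ,
    (∀ s < t, ∀ h : s < σ.length, σ[s] ∉ fire p σ s) →
    fire p σ t = {v | v ≤ p.length ∧ (Tp p hp).dep v ≤ t ∧ ∀ a ∈ σ.take t, ¬ (Tp p hp).Anc a v} := by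
  intro t
  induction t with
  | zero =>
    intro _
    ext v
    simp only [fire, Set.mem_singleton_iff, Set.mem_setOf_eq, List.take_zero, List.not_mem_nil,
      false_imp_iff, implies_true, and_true, Nat.le_zero]
    constructor
    · rintro rfl
      exact ⟨Nat.zero_le _, (Tp p hp).dep_root⟩
    · rintro ⟨h1, h2⟩
      exact RT.eq_root_of_dep (T := Tp p hp) h1 h2
  | succ t ih =>
    intro hs
    have ih' := ih fun s hst => hs s (by omega)
    have key : ∀ v ∈ fire p σ t, ∀ a ∈ σ.take (t + 1), ¬ (Tp p hp).Anc a v := by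
      intro v hv a ha hav
      have hv' := hv
      rw [ih'] at hv'
      obtain ⟨h1, h2, h3⟩ := hv'
      obtain ⟨i, hi, rfl⟩ := List.getElem_of_mem ha
      rw [List.length_take] at hi
      rw [List.getElem_take] at hav
      by_cases hit : i < t
      · refine h3 (σ[i]'(by omega)) ?_ hav
        rw [List.mem_take_iff_getElem]
        exact ⟨i, by omega, rfl⟩
      · have hit' : i = t := by omega
        subst hit'
        refine hs i (by omega) (by omega) ?_
        rw [ih']
        exact ⟨hav.mem (T := Tp p hp) h1, hav.dep_le.trans h2,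
          fun a ha h4 => h3 a ha (h4.trans hav)⟩
    ext v
    simp only [fire, Set.mem_union, Set.mem_setOf_eq]
    constructor
    · rintro (hv | ⟨hv, u, hu, huv⟩)
      · have hv' := hv
        rw [ih'] at hv'
        exact ⟨hv'.1, by have := hv'.2.1; omega, key v hv⟩
      · have hu' := hu
        rw [ih'] at hu'
        rcases (adj_iff hp u v).1 huv with ⟨h1, h2, h3⟩ | ⟨h1, h2, h3⟩
        · have hd := (Tp p hp).dep_par v h1 h2
          have hpv : (Tp p hp).par v = u := h3
          rw [hpv] at hd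
          refine ⟨h1, by have := hu'.2.1; omega, fun a ha h4 => ?_⟩
          rcases h4.cases with rfl | ⟨_, _, h5⟩
          · exact hv ha
          · rw [hpv] at h5
            exact key u hu a ha h5
        · have hd := (Tp p hp).dep_par u h1 h2
          have hpv : (Tp p hp).par u = v := h3
          have hanc : (Tp p hp).Anc v u := hpv ▸ RT.anc_par (T := Tp p hp) h1 h2
          rw [hpv] at hd
          refine ⟨hanc.mem (T := Tp p hp) h1, by have := hu'.2.1; omega, fun a ha h4 => ?_⟩
          exact key u hu a ha (h4.trans hanc)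
    · rintro ⟨h1, h2, h3⟩
      have hsub : ∀ a ∈ σ.take t, a ∈ σ.take (t + 1) := by
        intro a ha
        rw [List.mem_take_iff_getElem] at ha ⊢
        obtain ⟨i, hi, hi'⟩ := ha
        exact ⟨i, by omega, hi'⟩
      by_cases hd : (Tp p hp).dep v ≤ t
      · left
        rw [ih']
        exact ⟨h1, hd, fun a ha => h3 a (hsub a ha)⟩
      · right
        have hr : v ≠ 0 := by
          rintro rfl
          exact hd (by rw [show (Tp p hp).dep 0 = 0 from rfl]; omega)
        have hd' := (Tp p hp).dep_par v h1 hr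
        refine ⟨fun ha => h3 v ha (RT.Anc.refl _ v), up p v, ?_, ?_⟩
        · rw [ih']
          refine ⟨(Tp p hp).par_mem v h1 hr, ?_, fun a ha h4 => ?_⟩
          · show (Tp p hp).dep ((Tp p hp).par v) ≤ t
            omega
          · exact h3 a (hsub a ha) (RT.Anc.trans h4 (RT.anc_par (T := Tp p hp) h1 hr))
        · rw [adj_iff hp]
          exact Or.inl ⟨h1, hr, rfl⟩

theorem strategy_iff {p : List ℕ} (hp : IsTree p) (σ : List ℕ) :
    Strategy p σ ↔ (Tp p hp).Valid σ := by
  have hget : ∀ t, ∀ h : t < σ.length, σ.getD t 0 = σ[t] := fun t h => by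
    simp [List.getD_eq_getElem?_getD, List.getElem?_eq_getElem h]
  constructor
  · intro h t ht
    obtain ⟨h1, h2⟩ := h t ht
    rw [hget t ht] at h1 h2
    refine ⟨h1, ?_⟩
    rw [fire_char hp σ t fun s _ hs => by
      have := (h s hs).2
      rwa [hget s hs] at this] at h2
    by_contra hc
    push Not at hc
    exact h2 ⟨h1, hc.1, hc.2⟩
  · intro h t
    induction t using Nat.strong_induction_on with
    | _ t ih =>
      intro ht
      rw [hget t ht]
      obtain ⟨h1, h2⟩ := h t ht
      refine ⟨h1, ?_⟩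
      rw [fire_char hp σ t fun s hst hs => by
        have := (ih s hst hs).2
        rwa [hget s hs] at this]
      rintro ⟨_, h3, h4⟩
      rcases h2 with h2 | ⟨a, ha, h5⟩
      · omega
      · exact h4 a ha h5

theorem burned_eq {p : List ℕ} (hp : IsTree p) {σ : List ℕ} (hσ : (Tp p hp).Valid σ) :
    burned p σ = (Tp p hp).Burn σ := by
  have hget : ∀ t, ∀ h : t < σ.length, σ.getD t 0 = σ[t] := fun t h => by
    simp [List.getD_eq_getElem?_getD, List.getElem?_eq_getElem h]
  have hs := (strategy_iff hp σ).2 hσ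
  have hchar : ∀ t, fire p σ t =
      {v | v ≤ p.length ∧ (Tp p hp).dep v ≤ t ∧ ∀ a ∈ σ.take t, ¬ (Tp p hp).Anc a v} := by
    intro t
    refine fire_char hp σ t fun s _ h => ?_
    have := (hs s h).2
    rwa [hget s h] at this
  have hmono : ∀ t t', t ≤ t' → fire p σ t ⊆ fire p σ t' := by
    intro t t' h
    induction h with
    | refl => exact fun _ h => h
    | step _ ih =>
      intro v hv
      exact Or.inl (ih hv)
  ext v
  constructor
  · rintro ⟨t, ht⟩
    have h1 := hmono t (max t σ.length) (le_max_left _ _) ht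
    rw [hchar, List.take_of_length_le (le_max_right _ _)] at h1
    exact ⟨h1.1, h1.2.2⟩
  · rintro ⟨h1, h2⟩
    refine ⟨max ((Tp p hp).dep v) σ.length, ?_⟩
    rw [hchar, List.take_of_length_le (le_max_right _ _)]
    exact ⟨h1, le_max_left _ _, h2⟩

theorem burn_finite {p : List ℕ} (hp : IsTree p) (σ : List ℕ) : ((Tp p hp).Burn σ).Finite :=
  (Set.finite_Iic p.length).subset fun _ h => h.1

theorem saved_card {p : List ℕ} (hp : IsTree p) {σ : List ℕ} (hσ : (Tp p hp).Valid σ) :
    (saved p σ).ncard + ((Tp p hp).Burn σ).ncard = p.length + 1 := by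
  have h1 : saved p σ = Set.Iic p.length \ (Tp p hp).Burn σ := by
    ext v
    rw [saved, Set.mem_setOf_eq, burned_eq hp hσ]
    rfl
  have h2 : (Tp p hp).Burn σ ⊆ Set.Iic p.length := fun _ h => h.1
  rw [h1, Set.ncard_diff_add_ncard_of_subset h2 (Set.finite_Iic _)]
  rw [← Finset.coe_Iic, Set.ncard_coe_finset, Nat.card_Iic]

theorem savingAllBut_iff {p : List ℕ} (hp : IsTree p) (k : ℕ) :
    SavingAllBut p k ↔ ∃ L, (Tp p hp).Win k L := by
  constructor
  · rintro ⟨σ, h1, h2⟩
    have h3 := (strategy_iff hp σ).1 h1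
    rw [burned_eq hp h3] at h2
    exact ⟨σ.length, σ, h3, h2, le_rfl⟩
  · rintro ⟨L, σ, h1, h2, _⟩
    refine ⟨σ, (strategy_iff hp σ).2 h1, ?_⟩
    rwa [burned_eq hp h1]

theorem protection_iff {p : List ℕ} (hp : IsTree p) (k B : ℕ) (hB : B ≤ p.length + 1) :
    Protection p k (p.length + 1 - B) ↔ (Tp p hp).Win B k := by
  constructor
  · rintro ⟨σ, h1, h2, h3⟩
    have h4 := (strategy_iff hp σ).1 h1
    have h5 := saved_card hp h4
    exact ⟨σ, h4, by omega, h2⟩
  · rintro ⟨σ, h1, h2, h3⟩
    have h5 := saved_card hp h1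
    exact ⟨σ, (strategy_iff hp σ).2 h1, h3, by omega⟩

end Pool.Agent.K9h83.FF
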