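import Pool.Agent.K9h83.FF.Tree

/-!
# The tree of a formula
-/

set_option autoImplicit false

namespace Pool.Agent.K9h83.FF

open Pool.Agent.NPC

namespace RT

variable {V : Type} {T : RT V}

theorem Anc.unique {a b v : V} (h : T.Anc a v) (h' : T.Anc b v) (hd : T.dep a = T.dep b) :
    a = b := by
  rcases h.total h' with h1 | h1
  · exact h1.eq_of_dep hd.ge
  · exact (h1.eq_of_dep hd.le).symm

theorem hit {σ : List V} (hσ : T.Valid σ) {u y : V} (hu : u ∈ T.Burn σ) (hy : y ∈ T.S)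
    (hyb : y ∉ T.Burn σ) (huy : T.Anc u y) :
    ∃ i, ∃ hi : i < σ.length, i < T.dep σ[i] ∧ T.Anc σ[i] y ∧ T.dep u < T.dep σ[i] := by
  classical
  have h1 : ∃ n, ∃ a ∈ σ, T.Anc a y ∧ T.dep a = n := by
    by_contra hc
    exact hyb ⟨hy, fun a ha h => hc ⟨_, a, ha, h, rfl⟩⟩
  obtain ⟨a, ha, hay, hd⟩ := Nat.find_spec h1
  obtain ⟨i, hi, hia, hid⟩ := hσ.first ha fun b hb hba => by
    refine hba.eq_of_dep ?_
    rw [hd]
    exact Nat.find_min' h1 ⟨b, hb, hba.trans hay, rfl⟩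
  refine ⟨i, hi, by rwa [hia], by rwa [hia], ?_⟩
  rw [hia]
  by_contra hlt
  rcases hay.total huy with h2 | h2
  · exact hu.2 a ha h2
  · have := h2.eq_of_dep (not_lt.1 hlt)
    subst this
    exact hu.2 _ ha (Anc.refl _ _)

theorem root_burn {σ : List V} (hσ : T.Valid σ) : T.root ∈ T.Burn σ := by
  refine ⟨T.root_mem, fun a ha h => ?_⟩
  have h1 := h.root
  subst h1
  obtain ⟨i, hi, _, h2⟩ := hσ.first ha fun b _ hb => hb.root
  rw [T.dep_root] at h2
  omega

end RT

/-- labels `(b, d, a, t, h, x)` -/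
abbrev Lb : Type := ℕ × ℕ × ℕ × ℕ × ℕ × ℕ

variable (φ : F3) (r w : ℕ)

/-- the number of levels -/
def Hh : ℕ := 2 * w * r + 3 * φ.length

/-- the bound for the number of burning vertices -/
def Bb : ℕ := 1 + w * Hh φ r w + 3 * φ.length

/-- the number of leaves of a gadget -/
def Wt : ℕ := Bb φ r w + Hh φ r w + 2

/-- the number of bits selected in the block `b` at the depth `d` -/
def ln (r b d : ℕ) : ℕ := min r ((d - 2 * b * r + 1) / 2)

/-- the value of the variable `v` under the code `a` -/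
def vl (r a v : ℕ) : Bool := a / 2 ^ (r - 1 - v % r) % 2 == 1

/-- the literal in the slot `t` of a clause -/
def slot (C : Lit ℕ × Lit ℕ × Lit ℕ) (t : ℕ) : Lit ℕ :=
  if t = 0 then C.1 else if t = 1 then C.2.1 else C.2.2

/-- the `j`-th clause -/
def cl (φ : F3) (j : ℕ) : Lit ℕ × Lit ℕ × Lit ℕ := φ.getD j default

/-- the length of the gadget number `t` at the main vertex `(b, d, a)` -/
def gl (b d a t : ℕ) : ℕ :=
  if d < 2 * w * r then (if d % 2 = 1 ∧ d / 2 / r = b ∧ t = 0 then 1 else 0)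
  else if (d - 2 * w * r) % 3 = 0 ∧ (d - 2 * w * r) / 3 < φ.length ∧ t < 3 ∧
      (slot (cl φ ((d - 2 * w * r) / 3)) t).2 / r = b then
    (if vl r a (slot (cl φ ((d - 2 * w * r) / 3)) t).2 = (slot (cl φ ((d - 2 * w * r) / 3)) t).1
      then 3 else 2)
  else 0

/-- the labels -/
def Ok (l : Lb) : Prop :=
  l = (0, 0, 0, 0, 0, 0) ∨
  (l.1 < w ∧ 1 ≤ l.2.1 ∧ l.2.1 ≤ Hh φ r w ∧ l.2.2.1 < 2 ^ ln r l.1 l.2.1 ∧
    ((l.2.2.2.1 = 0 ∧ l.2.2.2.2.1 = 0 ∧ l.2.2.2.2.2 = 0) ∨
     (1 ≤ l.2.2.2.2.1 ∧ 0 < gl φ r w l.1 l.2.1 l.2.2.1 l.2.2.2.1 ∧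
       ((l.2.2.2.2.1 ≤ gl φ r w l.1 l.2.1 l.2.2.1 l.2.2.2.1 ∧ l.2.2.2.2.2 = 0) ∨
        (l.2.2.2.2.1 = gl φ r w l.1 l.2.1 l.2.2.1 l.2.2.2.1 + 1 ∧ l.2.2.2.2.2 < Wt φ r w)))))

/-- the parent -/
def pr (r : ℕ) (l : Lb) : Lb :=
  if l.2.2.2.2.1 = 0 then
    (if l.2.1 ≤ 1 then (0, 0, 0, 0, 0, 0)
    else (l.1, l.2.1 - 1, l.2.2.1 / 2 ^ (ln r l.1 l.2.1 - ln r l.1 (l.2.1 - 1)), 0, 0, 0))
  else if l.2.2.2.2.1 = 1 then (l.1, l.2.1, l.2.2.1, 0, 0, 0)
  else (l.1, l.2.1, l.2.2.1, l.2.2.2.1, l.2.2.2.2.1 - 1, 0)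

theorem ln_mono (b : ℕ) {d d' : ℕ} (h : d ≤ d') : ln r b d ≤ ln r b d' := by
  unfold ln
  refine min_le_min le_rfl ?_
  omega

theorem ok_main {b d a : ℕ} (hd : 1 ≤ d) :
    Ok φ r w (b, d, a, 0, 0, 0) ↔ b < w ∧ d ≤ Hh φ r w ∧ a < 2 ^ ln r b d := by
  constructor
  · rintro (h | ⟨h1, h2, h3, h4, h5⟩)
    · simp only [Prod.mk.injEq] at h
      omega
    · exact ⟨h1, h3, h4⟩
  · rintro ⟨h1, h2, h3⟩
    exact Or.inr ⟨h1, hd, h2, h3, Or.inl ⟨rfl, rfl, rfl⟩⟩

theorem ok_gad {b d a t h x : ℕ} (hh : 1 ≤ h) :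
    Ok φ r w (b, d, a, t, h, x) ↔ b < w ∧ 1 ≤ d ∧ d ≤ Hh φ r w ∧ a < 2 ^ ln r b d ∧
      0 < gl φ r w b d a t ∧ ((h ≤ gl φ r w b d a t ∧ x = 0) ∨
        (h = gl φ r w b d a t + 1 ∧ x < Wt φ r w)) := by
  constructor
  · rintro (h' | ⟨h1, h2, h3, h4, h5⟩)
    · simp only [Prod.mk.injEq] at h'
      omega
    · refine ⟨h1, h2, h3, h4, ?_⟩
      rcases h5 with ⟨_, h5, _⟩ | ⟨_, h5⟩
      · simp only at h5
        omega
      · exact h5
  · rintro ⟨h1, h2, h3, h4, h5⟩
    exact Or.inr ⟨h1, h2, h3, h4, Or.inr ⟨hh, h5⟩⟩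

/-- the tree of the formula -/
def Lab : RT Lb where
  S := {l | Ok φ r w l}
  root := (0, 0, 0, 0, 0, 0)
  par := pr r
  dep l := l.2.1 + l.2.2.2.2.1
  root_mem := Or.inl rfl
  dep_root := rfl
  par_mem := by
    rintro ⟨b, d, a, t, h, x⟩ hv h0
    rcases Nat.lt_or_ge h 1 with hh | hh
    · have hh' : h = 0 := by omega
      subst hh'
      rcases hv with hv | ⟨h1, h2, h3, h4, h5⟩
      · exact absurd hv h0
      · simp only at h1 h2 h3 h4 h5
        show Ok φ r w (pr r _)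
        simp only [pr, if_true]
        split_ifs with hd
        · exact Or.inl rfl
        · rw [ok_main φ r w (by omega)]
          refine ⟨h1, by omega, ?_⟩
          rw [Nat.div_lt_iff_lt_mul (by positivity), ← pow_add]
          rwa [Nat.add_sub_cancel' (ln_mono r b (by omega))]
    · have h1 : Ok φ r w _ := hv
      rw [ok_gad φ r w hh] at h1
      obtain ⟨h1, h2, h3, h4, h5, h6⟩ := h1
      show Ok φ r w (pr r _)
      simp only [pr]
      rw [if_neg (by omega)]
      split_ifs with hd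
      · rw [ok_main φ r w h2]
        exact ⟨h1, h3, h4⟩
      · rw [ok_gad φ r w (by omega)]
        refine ⟨h1, h2, h3, h4, h5, Or.inl ⟨?_, rfl⟩⟩
        rcases h6 with h6 | h6 <;> omega
  dep_par := by
    rintro ⟨b, d, a, t, h, x⟩ hv h0
    rcases Nat.lt_or_ge h 1 with hh | hh
    · have hh' : h = 0 := by omega
      subst hh'
      rcases hv with hv | ⟨h1, h2, h3, h4, h5⟩
      · exact absurd hv h0
      · simp only at h1 h2 h3 h4 h5
        simp only [pr, if_true]
        split_ifs with hd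
        · simp only
          omega
        · simp only
          omega
    · simp only [pr]
      rw [if_neg (by omega)]
      split_ifs with hd
      · simp only
        omega
      · simp only
        omega

theorem Lab_par (l : Lb) : (Lab φ r w).par l = pr r l := rfl

theorem Lab_dep (l : Lb) : (Lab φ r w).dep l = l.2.1 + l.2.2.2.2.1 := rfl

theorem Lab_mem (l : Lb) : l ∈ (Lab φ r w).S ↔ Ok φ r w l := Iff.rfl

/-- the main vertex, for the depth `0` the root -/
def mv (b d a : ℕ) : Lb := if d = 0 then (0, 0, 0, 0, 0, 0) else (b, d, a, 0, 0, 0)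

theorem mv_pos {b d a : ℕ} (h : 1 ≤ d) : mv b d a = (b, d, a, 0, 0, 0) := if_neg (by omega)

theorem mv_zero (b a : ℕ) : mv b 0 a = (0, 0, 0, 0, 0, 0) := rfl

theorem dep_mv (b d a : ℕ) : (Lab φ r w).dep (mv b d a) = d := by
  unfold mv
  split_ifs with h
  · exact h.symm
  · rfl

theorem mv_mem {b d a : ℕ} (h1 : b < w) (h2 : d ≤ Hh φ r w) (h3 : a < 2 ^ ln r b d) :
    mv b d a ∈ (Lab φ r w).S := by
  rcases Nat.eq_zero_or_pos d with rfl | hd
  · exact (Lab φ r w).root_mem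
  · rw [mv_pos hd]
    exact (ok_main φ r w hd).2 ⟨h1, h2, h3⟩

theorem mv_par {b d a : ℕ} :
    (Lab φ r w).par (mv b (d + 1) a) = mv b d (a / 2 ^ (ln r b (d + 1) - ln r b d)) := by
  rw [mv_pos (by omega), Lab_par]
  simp only [pr, if_true, Nat.add_sub_cancel]
  rcases Nat.eq_zero_or_pos d with rfl | hd
  · rw [if_pos (by omega), mv_zero]
  · rw [if_neg (by omega), mv_pos hd]

theorem mv_anc {b d a : ℕ} (h1 : b < w) (h2 : d ≤ Hh φ r w) (h3 : a < 2 ^ ln r b d) {d' : ℕ}
    (h4 : d' ≤ d) :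
    (Lab φ r w).Anc (mv b d' (a / 2 ^ (ln r b d - ln r b d'))) (mv b d a) := by
  induction d generalizing a with
  | zero =>
    have : d' = 0 := by omega
    subst this
    rw [mv_zero, mv_zero]
    exact RT.Anc.refl _ _
  | succ d ih =>
    rcases Nat.lt_or_ge d d' with hd | hd
    · have : d' = d + 1 := by omega
      subst this
      rw [Nat.sub_self, pow_zero, Nat.div_one]
      exact RT.Anc.refl _ _
    · have hm := ln_mono r b (show d ≤ d + 1 by omega)
      have hm' := ln_mono r b hd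
      have h5 : a / 2 ^ (ln r b (d + 1) - ln r b d) < 2 ^ ln r b d := by
        rw [Nat.div_lt_iff_lt_mul (by positivity), ← pow_add]
        rwa [Nat.add_sub_cancel' hm]
      have h6 := ih (by omega) h5 hd
      rw [Nat.div_div_eq_div_mul, ← pow_add] at h6
      rw [show ln r b (d + 1) - ln r b d' = ln r b (d + 1) - ln r b d + (ln r b d - ln r b d') by
        omega]
      refine h6.trans ?_
      rw [← mv_par φ r w]
      refine RT.anc_par (mv_mem φ r w h1 h2 h3) ?_
      rw [mv_pos (by omega)]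
      intro h
      have := congrArg (fun l : Lb => l.2.1) h
      simp only at this
      have h7 : (Lab φ r w).root.2.1 = 0 := rfl
      omega

theorem gad_anc_main {b d a t h x : ℕ} (hh : 1 ≤ h) (hv : Ok φ r w (b, d, a, t, h, x)) :
    (Lab φ r w).Anc (mv b d a) (b, d, a, t, h, x) := by
  induction h generalizing x with
  | zero => omega
  | succ h ih =>
    have hne : ((b, d, a, t, h + 1, x) : Lb) ≠ (Lab φ r w).root := by
      intro h'
      have := congrArg (fun l : Lb => l.2.2.2.2.1) h'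
      simp only at this
      have h7 : (Lab φ r w).root.2.2.2.2.1 = 0 := rfl
      omega
    have hp := (Lab φ r w).par_mem _ hv hne
    have ha := RT.anc_par (T := Lab φ r w) hv hne
    have hv' := (ok_gad φ r w hh).1 hv
    rcases Nat.eq_zero_or_pos h with rfl | h0
    · have : (Lab φ r w).par (b, d, a, t, 0 + 1, x) = mv b d a := by
        rw [Lab_par, mv_pos hv'.2.1]
        simp [pr]
      rwa [this] at ha
    · have : (Lab φ r w).par (b, d, a, t, h + 1, x) = (b, d, a, t, h, 0) := by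
        rw [Lab_par]
        simp only [pr, Nat.add_sub_cancel]
        rw [if_neg (by omega), if_neg (by omega)]
      rw [this] at ha hp
      exact (ih h0 hp).trans ha

theorem gad_anc_gad {b d a t h x : ℕ} (hv : Ok φ r w (b, d, a, t, h, x)) {h' : ℕ}
    (h1 : 1 ≤ h') (h2 : h' < h) : (Lab φ r w).Anc (b, d, a, t, h', 0) (b, d, a, t, h, x) := by
  induction h generalizing x with
  | zero => omega
  | succ h ih =>
    have hne : ((b, d, a, t, h + 1, x) : Lb) ≠ (Lab φ r w).root := by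
      intro h'
      have := congrArg (fun l : Lb => l.2.2.2.2.1) h'
      simp only at this
      have h7 : (Lab φ r w).root.2.2.2.2.1 = 0 := rfl
      omega
    have hp := (Lab φ r w).par_mem _ hv hne
    have ha := RT.anc_par (T := Lab φ r w) hv hne
    have : (Lab φ r w).par (b, d, a, t, h + 1, x) = (b, d, a, t, h, 0) := by
      rw [Lab_par]
      simp only [pr, Nat.add_sub_cancel]
      rw [if_neg (by omega), if_neg (by omega)]
    rw [this] at ha hp
    rcases Nat.lt_or_ge h' h with h3 | h3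
    · exact (ih hp h3).trans ha
    · have : h' = h := by omega
      subst this
      exact ha

end Pool.Agent.K9h83.FF
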