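import Pool.Agent.K9h83.FF.Fire
import Pool.Agent.K9h83.FF.Compl

/-!
# Numbering the vertices
-/

set_option autoImplicit false

namespace Pool.Agent.K9h83.FF

open Pool.Agent.NPC

theorem getD_of_lt {V : Type} {L : List V} {i : ℕ} (h : i < L.length) (x : V) :
    L.getD i x = L[i] := by
  rw [List.getD_eq_getElem?_getD, List.getElem?_eq_getElem h, Option.getD_some]

theorem getD_index {V : Type} {L : List V} {v : V} (h : v ∈ L) (x : V) :
    L.getD (index L v) x = v := by
  rw [List.getD_eq_getElem?_getD, getElem?_index h, Option.getD_some]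

theorem numbering {V : Type} (U : RT V) (tl : List V) (hnd : (U.root :: tl).Nodup)
    (hmem : ∀ v, v ∈ U.root :: tl ↔ v ∈ U.S)
    (hsort : (U.root :: tl).Pairwise (fun x y => U.dep x ≤ U.dep y)) :
    ∃ hp : IsTree (tl.map fun v => index (U.root :: tl) (U.par v)),
      Iso (Tp _ hp) U (fun i => (U.root :: tl).getD i U.root) := by
  set p := tl.map fun v => index (U.root :: tl) (U.par v) with hpdef
  have hlen : p.length = tl.length := by simp [hpdef]
  have hroot : U.root ∉ tl := (List.nodup_cons.1 hnd).1
  have hget : ∀ i (hi : i < tl.length), p.getD i 0 = index (U.root :: tl) (U.par tl[i]) := by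
    intro i hi
    rw [getD_of_lt (by rwa [hlen])]
    simp [hpdef]
  have htree : IsTree p := by
    intro i hi
    rw [hlen] at hi
    rw [hget i hi]
    have hv : tl[i] ∈ U.S := (hmem _).1 (List.mem_cons_of_mem _ (List.getElem_mem hi))
    have hne : tl[i] ≠ U.root := fun h => hroot (h ▸ List.getElem_mem hi)
    have hp := (hmem _).2 (U.par_mem _ hv hne)
    have hd := U.dep_par _ hv hne
    by_contra hc
    have hk := index_lt hp
    have h1 := List.pairwise_iff_getElem.1 hsort (i + 1) (index (U.root :: tl) (U.par tl[i]))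
      (by simpa using hi) hk
    have h2 : (U.root :: tl)[index (U.root :: tl) (U.par tl[i])] = U.par tl[i] := by
      have := getElem?_index hp
      rw [List.getElem?_eq_getElem hk] at this
      simpa using this
    rcases Nat.lt_or_ge (i + 1) (index (U.root :: tl) (U.par tl[i])) with h3 | h3
    · have h4 := h1 h3
      rw [h2, List.getElem_cons_succ] at h4
      omega
    · have h5 : index (U.root :: tl) (U.par tl[i]) = i + 1 := by omega
      have h6 : (U.root :: tl)[i + 1]'(by simpa using hi) = U.par tl[i] := by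
        rw [← h2]
        congr 1
        exact h5.symm
      rw [List.getElem_cons_succ] at h6
      rw [← h6] at hd
      omega
  refine ⟨htree, ?_⟩
  have hL : (U.root :: tl).length = tl.length + 1 := rfl
  have hmem' : ∀ v, v ≤ p.length → (U.root :: tl).getD v U.root ∈ U.S := by
    intro v hv
    rw [getD_of_lt (by omega)]
    exact (hmem _).1 (List.getElem_mem _)
  have hroot' : (U.root :: tl).getD 0 U.root = U.root := rfl
  have hinj : Set.InjOn (fun i => (U.root :: tl).getD i U.root) (Tp p htree).S := by
    intro i hi j hj h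
    have hi' : i ≤ p.length := hi
    have hj' : j ≤ p.length := hj
    simp only at h
    rw [getD_of_lt (by omega), getD_of_lt (by omega)] at h
    exact (List.Nodup.getElem_inj_iff hnd).1 h
  have hpar : ∀ v ∈ (Tp p htree).S, v ≠ (Tp p htree).root →
      U.par ((U.root :: tl).getD v U.root) = (U.root :: tl).getD ((Tp p htree).par v) U.root := by
    intro v hv h0
    have hv' : v ≤ p.length := hv
    have h0' : v ≠ 0 := h0
    show _ = (U.root :: tl).getD (up p v) U.root
    rw [up, if_neg h0', hget (v - 1) (by omega)]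
    have hv1 : (U.root :: tl).getD v U.root = tl[v - 1]'(by omega) := by
      rw [getD_of_lt (by omega)]
      obtain ⟨w, rfl⟩ : ∃ w, v = w + 1 := ⟨v - 1, by omega⟩
      simp
    rw [hv1]
    have hvS : tl[v - 1]'(by omega) ∈ U.S :=
      (hmem _).1 (List.mem_cons_of_mem _ (List.getElem_mem _))
    have hne : tl[v - 1]'(by omega) ≠ U.root := fun h => hroot (h ▸ List.getElem_mem _)
    rw [getD_index ((hmem _).2 (U.par_mem _ hvS hne))]
  refine ⟨fun v hv => hmem' v hv, hinj, ?_, hroot', hpar, ?_⟩
  · intro w hw
    have h1 := (hmem w).2 hw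
    have h2 := index_lt h1
    refine ⟨index (U.root :: tl) w, ?_, getD_index h1 _⟩
    rw [mem_Tp]
    omega
  · intro v
    induction v using Nat.strong_induction_on with
    | _ v ih =>
      intro hv
      by_cases h0 : v = 0
      · subst h0
        rw [hroot', U.dep_root]
        exact (Tp p htree).dep_root.symm
      · have h1 : (Tp p htree).par v < v := up_lt htree hv h0
        have h2 := (Tp p htree).par_mem v hv h0
        have h3 := ih _ h1 h2
        have h4 := hpar v hv h0
        have h5 := (Tp p htree).dep_par v hv h0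
        have h6 : (U.root :: tl).getD v U.root ≠ U.root := by
          intro h
          exact h0 (hinj hv (Tp p htree).root_mem (h.trans hroot'.symm))
        have h7 := U.dep_par _ (hmem' v hv) h6
        rw [h7, h4, h3, h5]

section

variable (φ : F3) (r w P : ℕ)

instance (l : Lb) : Decidable (Ok φ r w l) := by
  unfold Ok
  infer_instance

/-- candidates for the labels -/
def cand : List Lb :=
  (List.range w) ×ˢ (List.range (Hh φ r w + 1)) ×ˢ (List.range P) ×ˢ (List.range 3) ×ˢ
    (List.range 5) ×ˢ (List.range (Wt φ r w))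

/-- the labels at the depth `e` -/
def lvl (e : ℕ) : List Lb :=
  (cand φ r w P).filter fun l => decide (Ok φ r w l ∧ l.2.1 + l.2.2.2.2.1 = e)

/-- all labels except the root -/
def tail : List Lb := (List.range (Hh φ r w + 1)).flatMap fun e => lvl φ r w P (e + 1)

theorem cand_nodup : (cand φ r w P).Nodup :=
  (List.nodup_range).product ((List.nodup_range).product ((List.nodup_range).product
    ((List.nodup_range).product ((List.nodup_range).product List.nodup_range))))

variable {φ r w P}

theorem ln_le {b d : ℕ} : ln r b d ≤ r := min_le_left _ _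

theorem gl_le {b d a t : ℕ} : gl φ r w b d a t ≤ 3 := by
  unfold gl
  split_ifs <;> omega

theorem mem_cand (hP : 2 ^ r ≤ P) {l : Lb} (h : Ok φ r w l) (hd : 1 ≤ l.2.1 + l.2.2.2.2.1) :
    l ∈ cand φ r w P := by
  obtain ⟨b, d, a, t, h', x⟩ := l
  rcases h with h | ⟨h1, h2, h3, h4, h5⟩
  · rw [h] at hd
    simp at hd
  · simp only at h1 h2 h3 h4 h5
    have h6 : 2 ^ ln r b d ≤ 2 ^ r := Nat.pow_le_pow_right (by omega) ln_le
    have hw : 2 ≤ Wt φ r w := by
      unfold Wt
      omega
    have h7 := gl_le (φ := φ) (r := r) (w := w) (b := b) (d := d) (a := a) (t := t)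
    have ht : t < 3 := by
      rcases h5 with h5 | h5
      · omega
      · by_contra hc
        have h8 := h5.2.1
        unfold gl at h8
        split_ifs at h8 with g1 g2 g3 <;> omega
    refine List.pair_mem_product.2 ⟨List.mem_range.2 h1, List.pair_mem_product.2
      ⟨List.mem_range.2 (by omega), List.pair_mem_product.2 ⟨List.mem_range.2 (by omega),
        List.pair_mem_product.2 ⟨List.mem_range.2 ht, List.pair_mem_product.2
          ⟨List.mem_range.2 (by omega), List.mem_range.2 (by omega)⟩⟩⟩⟩⟩

theorem ok_depth {l : Lb} (h : Ok φ r w l) : l.2.1 + l.2.2.2.2.1 ≤ Hh φ r w + 1 := by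
  obtain ⟨b, d, a, t, h', x⟩ := l
  rcases h with h | ⟨h1, h2, h3, h4, h5⟩
  · rw [h]
    simp
  · simp only at h1 h2 h3 h4 h5 ⊢
    have := gl_max (φ := φ) (r := r) (w := w) (b := b) (a := a) (t := t) h3
    omega

theorem mem_lvl (hP : 2 ^ r ≤ P) {l : Lb} {e : ℕ} (he : 1 ≤ e) :
    l ∈ lvl φ r w P e ↔ Ok φ r w l ∧ l.2.1 + l.2.2.2.2.1 = e := by
  unfold lvl
  rw [List.mem_filter, decide_eq_true_iff]
  constructor
  · exact fun h => h.2
  · exact fun h => ⟨mem_cand hP h.1 (by omega), h⟩

theorem mem_tail (hP : 2 ^ r ≤ P) {l : Lb} :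
    l ∈ tail φ r w P ↔ Ok φ r w l ∧ 1 ≤ l.2.1 + l.2.2.2.2.1 := by
  unfold tail
  rw [List.mem_flatMap]
  constructor
  · rintro ⟨e, _, h⟩
    rw [mem_lvl hP (by omega)] at h
    exact ⟨h.1, by omega⟩
  · rintro ⟨h1, h2⟩
    have := ok_depth h1
    refine ⟨l.2.1 + l.2.2.2.2.1 - 1, List.mem_range.2 (by omega), ?_⟩
    rw [mem_lvl hP (by omega)]
    exact ⟨h1, by omega⟩

theorem ls_mem (hP : 2 ^ r ≤ P) (l : Lb) :
    l ∈ (Lab φ r w).root :: tail φ r w P ↔ l ∈ (Lab φ r w).S := by
  rw [List.mem_cons, mem_tail hP]
  constructor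
  · rintro (rfl | h)
    · exact (Lab φ r w).root_mem
    · exact h.1
  · intro h
    by_cases h0 : l = (Lab φ r w).root
    · exact Or.inl h0
    · have := (Lab φ r w).dep_par l h h0
      rw [Lab_dep] at this
      exact Or.inr ⟨h, by omega⟩

theorem ls_nodup (hP : 2 ^ r ≤ P) : ((Lab φ r w).root :: tail φ r w P).Nodup := by
  rw [List.nodup_cons]
  constructor
  · intro h
    rw [mem_tail hP] at h
    have h1 := h.2
    rw [← Lab_dep φ r w, (Lab φ r w).dep_root] at h1
    omega
  · unfold tail
    rw [List.nodup_flatMap]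
    refine ⟨fun e _ => (cand_nodup φ r w P).filter _, ?_⟩
    refine List.Pairwise.imp ?_ (List.nodup_range (n := Hh φ r w + 1))
    intro a b hab x hx hy
    rw [mem_lvl hP (by omega)] at hx hy
    omega

theorem ls_sort (hP : 2 ^ r ≤ P) : ((Lab φ r w).root :: tail φ r w P).Pairwise
    (fun x y => (Lab φ r w).dep x ≤ (Lab φ r w).dep y) := by
  rw [List.pairwise_cons]
  constructor
  · intro x _
    rw [(Lab φ r w).dep_root]
    exact Nat.zero_le _
  · unfold tail
    rw [List.pairwise_flatMap]
    constructor
    · intro e _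
      refine List.pairwise_of_forall_mem_list ?_
      intro x hx y hy
      rw [mem_lvl hP (by omega)] at hx hy
      rw [Lab_dep, Lab_dep, hx.2, hy.2]
    · refine List.Pairwise.imp ?_ (List.pairwise_lt_range (n := Hh φ r w + 1))
      intro a b hab x hx y hy
      rw [mem_lvl hP (by omega)] at hx hy
      rw [Lab_dep, Lab_dep, hx.2, hy.2]
      omega

variable (φ r w P) in
/-- the parent list of the tree -/
noncomputable def pl : List ℕ :=
  (tail φ r w P).map fun l => index ((0, 0, 0, 0, 0, 0) :: tail φ r w P) (pr r l)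

theorem fin_S (hP : 2 ^ r ≤ P) : (Lab φ r w).S.Finite := by
  refine ((List.finite_toSet ((Lab φ r w).root :: tail φ r w P))).subset fun l hl => ?_
  exact (ls_mem hP l).2 hl

theorem pl_iso (hP : 2 ^ r ≤ P) : ∃ hp : IsTree (pl φ r w P),
    Iso (Tp _ hp) (Lab φ r w)
      (fun i => ((Lab φ r w).root :: tail φ r w P).getD i (Lab φ r w).root) :=
  numbering (Lab φ r w) (tail φ r w P) (ls_nodup hP) (ls_mem hP) (ls_sort hP)

/-- The reduction. -/
theorem reduction (hr : 1 ≤ r) (hw : 1 ≤ w) (hP : 2 ^ r ≤ P)
    (hv : ∀ j < φ.length, ∀ t < 3, (slot (cl φ j) t).2 / r < w) :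
    IsTree (pl φ r w P) ∧ (SavingAllBut (pl φ r w P) (Bb φ r w) ↔ SAT3 φ) ∧
    (Protection (pl φ r w P) (Hh φ r w) ((pl φ r w P).length + 1 - Bb φ r w) ↔ SAT3 φ) := by
  obtain ⟨hp, hiso⟩ := pl_iso (φ := φ) (w := w) hP
  refine ⟨hp, ?_, ?_⟩
  · rw [savingAllBut_iff hp]
    constructor
    · rintro ⟨L, h⟩
      exact sound hr hw (fin_S hP) hv ((hiso.win _ _).1 h)
    · intro h
      exact ⟨_, (hiso.win _ _).2 (complete hr hw hv h)⟩
  · have hBn : Bb φ r w ≤ (pl φ r w P).length + 1 := by
      have hlen : (pl φ r w P).length = (tail φ r w P).length := by simp [pl]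
      have h3 : 2 * w * r = 2 * (w * r) := by ring
      have h4 : 0 < w * r := Nat.mul_pos (by omega) (by omega)
      have hg : gl φ r w 0 1 0 0 = 1 := by
        unfold gl
        rw [if_pos (by omega), if_pos]
        exact ⟨rfl, by simp, rfl⟩
      have hH : 1 ≤ Hh φ r w := by
        unfold Hh
        omega
      have h1 : ∀ x < Wt φ r w, ((0, 1, 0, 0, 2, x) : Lb) ∈ tail φ r w P := by
        intro x hx
        rw [mem_tail hP]
        refine ⟨?_, by simp only; omega⟩
        rw [ok_gad φ r w (by omega), hg]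
        exact ⟨by omega, le_rfl, hH, by positivity, by omega, Or.inr ⟨rfl, hx⟩⟩
      have h2 : ((List.range (Wt φ r w)).map fun x => ((0, 1, 0, 0, 2, x) : Lb)).length ≤
          (tail φ r w P).length := by
        refine List.Subperm.length_le (List.subperm_of_subset ?_ ?_)
        · refine (List.nodup_range).map ?_
          intro x y hxy
          simpa using hxy
        · intro l hl
          rw [List.mem_map] at hl
          obtain ⟨x, hx, rfl⟩ := hl
          exact h1 x (List.mem_range.1 hx)
      rw [List.length_map, List.length_range] at h2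
      unfold Wt at h2
      omega
    rw [protection_iff hp _ _ hBn]
    constructor
    · intro h
      exact sound hr hw (fin_S hP) hv ((hiso.win _ _).1 h)
    · intro h
      exact (hiso.win _ _).2 (complete hr hw hv h)

end

end Pool.Agent.K9h83.FF
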