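import Pool.Agent.K9h83.FF.Numb
import Pool.Agent.K9h83.FF.Deps

/-!
# The reduction takes polynomial time
-/

set_option autoImplicit false

namespace Pool.Agent.K9h83.FF

open Pool.Agent.NPC

abbrev AI : Type := F3 × List Bool

/-- the block size -/
def rr (a : AI) : ℕ := a.2.length.bits.length + 1

/-- a bound for `2 ^ rr` -/
def PP (a : AI) : ℕ := 4 * a.2.length + 2

/-- the number of blocks -/
def ww (a : AI) : ℕ := ((List.range (PP a)).filter fun b => a.1.any fun C =>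
  decide (b * rr a ≤ C.1.2 ∨ b * rr a ≤ C.2.1.2 ∨ b * rr a ≤ C.2.2.2)).length + 1

theorem rrU : UPoly rr := by
  unfold rr
  refine UPoly.add (UPoly.length (NPC.Poly.natBits (NPC.Poly.length ?_))) (UPoly.const 1)
  fun_prop

theorem PPU : UPoly PP := by
  unfold PP
  exact UPoly.add (UPoly.mul (UPoly.const 4) (UPoly.length (NPC.Poly.snd NPC.Poly.id))) (UPoly.const 2)

theorem wwU : UPoly ww := by
  unfold ww
  refine UPoly.add (UPoly.length ?_) (UPoly.const 1)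
  have h1 : NPC.Poly (fun q : (AI × ℕ) × (Lit ℕ × Lit ℕ × Lit ℕ) => rr q.1.1) :=
    rrU.toPoly.comp (f := fun q : (AI × ℕ) × (Lit ℕ × Lit ℕ × Lit ℕ) => q.1.1) (by fun_prop)
  have h2 := PPU.range
  exact NPC.Poly.filter h2 (NPC.Poly.any (by fun_prop) (by fun_prop))

theorem HhU : UPoly (fun a : AI => Hh a.1 (rr a) (ww a)) := by
  unfold Hh
  exact UPoly.add (UPoly.mul (UPoly.mul (UPoly.const 2) wwU) rrU)
    (UPoly.mul (UPoly.const 3) (UPoly.length (NPC.Poly.fst NPC.Poly.id)))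

theorem BbU : UPoly (fun a : AI => Bb a.1 (rr a) (ww a)) := by
  unfold Bb
  exact UPoly.add (UPoly.add (UPoly.const 1) (UPoly.mul wwU HhU))
    (UPoly.mul (UPoly.const 3) (UPoly.length (NPC.Poly.fst NPC.Poly.id)))

theorem WtU : UPoly (fun a : AI => Wt a.1 (rr a) (ww a)) := by
  unfold Wt
  exact UPoly.add (UPoly.add BbU HhU) (UPoly.const 2)

/-- shifting -/
theorem poly_shr {α : Type} [TEnc α] {x i : α → ℕ} (hx : NPC.Poly x) (hi : UPoly i) :
    NPC.Poly (fun a => x a / 2 ^ i a) := by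
  obtain ⟨q, hq⟩ := hx.sz_le
  have key : ∀ k n : ℕ, (fun n => n / 2)^[k] n = n / 2 ^ k := by
    intro k
    induction k with
    | zero => intro n; simp
    | succ k ih =>
      intro n
      rw [Function.iterate_succ_apply, ih, Nat.div_div_eq_div_mul, ← pow_succ']
  refine (NPC.Poly.iterLen (s := x) (F := fun _ n => n / 2) hi.range hx (by fun_prop)
    (Polynomial.C 2 * q) ?_).congr fun a => ?_
  · intro a k _
    rw [key]
    have h1 := sz_nat_mono_le (Nat.div_le_self (x a) (2 ^ k))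
    have h2 := hq a
    simp only [Polynomial.eval_mul, Polynomial.eval_C]
    omega
  · rw [key, List.length_range]

theorem lt_pow_iff (a m : ℕ) : a < 2 ^ m ↔ a.bits.length ≤ m := by
  rw [Nat.size_eq_bits_len, Nat.size_le]

abbrev AL : Type := AI × Lb

theorem rrL : NPC.Poly (fun q : AL => rr q.1) := rrU.toPoly.comp (f := fun q : AL => q.1) (by fun_prop)
theorem wwL : NPC.Poly (fun q : AL => ww q.1) := wwU.toPoly.comp (f := fun q : AL => q.1) (by fun_prop)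
theorem HhL : NPC.Poly (fun q : AL => Hh q.1.1 (rr q.1) (ww q.1)) :=
  HhU.toPoly.comp (f := fun q : AL => q.1) (by fun_prop)
theorem WtL : NPC.Poly (fun q : AL => Wt q.1.1 (rr q.1) (ww q.1)) :=
  WtU.toPoly.comp (f := fun q : AL => q.1) (by fun_prop)

theorem ln_poly {α : Type} [TEnc α] {r b d : α → ℕ} (hr : NPC.Poly r) (hb : NPC.Poly b) (hd : NPC.Poly d) :
    NPC.Poly (fun a => ln (r a) (b a) (d a)) := by
  unfold ln
  fun_prop

theorem vl_poly {α : Type} [TEnc α] {r x v : α → ℕ} (hr : UPoly r) (hx : NPC.Poly x) (hv : NPC.Poly v) :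
    NPC.Poly (fun a => vl (r a) (x a) (v a)) := by
  have hr' := hr.toPoly
  have h1 : UPoly (fun a => r a - 1 - v a % r a) :=
    UPoly.of_le (by fun_prop) hr fun a => by omega
  have h2 := poly_shr hx h1
  have h3 : NPC.Poly (fun a => decide (x a / 2 ^ (r a - 1 - v a % r a) % 2 = 1)) :=
    NPC.Poly.dec_eq (NPC.Poly.mod h2 (NPC.Poly.const 2)) (NPC.Poly.const 1)
  refine h3.congr fun a => ?_
  unfold vl
  rw [Bool.eq_iff_iff, decide_eq_true_iff, beq_iff_eq]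

theorem slot_poly {α : Type} [TEnc α] {C : α → Lit ℕ × Lit ℕ × Lit ℕ} {t : α → ℕ} (hC : NPC.Poly C)
    (ht : NPC.Poly t) : NPC.Poly (fun a => slot (C a) (t a)) := by
  unfold slot
  fun_prop

theorem cl_poly {α : Type} [TEnc α] {φ : α → F3} {j : α → ℕ} (hφ : NPC.Poly φ) (hj : NPC.Poly j) :
    NPC.Poly (fun a => cl (φ a) (j a)) := by
  unfold cl
  exact NPC.Poly.getD hφ hj (NPC.Poly.const _)

theorem gl_poly : NPC.Poly (fun q : AL => gl q.1.1 (rr q.1) (ww q.1) q.2.1 q.2.2.1 q.2.2.2.1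
    q.2.2.2.2.1) := by
  have h1 := rrL
  have h2 := wwL
  have h3 : UPoly (fun q : AL => rr q.1) := rrU.comp (f := fun q : AL => q.1) (by fun_prop)
  have hj : NPC.Poly (fun q : AL => (q.2.2.1 - 2 * ww q.1 * rr q.1) / 3) := by fun_prop
  have hs : NPC.Poly (fun q : AL => slot (cl q.1.1 ((q.2.2.1 - 2 * ww q.1 * rr q.1) / 3))
    q.2.2.2.2.1) := slot_poly (cl_poly (by fun_prop) hj) (by fun_prop)
  have hv : NPC.Poly (fun q : AL => vl (rr q.1) q.2.2.2.1
    (slot (cl q.1.1 ((q.2.2.1 - 2 * ww q.1 * rr q.1) / 3)) q.2.2.2.2.1).2) :=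
    vl_poly h3 (by fun_prop) (NPC.Poly.snd hs)
  unfold gl
  refine NPC.Poly.ite (by fun_prop) (NPC.Poly.ite (by fun_prop) (NPC.Poly.const _) (NPC.Poly.const _))
    (NPC.Poly.ite ?_ (NPC.Poly.ite ?_ (NPC.Poly.const _) (NPC.Poly.const _)) (NPC.Poly.const _))
  · refine NPC.Poly.decide_and (by fun_prop) (NPC.Poly.decide_and (by fun_prop) (NPC.Poly.decide_and
      (by fun_prop) (NPC.Poly.dec_eq (NPC.Poly.div (NPC.Poly.snd hs) h1) (by fun_prop))))
  · exact NPC.Poly.dec_eq hv (NPC.Poly.fst hs)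

theorem ok_poly : NPC.Poly (fun q : AL => decide (Ok q.1.1 (rr q.1) (ww q.1) q.2)) := by
  have h1 := gl_poly
  have h2 := HhL
  have h3 := WtL
  have h4 := wwL
  have h5 : NPC.Poly (fun q : AL => ln (rr q.1) q.2.1 q.2.2.1) :=
    ln_poly rrL (by fun_prop) (by fun_prop)
  have h6 : NPC.Poly (fun q : AL => q.2.2.2.1.bits.length) :=
    NPC.Poly.length (NPC.Poly.natBits (by fun_prop))
  have key : NPC.Poly (fun q : AL => decide (q.2 = (0, 0, 0, 0, 0, 0) ∨
    (q.2.1 < ww q.1 ∧ 1 ≤ q.2.2.1 ∧ q.2.2.1 ≤ Hh q.1.1 (rr q.1) (ww q.1) ∧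
      q.2.2.2.1.bits.length ≤ ln (rr q.1) q.2.1 q.2.2.1 ∧
    ((q.2.2.2.2.1 = 0 ∧ q.2.2.2.2.2.1 = 0 ∧ q.2.2.2.2.2.2 = 0) ∨
     (1 ≤ q.2.2.2.2.2.1 ∧ 0 < gl q.1.1 (rr q.1) (ww q.1) q.2.1 q.2.2.1 q.2.2.2.1 q.2.2.2.2.1 ∧
       ((q.2.2.2.2.2.1 ≤ gl q.1.1 (rr q.1) (ww q.1) q.2.1 q.2.2.1 q.2.2.2.1 q.2.2.2.2.1 ∧
          q.2.2.2.2.2.2 = 0) ∨
        (q.2.2.2.2.2.1 = gl q.1.1 (rr q.1) (ww q.1) q.2.1 q.2.2.1 q.2.2.2.1 q.2.2.2.2.1 + 1 ∧
          q.2.2.2.2.2.2 < Wt q.1.1 (rr q.1) (ww q.1)))))))) := by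
    fun_prop
  refine key.congr fun q => ?_
  rw [decide_eq_decide, ← lt_pow_iff]
  exact Iff.rfl

theorem pr_poly : NPC.Poly (fun q : AL => pr (rr q.1) q.2) := by
  have h3 : UPoly (fun q : AL => rr q.1) := rrU.comp (f := fun q : AL => q.1) (by fun_prop)
  have h5 : NPC.Poly (fun q : AL => ln (rr q.1) q.2.1 q.2.2.1) :=
    ln_poly rrL (by fun_prop) (by fun_prop)
  have h6 : NPC.Poly (fun q : AL => ln (rr q.1) q.2.1 (q.2.2.1 - 1)) :=
    ln_poly rrL (by fun_prop) (by fun_prop)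
  have h7 : UPoly (fun q : AL => ln (rr q.1) q.2.1 q.2.2.1 - ln (rr q.1) q.2.1 (q.2.2.1 - 1)) :=
    UPoly.of_le (by fun_prop) h3 fun q => (Nat.sub_le _ _).trans ln_le
  have h8 : NPC.Poly (fun q : AL => q.2.2.2.1 /
    2 ^ (ln (rr q.1) q.2.1 q.2.2.1 - ln (rr q.1) q.2.1 (q.2.2.1 - 1))) :=
    poly_shr (by fun_prop) h7
  unfold pr
  fun_prop

theorem cand_poly : NPC.Poly (fun a : AI => cand a.1 (rr a) (ww a) (PP a)) := by
  unfold cand
  have h1 := wwU.range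
  have h2 := (UPoly.add HhU (UPoly.const 1)).range
  have h3 := PPU.range
  have h4 := WtU.range
  have h5 : NPC.Poly (fun _ : AI => List.range 3) := NPC.Poly.const _
  have h6 : NPC.Poly (fun _ : AI => List.range 5) := NPC.Poly.const _
  exact R671.poly_product h1 (R671.poly_product h2 (R671.poly_product h3 (R671.poly_product h5
    (R671.poly_product h6 h4))))

theorem tail_poly : NPC.Poly (fun a : AI => tail a.1 (rr a) (ww a) (PP a)) := by
  unfold tail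
  have h1 := (UPoly.add HhU (UPoly.const 1)).range
  refine NPC.Poly.flatMap h1 ?_
  unfold lvl
  have h2 : NPC.Poly (fun q : AI × ℕ => cand q.1.1 (rr q.1) (ww q.1) (PP q.1)) :=
    cand_poly.comp (f := fun q : AI × ℕ => q.1) (by fun_prop)
  refine NPC.Poly.filter h2 ?_
  have h3 : NPC.Poly (fun q : (AI × ℕ) × Lb => decide (Ok q.1.1.1 (rr q.1.1) (ww q.1.1) q.2)) :=
    ok_poly.comp (f := fun q : (AI × ℕ) × Lb => (q.1.1, q.2)) (by fun_prop)
  have h4 : NPC.Poly (fun q : (AI × ℕ) × Lb => decide (q.2.2.1 + q.2.2.2.2.2.1 = q.1.2 + 1)) := by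
    fun_prop
  exact NPC.Poly.decide_and h3 h4

theorem pl_poly : NPC.Poly (fun a : AI => pl a.1 (rr a) (ww a) (PP a)) := by
  unfold pl
  refine NPC.Poly.map tail_poly ?_
  have h1 : NPC.Poly (fun q : AI × Lb => tail q.1.1 (rr q.1) (ww q.1) (PP q.1)) :=
    tail_poly.comp (f := fun q : AI × Lb => q.1) (by fun_prop)
  exact NPC.Poly.index (NPC.Poly.cons (NPC.Poly.const _) h1) pr_poly

end Pool.Agent.K9h83.FF
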