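import Pool.Agent.K9h83.FF.StmA

/-!
# Saving `k` vertices: the combinatorial part
-/

set_option autoImplicit false

namespace Pool.Agent.K9h83.FF

open scoped Classical in
/-- the subtree below `v`, as a finset -/
noncomputable def sub (p : List ℕ) (hp : IsTree p) (v : ℕ) : Finset ℕ :=
  (Finset.range (p.length + 1)).filter fun u => (Tp p hp).Anc v u

/-- the vertices below the vertices of `X` -/
noncomputable def un (p : List ℕ) (hp : IsTree p) (X : Finset ℕ) : Finset ℕ :=
  X.biUnion (sub p hp)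

/-- a set of vertices which are not the root, with pairwise distinct depths -/
structure Good (p : List ℕ) (hp : IsTree p) (X : Finset ℕ) : Prop where
  le : ∀ x ∈ X, x ≤ p.length
  ne : ∀ x ∈ X, x ≠ 0
  inj : ∀ x ∈ X, ∀ y ∈ X, (Tp p hp).dep x = (Tp p hp).dep y → x = y

/-- no vertex of `X` is above another one -/
def Anti (p : List ℕ) (hp : IsTree p) (X : Finset ℕ) : Prop :=
  ∀ x ∈ X, ∀ y ∈ X, (Tp p hp).Anc x y → x = y

variable {p : List ℕ} {hp : IsTree p}

theorem mem_sub {v u : ℕ} : u ∈ sub p hp v ↔ u ≤ p.length ∧ (Tp p hp).Anc v u := by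
  simp [sub]

theorem mem_un {X : Finset ℕ} {u : ℕ} :
    u ∈ un p hp X ↔ u ≤ p.length ∧ ∃ x ∈ X, (Tp p hp).Anc x u := by
  simp only [un, Finset.mem_biUnion, mem_sub]
  constructor
  · rintro ⟨x, hx, h1, h2⟩
    exact ⟨h1, x, hx, h2⟩
  · rintro ⟨h1, x, hx, h2⟩
    exact ⟨x, hx, h1, h2⟩

theorem sz_eq (v : ℕ) : sz p hp v = (sub p hp v).card := by
  rw [sz, ← Set.ncard_coe_finset]
  congr 1
  ext u
  simp [mem_sub]

theorem dep_pos {v : ℕ} (hv : v ≤ p.length) (h0 : v ≠ 0) : 0 < (Tp p hp).dep v := by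
  have := (Tp p hp).dep_par v hv h0
  omega

theorem ne_zero_of_dep {v : ℕ} (h : 0 < (Tp p hp).dep v) : v ≠ 0 := by
  rintro rfl
  have h1 : (Tp p hp).dep 0 = 0 := (Tp p hp).dep_root
  omega

theorem saved_eq {σ : List ℕ} (hσ : (Tp p hp).Valid σ) :
    saved p σ = {v | v ≤ p.length ∧ ∃ a ∈ σ, (Tp p hp).Anc a v} := by
  ext v
  rw [saved, Set.mem_setOf_eq, burned_eq hp hσ]
  constructor
  · rintro ⟨h1, h2⟩
    refine ⟨h1, ?_⟩
    by_contra hc
    push Not at hc
    exact h2 ⟨h1, hc⟩
  · rintro ⟨h1, a, ha, h2⟩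
    exact ⟨h1, fun h => h.2 a ha h2⟩

theorem exists_good {σ : List ℕ} (hσ : (Tp p hp).Valid σ) :
    ∃ X, Good p hp X ∧ (saved p σ).ncard ≤ (un p hp X).card := by
  classical
  have h1 : ∀ i, ∃ a, ∀ hi : i < σ.length, i < (Tp p hp).dep σ[i] →
      (Tp p hp).Anc a σ[i] ∧ (Tp p hp).dep a = i + 1 := by
    intro i
    by_cases hi : ∃ hi : i < σ.length, i < (Tp p hp).dep σ[i]
    · obtain ⟨hi, hi'⟩ := hi
      obtain ⟨a, h2, h3⟩ := RT.exists_anc (hσ i hi).1 (j := i + 1) (by omega)
      exact ⟨a, fun _ _ => ⟨h2, h3⟩⟩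
    · exact ⟨0, fun h2 h3 => (hi ⟨h2, h3⟩).elim⟩
  choose f hf using h1
  refine ⟨((Finset.range σ.length).filter fun i => ∃ hi : i < σ.length,
    i < (Tp p hp).dep σ[i]).image f, ⟨?_, ?_, ?_⟩, ?_⟩
  · intro x hx
    simp only [Finset.mem_image, Finset.mem_filter, Finset.mem_range] at hx
    obtain ⟨i, ⟨_, hi, hi'⟩, rfl⟩ := hx
    exact (hf i hi hi').1.mem (hσ i hi).1
  · intro x hx
    simp only [Finset.mem_image, Finset.mem_filter, Finset.mem_range] at hx
    obtain ⟨i, ⟨_, hi, hi'⟩, rfl⟩ := hx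
    refine ne_zero_of_dep (hp := hp) ?_
    rw [(hf i hi hi').2]
    omega
  · intro x hx y hy hxy
    simp only [Finset.mem_image, Finset.mem_filter, Finset.mem_range] at hx hy
    obtain ⟨i, ⟨_, hi, hi'⟩, rfl⟩ := hx
    obtain ⟨j, ⟨_, hj, hj'⟩, rfl⟩ := hy
    rw [(hf i hi hi').2, (hf j hj hj').2] at hxy
    have : i = j := by omega
    rw [this]
  · rw [← Set.ncard_coe_finset]
    refine Set.ncard_le_ncard ?_ (Finset.finite_toSet _)
    intro v hv
    rw [saved_eq hσ] at hv
    obtain ⟨hv1, a₀, ha₀, hav₀⟩ := hv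
    -- the topmost protected ancestor
    have hex : ∃ d, ∃ a ∈ σ, (Tp p hp).Anc a v ∧ (Tp p hp).dep a = d :=
      ⟨_, a₀, ha₀, hav₀, rfl⟩
    obtain ⟨a, ha, hav, hd⟩ := Nat.find_spec hex
    have htop : ∀ a' ∈ σ, (Tp p hp).Anc a' a → a' = a := by
      intro a' ha' h2
      refine h2.eq_of_dep ?_
      rw [hd]
      exact Nat.find_min' hex ⟨a', ha', h2.trans hav, rfl⟩
    obtain ⟨i, hi, hia, hid⟩ := hσ.first ha htop
    have hi' : i < (Tp p hp).dep σ[i] := by rw [hia]; exact hid
    rw [Finset.mem_coe, mem_un]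
    refine ⟨hv1, f i, ?_, ?_⟩
    · simp only [Finset.mem_image, Finset.mem_filter, Finset.mem_range]
      exact ⟨i, ⟨hi, hi, hi'⟩, rfl⟩
    · refine (hf i hi hi').1.trans ?_
      rw [hia]
      exact hav

/-! ### The converse: a set of vertices with distinct depths can be protected -/

theorem lt_getElem_of_sorted {l : List ℕ} (hl : l.Pairwise (· < ·)) (h0 : ∀ x ∈ l, 0 < x) :
    ∀ t, ∀ h : t < l.length, t < l[t] := by
  intro t
  induction t with
  | zero => intro h; exact h0 _ (List.getElem_mem h)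
  | succ t ih =>
    intro h
    have h1 := ih (by omega)
    have h2 := List.pairwise_iff_getElem.1 hl t (t + 1) (by omega) h (by omega)
    omega

theorem exists_strategy {X : Finset ℕ} (hX : Good p hp X) :
    ∃ σ, Strategy p σ ∧ saved p σ = ↑(un p hp X) := by
  classical
  have h1 : ∀ d, ∃ x, d ∈ X.image (Tp p hp).dep → x ∈ X ∧ (Tp p hp).dep x = d := by
    intro d
    by_cases hd : d ∈ X.image (Tp p hp).dep
    · obtain ⟨x, hx, hxd⟩ := Finset.mem_image.1 hd
      exact ⟨x, fun _ => ⟨hx, hxd⟩⟩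
    · exact ⟨0, fun h => (hd h).elim⟩
  choose g hg using h1
  set l := (X.image (Tp p hp).dep).sort (· ≤ ·) with hl
  have hl1 : l.Pairwise (· < ·) := (Finset.sortedLT_sort _).pairwise
  have hml : ∀ d, d ∈ l ↔ d ∈ X.image (Tp p hp).dep := fun d => by rw [hl, Finset.mem_sort]
  have hl0 : ∀ d ∈ l, 0 < d := by
    intro d hd
    obtain ⟨x, hx, rfl⟩ := Finset.mem_image.1 ((hml d).1 hd)
    exact dep_pos (hX.le x hx) (hX.ne x hx)
  have hmem : ∀ x, x ∈ l.map g ↔ x ∈ X := by
    intro x
    rw [List.mem_map]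
    constructor
    · rintro ⟨d, hd, rfl⟩
      exact (hg d ((hml d).1 hd)).1
    · intro hx
      have hd : (Tp p hp).dep x ∈ X.image (Tp p hp).dep := Finset.mem_image_of_mem _ hx
      exact ⟨_, (hml _).2 hd, hX.inj _ (hg _ hd).1 _ hx (hg _ hd).2⟩
  have hval : (Tp p hp).Valid (l.map g) := by
    intro t ht
    have ht' : t < l.length := by simpa using ht
    rw [List.getElem_map]
    have h2 := hg l[t] ((hml _).1 (List.getElem_mem ht'))
    refine ⟨hX.le _ h2.1, Or.inl ?_⟩
    rw [h2.2]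
    exact lt_getElem_of_sorted hl1 hl0 t ht'
  refine ⟨l.map g, (strategy_iff hp _).2 hval, ?_⟩
  rw [saved_eq hval]
  ext v
  rw [Set.mem_setOf_eq, Finset.mem_coe, mem_un]
  simp only [hmem]

/-! ### The bound for the depth -/

theorem un_mono {X Y : Finset ℕ} (h : ∀ x ∈ X, x ≤ p.length → ∃ y ∈ Y, (Tp p hp).Anc y x) :
    un p hp X ⊆ un p hp Y := by
  intro v hv
  rw [mem_un] at hv ⊢
  obtain ⟨h1, x, hx, h2⟩ := hv
  obtain ⟨y, hy, h3⟩ := h x hx (h2.mem (T := Tp p hp) h1)
  exact ⟨h1, y, hy, h3.trans h2⟩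

theorem disj {x y : ℕ} (h : ¬ (Tp p hp).Anc x y) (h' : ¬ (Tp p hp).Anc y x) :
    Disjoint (sub p hp x) (sub p hp y) := by
  rw [Finset.disjoint_left]
  intro u hu hu'
  rw [mem_sub] at hu hu'
  rcases hu.2.total hu'.2 with h1 | h1
  · exact h h1
  · exact h' h1

theorem card_un {X : Finset ℕ} (hX : Anti p hp X) :
    (un p hp X).card = ∑ x ∈ X, sz p hp x := by
  rw [un, Finset.card_biUnion]
  · exact Finset.sum_congr rfl fun x _ => (sz_eq x).symm
  · intro x hx y hy hxy
    exact disj (fun h => hxy (hX x hx y hy h)) fun h => hxy (hX y hy x hx h).symm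

/-- `X` is good, of depth at most `m`, and there are at least `k` vertices below it -/
def Cov (p : List ℕ) (hp : IsTree p) (k m : ℕ) (X : Finset ℕ) : Prop :=
  Good p hp X ∧ (∀ x ∈ X, (Tp p hp).dep x ≤ m) ∧ k ≤ (un p hp X).card

theorem good_subset {X Y : Finset ℕ} (hX : Good p hp X) (h : Y ⊆ X) : Good p hp Y :=
  ⟨fun x hx => hX.le x (h hx), fun x hx => hX.ne x (h hx),
    fun x hx y hy => hX.inj x (h hx) y (h hy)⟩

theorem exists_min {k : ℕ} (hk : 0 < k) (h : ∃ X, Good p hp X ∧ k ≤ (un p hp X).card) :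
    ∃ m X, m * (m + 1) ≤ 2 * k ∧ 0 < m ∧ Cov p hp k m X ∧ Anti p hp X := by
  classical
  have hex : ∃ m X, Cov p hp k m X := by
    obtain ⟨X, h1, h2⟩ := h
    exact ⟨X.sup (Tp p hp).dep, X, h1, fun x hx => Finset.le_sup (f := (Tp p hp).dep) hx, h2⟩
  set m := Nat.find hex with hm
  have hm1 : ∃ X, Cov p hp k m X := Nat.find_spec hex
  have hm2 : ∀ m' < m, ∀ X, ¬ Cov p hp k m' X := fun m' h' X hX => Nat.find_min hex h' ⟨X, hX⟩
  have hex2 : ∃ c X, Cov p hp k m X ∧ X.card = c := by
    obtain ⟨X, hX⟩ := hm1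
    exact ⟨_, X, hX, rfl⟩
  obtain ⟨X, hX, hXc⟩ := Nat.find_spec hex2
  have hmin : ∀ Y, Cov p hp k m Y → X.card ≤ Y.card := fun Y hY => by
    rw [hXc]
    exact Nat.find_min' hex2 ⟨Y, hY, rfl⟩
  have herase : ∀ x ∈ X, (un p hp (X.erase x)).card < k := by
    intro x hx
    by_contra hc
    push Not at hc
    have h1 := hmin (X.erase x) ⟨good_subset hX.1 (Finset.erase_subset _ _),
      fun y hy => hX.2.1 y (Finset.mem_of_mem_erase hy), hc⟩
    have h2 := Finset.card_erase_lt_of_mem hx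
    omega
  have hanti : Anti p hp X := by
    intro x hx y hy hxy
    by_contra hne
    have h1 : un p hp X ⊆ un p hp (X.erase y) := by
      refine un_mono fun z hz _ => ?_
      by_cases hzy : z = y
      · subst hzy
        exact ⟨x, Finset.mem_erase.2 ⟨hne, hx⟩, hxy⟩
      · exact ⟨z, Finset.mem_erase.2 ⟨hzy, hz⟩, RT.Anc.refl _ z⟩
    have h2 := herase y hy
    have h3 := Finset.card_le_card h1
    have h4 := hX.2.2
    omega
  have hne : X.Nonempty := by
    rw [Finset.nonempty_iff_ne_empty]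
    rintro rfl
    have := hX.2.2
    simp [un] at this
    omega
  have hmpos : 0 < m := by
    obtain ⟨x, hx⟩ := hne
    exact (dep_pos (hX.1.le x hx) (hX.1.ne x hx)).trans_le (hX.2.1 x hx)
  -- the deepest vertex
  have hstar : ∃ x ∈ X, (Tp p hp).dep x = m := by
    by_contra hc
    push Not at hc
    refine hm2 (m - 1) (by omega) X ⟨hX.1, fun x hx => ?_, hX.2.2⟩
    have h1 := hc x hx
    have h2 := hX.2.1 x hx
    omega
  obtain ⟨s, hs, hsm⟩ := hstar
  have hsS : s ∈ (Tp p hp).S := hX.1.le s hs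
  have hw : ∀ j, ∃ w, j ≤ m → (Tp p hp).Anc w s ∧ (Tp p hp).dep w = j := by
    intro j
    by_cases hj : j ≤ m
    · obtain ⟨w, h1, h2⟩ := RT.exists_anc hsS (j := j) (by omega)
      exact ⟨w, fun _ => ⟨h1, h2⟩⟩
    · exact ⟨0, fun h => (hj h).elim⟩
  choose w hw using hw
  have hwle : ∀ j ≤ m, w j ≤ p.length := fun j hj => (hw j hj).1.mem (T := Tp p hp) hsS
  -- the set X with two vertices exchanged for w j is no cover
  have hexch : ∀ j, 0 < j → j < m → ∀ Y ⊆ X, s ∉ Y → (∀ y ∈ Y, (Tp p hp).dep y ≠ j) →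
      (un p hp (insert (w j) Y)).card < k := by
    intro j hj0 hjm Y hY hsY hYj
    by_contra hc
    push Not at hc
    have hwj := hw j hjm.le
    refine hm2 (m - 1) (by omega) (insert (w j) Y) ⟨⟨?_, ?_, ?_⟩, ?_, hc⟩
    · intro x hx
      rcases Finset.mem_insert.1 hx with rfl | hx
      · exact hwle j hjm.le
      · exact hX.1.le x (hY hx)
    · intro x hx
      rcases Finset.mem_insert.1 hx with rfl | hx
      · refine ne_zero_of_dep (hp := hp) ?_
        rw [hwj.2]
        exact hj0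
      · exact hX.1.ne x (hY hx)
    · intro x hx y hy hxy
      rcases Finset.mem_insert.1 hx with rfl | hx
      · rcases Finset.mem_insert.1 hy with rfl | hy
        · rfl
        · rw [hwj.2] at hxy
          exact (hYj y hy hxy.symm).elim
      · rcases Finset.mem_insert.1 hy with rfl | hy
        · rw [hwj.2] at hxy
          exact (hYj x hx hxy).elim
        · exact hX.1.inj x (hY hx) y (hY hy) hxy
    · intro x hx
      rcases Finset.mem_insert.1 hx with rfl | hx
      · rw [hwj.2]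
        omega
      · have h1 := hX.2.1 x (hY hx)
        have h2 : (Tp p hp).dep x ≠ m := by
          intro h
          have := hX.1.inj x (hY hx) s hs (h.trans hsm.symm)
          subst this
          exact hsY hx
        omega
  have hused : ∀ j, 0 < j → j < m → ∃ x ∈ X, (Tp p hp).dep x = j := by
    intro j hj0 hjm
    by_contra hc
    push Not at hc
    have h1 := hexch j hj0 hjm (X.erase s) (Finset.erase_subset _ _) (Finset.notMem_erase _ _)
      fun y hy => hc y (Finset.mem_of_mem_erase hy)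
    have h2 : un p hp X ⊆ un p hp (insert (w j) (X.erase s)) := by
      refine un_mono fun z hz _ => ?_
      by_cases hzs : z = s
      · subst hzs
        exact ⟨w j, Finset.mem_insert_self _ _, (hw j hjm.le).1⟩
      · exact ⟨z, Finset.mem_insert_of_mem (Finset.mem_erase.2 ⟨hzs, hz⟩), RT.Anc.refl _ z⟩
    have h3 := Finset.card_le_card h2
    have h4 := hX.2.2
    omega
  -- the sizes
  have hsize : ∀ x ∈ X, x ≠ s → m - (Tp p hp).dep x + 1 ≤ sz p hp x := by
    intro x hx hxs
    set j := (Tp p hp).dep x with hj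
    have hj0 : 0 < j := dep_pos (hX.1.le x hx) (hX.1.ne x hx)
    have hjm : j < m := by
      refine lt_of_le_of_ne (hX.2.1 x hx) fun h => hxs ?_
      exact hX.1.inj x hx s hs (h.trans hsm.symm)
    have h1 := hexch j hj0 hjm ((X.erase s).erase x)
      ((Finset.erase_subset _ _).trans (Finset.erase_subset _ _))
      (fun h => Finset.notMem_erase _ _ (Finset.mem_of_mem_erase h))
      (fun y hy h => by
        have hy1 := Finset.ne_of_mem_erase hy
        exact hy1 (hX.1.inj y (Finset.mem_of_mem_erase (Finset.mem_of_mem_erase hy)) x hx h))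
    -- the path
    set P := (Finset.Ico j m).image w with hP
    have hPcard : P.card = m - j := by
      rw [hP, Finset.card_image_of_injOn, Nat.card_Ico]
      intro a ha b hb hab
      have ha' := (Finset.mem_Ico.1 (Finset.mem_coe.1 ha))
      have hb' := (Finset.mem_Ico.1 (Finset.mem_coe.1 hb))
      have h2 := (hw a (by omega)).2
      have h3 := (hw b (by omega)).2
      rw [← h2, ← h3]
      exact congrArg _ hab
    have hPdisj : Disjoint P (un p hp X) := by
      rw [Finset.disjoint_left]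
      intro u hu hu'
      obtain ⟨i, hi, rfl⟩ := Finset.mem_image.1 hu
      have hi' := Finset.mem_Ico.1 hi
      obtain ⟨_, y, hy, hyu⟩ := mem_un.1 hu'
      have h2 := hw i (by omega)
      have h3 := hanti y hy s hs (hyu.trans h2.1)
      subst h3
      have h4 := hyu.dep_le
      omega
    have hsub : (un p hp X \ sub p hp x) ∪ P ⊆ un p hp (insert (w j) ((X.erase s).erase x)) := by
      intro u hu
      rw [Finset.mem_union] at hu
      rw [mem_un]
      rcases hu with hu | hu
      · rw [Finset.mem_sdiff] at hu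
        obtain ⟨hu1, y, hy, hyu⟩ := mem_un.1 hu.1
        refine ⟨hu1, ?_⟩
        by_cases hys : y = s
        · subst hys
          exact ⟨w j, Finset.mem_insert_self _ _, (hw j hjm.le).1.trans hyu⟩
        · refine ⟨y, Finset.mem_insert_of_mem (Finset.mem_erase.2 ⟨?_,
            Finset.mem_erase.2 ⟨hys, hy⟩⟩), hyu⟩
          rintro rfl
          exact hu.2 (mem_sub.2 ⟨hu1, hyu⟩)
      · obtain ⟨i, hi, rfl⟩ := Finset.mem_image.1 hu
        have hi' := Finset.mem_Ico.1 hi
        refine ⟨hwle i (by omega), w j, Finset.mem_insert_self _ _, ?_⟩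
        rcases (hw j hjm.le).1.total (hw i (by omega)).1 with h2 | h2
        · exact h2
        · have h3 := h2.eq_of_dep (by rw [(hw j hjm.le).2, (hw i (by omega)).2]; omega)
          rw [h3]
          exact RT.Anc.refl _ _
    have h2 := Finset.card_le_card hsub
    rw [Finset.card_union_of_disjoint (by
      rw [Finset.disjoint_left]
      intro u hu hu'
      exact (Finset.disjoint_left.1 hPdisj) hu' (Finset.mem_sdiff.1 hu).1), hPcard] at h2
    have h3 : (un p hp X).card ≤ (un p hp X \ sub p hp x).card + (sub p hp x).card := by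
      have := Finset.le_card_sdiff (sub p hp x) (un p hp X)
      omega
    have h4 := hX.2.2
    rw [sz_eq]
    omega
  refine ⟨m, X, ?_, hmpos, hX, hanti⟩
  -- the sum
  have h1 := herase s hs
  rw [card_un fun x hx y hy => hanti x (Finset.mem_of_mem_erase hx) y
    (Finset.mem_of_mem_erase hy)] at h1
  have himg : Finset.Ico 1 m ⊆ (X.erase s).image (Tp p hp).dep := by
    intro j hj
    have hj' := Finset.mem_Ico.1 hj
    obtain ⟨x, hx, hxj⟩ := hused j hj'.1 hj'.2
    refine Finset.mem_image.2 ⟨x, Finset.mem_erase.2 ⟨?_, hx⟩, hxj⟩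
    rintro rfl
    omega
  have h2 : ∑ j ∈ Finset.Ico 1 m, (m - j + 1) ≤ ∑ x ∈ X.erase s, sz p hp x := by
    calc ∑ j ∈ Finset.Ico 1 m, (m - j + 1)
        ≤ ∑ j ∈ (X.erase s).image (Tp p hp).dep, (m - j + 1) :=
          Finset.sum_le_sum_of_subset himg
      _ = ∑ x ∈ X.erase s, (m - (Tp p hp).dep x + 1) := by
          rw [Finset.sum_image]
          intro x hx y hy hxy
          exact hX.1.inj x (Finset.mem_of_mem_erase hx) y (Finset.mem_of_mem_erase hy) hxy
      _ ≤ ∑ x ∈ X.erase s, sz p hp x :=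
          Finset.sum_le_sum fun x hx => hsize x (Finset.mem_of_mem_erase hx)
            (Finset.ne_of_mem_erase hx)
  have h3 : ∀ n : ℕ, 2 * ∑ j ∈ Finset.Ico 1 (n + 1), (n + 1 - j + 1) + 2 = (n + 1) * (n + 2) := by
    intro n
    have h4 : ∑ j ∈ Finset.Ico 1 (n + 1), (n + 1 - j + 1) = ∑ i ∈ Finset.range n, (i + 2) := by
      rw [Finset.sum_Ico_eq_sum_range, ← Finset.sum_range_reflect]
      refine Finset.sum_congr (by rw [Nat.add_sub_cancel]) fun i hi => ?_
      have := Finset.mem_range.1 hi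
      omega
    rw [h4]
    clear h4
    induction n with
    | zero => simp
    | succ n ih =>
      rw [Finset.sum_range_succ]
      have h5 : (n + 1 + 1) * (n + 1 + 2) = (n + 1) * (n + 2) + 2 * (n + 2) := by ring
      omega
  obtain ⟨n, hn⟩ : ∃ n, m = n + 1 := ⟨m - 1, by omega⟩
  rw [hn] at h2 ⊢
  have h4 := h3 n
  have h5 : (n + 1) * (n + 1 + 1) = (n + 1) * (n + 2) := rfl
  rw [h5, ← h4]
  omega

/-! ### The ranks -/

/-- `u` comes before `v` in the order of the ranks -/
def Bef (p : List ℕ) (hp : IsTree p) (u v : ℕ) : Prop :=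
  sz p hp v < sz p hp u ∨ (sz p hp u = sz p hp v ∧ u < v)

theorem rk_lt {u v : ℕ} (hu : u ≤ p.length) (hd : (Tp p hp).dep u = (Tp p hp).dep v)
    (h : Bef p hp u v) : rk p hp u < rk p hp v := by
  refine Set.ncard_lt_ncard ?_ ((Set.finite_Iic p.length).subset fun _ h => h.1)
  rw [Set.ssubset_iff_of_subset]
  · refine ⟨u, ⟨hu, hd, h⟩, ?_⟩
    rintro ⟨_, _, h1⟩
    rcases h1 with h1 | h1 <;> omega
  · rintro w ⟨h1, h2, h3⟩
    refine ⟨h1, h2.trans hd, ?_⟩
    rcases h with h | h <;> rcases h3 with h3 | h3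
    · left; omega
    · left; omega
    · left; omega
    · right; omega

theorem rk_inj {u v : ℕ} (hu : u ≤ p.length) (hv : v ≤ p.length)
    (hd : (Tp p hp).dep u = (Tp p hp).dep v) (h : rk p hp u = rk p hp v) : u = v := by
  by_contra hne
  have h1 : Bef p hp u v ∨ Bef p hp v u := by
    unfold Bef
    omega
  rcases h1 with h1 | h1
  · exact (rk_lt hu hd h1).ne h
  · exact (rk_lt hv hd.symm h1).ne h.symm

/-- few vertices of a given depth are comparable with `x` -/
theorem card_comparable {x : ℕ} (hx : x ≤ p.length) (j : ℕ) (Y : Finset ℕ)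
    (hY : ∀ u ∈ Y, u ≤ p.length ∧ (Tp p hp).dep u = j ∧
      ((Tp p hp).Anc x u ∨ (Tp p hp).Anc u x)) : Y.card ≤ sz p hp x := by
  by_cases hj : (Tp p hp).dep x ≤ j
  · rw [sz_eq]
    refine Finset.card_le_card fun u hu => ?_
    obtain ⟨h1, h2, h3⟩ := hY u hu
    rw [mem_sub]
    refine ⟨h1, ?_⟩
    rcases h3 with h3 | h3
    · exact h3
    · have h4 := h3.eq_of_dep (by omega)
      subst h4
      exact RT.Anc.refl _ _
  · have h1 : Y.card ≤ 1 := by
      rw [Finset.card_le_one]
      intro a ha b hb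
      obtain ⟨ha1, ha2, ha3⟩ := hY a ha
      obtain ⟨hb1, hb2, hb3⟩ := hY b hb
      have ha4 : (Tp p hp).Anc a x := by
        rcases ha3 with h | h
        · have := h.dep_le
          omega
        · exact h
      have hb4 : (Tp p hp).Anc b x := by
        rcases hb3 with h | h
        · have := h.dep_le
          omega
        · exact h
      rcases ha4.total hb4 with h | h
      · exact h.eq_of_dep (by omega)
      · exact (h.eq_of_dep (by omega)).symm
    have h2 : 1 ≤ sz p hp x := by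
      rw [sz_eq, Nat.succ_le_iff, Finset.card_pos]
      exact ⟨x, mem_sub.2 ⟨hx, RT.Anc.refl _ _⟩⟩
    omega

theorem exists_small_rank {k m : ℕ} (hmk : m ≤ k)
    (hsz : ∀ v ≤ p.length, v ≠ 0 → sz p hp v < k)
    (h : ∃ X, Cov p hp k m X ∧ Anti p hp X) :
    ∃ X, Cov p hp k m X ∧ ∀ x ∈ X, rk p hp x < (k + 1) ^ 2 := by
  classical
  have hex : ∃ c X, (Cov p hp k m X ∧ Anti p hp X) ∧ ∑ x ∈ X, rk p hp x = c := by
    obtain ⟨X, hX⟩ := h
    exact ⟨_, X, hX, rfl⟩
  obtain ⟨X, ⟨hX, hanti⟩, hXc⟩ := Nat.find_spec hex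
  have hmin : ∀ Y, Cov p hp k m Y → Anti p hp Y →
      ∑ x ∈ X, rk p hp x ≤ ∑ x ∈ Y, rk p hp x := fun Y hY hY' => by
    rw [hXc]
    exact Nat.find_min' hex ⟨Y, ⟨hY, hY'⟩, rfl⟩
  refine ⟨X, hX, fun x hx => ?_⟩
  by_contra hc
  push Not at hc
  -- the vertices of the same depth which come before `x`
  set B := (Finset.range (p.length + 1)).filter fun u =>
    (Tp p hp).dep u = (Tp p hp).dep x ∧ Bef p hp u x with hB
  have hBcard : B.card = rk p hp x := by
    rw [rk, ← Set.ncard_coe_finset]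
    congr 1
    ext u
    rw [Finset.mem_coe, hB, Finset.mem_filter, Finset.mem_range]
    unfold Bef
    rw [Set.mem_setOf_eq, Nat.lt_succ_iff]
  have hXcard : X.card ≤ m := by
    have h1 : X.image (Tp p hp).dep ⊆ Finset.Ico 1 (m + 1) := by
      intro d hd
      obtain ⟨y, hy, rfl⟩ := Finset.mem_image.1 hd
      have h2 := hX.2.1 y hy
      have h3 := dep_pos (hp := hp) (hX.1.le y hy) (hX.1.ne y hy)
      exact Finset.mem_Ico.2 ⟨h3, by omega⟩
    have h2 := Finset.card_le_card h1
    rw [Finset.card_image_of_injOn (fun a ha b hb hab =>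
      hX.1.inj a ha b hb hab), Nat.card_Ico] at h2
    omega
  -- some vertex of `B` is not comparable with the others
  have hy : ∃ y ∈ B, ∀ z ∈ X, z ≠ x → ¬ (Tp p hp).Anc z y ∧ ¬ (Tp p hp).Anc y z := by
    by_contra hno
    push Not at hno
    have h1 : B ⊆ (X.erase x).biUnion fun z => B.filter fun u =>
        (Tp p hp).Anc z u ∨ (Tp p hp).Anc u z := by
      intro u hu
      obtain ⟨z, hz, hzx, h2⟩ := hno u hu
      refine Finset.mem_biUnion.2 ⟨z, Finset.mem_erase.2 ⟨hzx, hz⟩, ?_⟩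
      rw [Finset.mem_filter]
      refine ⟨hu, ?_⟩
      by_cases h3 : (Tp p hp).Anc z u
      · exact Or.inl h3
      · exact Or.inr (h2 h3)
    have h2 : B.card ≤ (X.erase x).card * k := by
      refine (Finset.card_le_card h1).trans (Finset.card_biUnion_le_card_mul _ _ _ ?_)
      intro z hz
      have hz' := Finset.mem_of_mem_erase hz
      have h3 := hsz z (hX.1.le z hz') (hX.1.ne z hz')
      refine (card_comparable (hp := hp) (hX.1.le z hz') ((Tp p hp).dep x) _ ?_).trans h3.le
      intro u hu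
      rw [Finset.mem_filter, hB, Finset.mem_filter, Finset.mem_range] at hu
      exact ⟨by omega, hu.1.2.1, hu.2⟩
    have h3 : (X.erase x).card ≤ k := by
      have := Finset.card_erase_lt_of_mem hx
      omega
    have h4 : (X.erase x).card * k ≤ k * k := Nat.mul_le_mul_right _ h3
    have h5 : (k + 1) ^ 2 = k * k + 2 * k + 1 := by ring
    omega
  obtain ⟨y, hyB, hyc⟩ := hy
  rw [hB, Finset.mem_filter, Finset.mem_range] at hyB
  obtain ⟨hy1, hy2, hy3⟩ := hyB
  have hyX : y ∉ X.erase x := by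
    intro h
    have h1 := hX.1.inj y (Finset.mem_of_mem_erase h) x hx hy2
    exact Finset.ne_of_mem_erase h h1
  have hxX : x ∉ X.erase x := Finset.notMem_erase _ _
  have hins : insert x (X.erase x) = X := Finset.insert_erase hx
  have hanti' : Anti p hp (insert y (X.erase x)) := by
    intro a ha b hb hab
    rcases Finset.mem_insert.1 ha with rfl | ha'
    · rcases Finset.mem_insert.1 hb with rfl | hb
      · rfl
      · exact ((hyc b (Finset.mem_of_mem_erase hb) (Finset.ne_of_mem_erase hb)).2 hab).elim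
    · rcases Finset.mem_insert.1 hb with rfl | hb
      · exact ((hyc a (Finset.mem_of_mem_erase ha') (Finset.ne_of_mem_erase ha')).1 hab).elim
      · exact hanti a (Finset.mem_of_mem_erase ha') b (Finset.mem_of_mem_erase hb) hab
  have hcov' : Cov p hp k m (insert y (X.erase x)) := by
    refine ⟨⟨?_, ?_, ?_⟩, ?_, ?_⟩
    · intro a ha
      rcases Finset.mem_insert.1 ha with rfl | ha
      · omega
      · exact hX.1.le a (Finset.mem_of_mem_erase ha)
    · intro a ha
      rcases Finset.mem_insert.1 ha with rfl | ha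
      · refine ne_zero_of_dep (hp := hp) ?_
        rw [hy2]
        exact dep_pos (hX.1.le x hx) (hX.1.ne x hx)
      · exact hX.1.ne a (Finset.mem_of_mem_erase ha)
    · intro a ha b hb hab
      rcases Finset.mem_insert.1 ha with rfl | ha'
      · rcases Finset.mem_insert.1 hb with rfl | hb
        · rfl
        · exact (Finset.ne_of_mem_erase hb (hX.1.inj b (Finset.mem_of_mem_erase hb) x hx
            (hab.symm.trans hy2))).elim
      · rcases Finset.mem_insert.1 hb with rfl | hb
        · exact (Finset.ne_of_mem_erase ha' (hX.1.inj a (Finset.mem_of_mem_erase ha') x hx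
            (hab.trans hy2))).elim
        · exact hX.1.inj a (Finset.mem_of_mem_erase ha') b (Finset.mem_of_mem_erase hb) hab
    · intro a ha
      rcases Finset.mem_insert.1 ha with rfl | ha
      · rw [hy2]
        exact hX.2.1 x hx
      · exact hX.2.1 a (Finset.mem_of_mem_erase ha)
    · rw [card_un hanti', Finset.sum_insert hyX]
      have h1 := hX.2.2
      rw [card_un hanti, ← hins, Finset.sum_insert hxX] at h1
      have h2 : sz p hp x ≤ sz p hp y := by
        rcases hy3 with h | h <;> omega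
      omega
  have h1 := hmin _ hcov' hanti'
  rw [Finset.sum_insert hyX] at h1
  have h2 : ∑ z ∈ X, rk p hp z = rk p hp x + ∑ z ∈ X.erase x, rk p hp z := by
    conv_lhs => rw [← hins]
    rw [Finset.sum_insert hxX]
  have h3 := rk_lt (hp := hp) (u := y) (v := x) (by omega) hy2 hy3
  omega

/-! ### The code -/

theorem digits (b : ℕ) (d : ℕ → ℕ) (hd : ∀ j, d j < b) :
    ∀ m, ∃ c < b ^ m, ∀ j < m, c / b ^ j % b = d j := by
  have hb : 0 < b := (Nat.zero_le _).trans_lt (hd 0)
  intro m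
  induction m with
  | zero => exact ⟨0, by simp, fun j hj => (Nat.not_lt_zero _ hj).elim⟩
  | succ m ih =>
    obtain ⟨c, hc, hj⟩ := ih
    refine ⟨c + b ^ m * d m, ?_, fun j hjm => ?_⟩
    · have h1 : b ^ m * (d m + 1) ≤ b ^ m * b := Nat.mul_le_mul_left _ (hd m)
      rw [pow_succ]
      rw [Nat.mul_add, Nat.mul_one] at h1
      omega
    · rcases Nat.lt_succ_iff_lt_or_eq.1 hjm with h | rfl
      · obtain ⟨e, rfl⟩ : ∃ e, m = j + (e + 1) := ⟨m - j - 1, by omega⟩
        have h1 : c + b ^ (j + (e + 1)) * d (j + (e + 1)) =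
            c + b ^ j * (b * (b ^ e * d (j + (e + 1)))) := by
          rw [pow_add, pow_succ]
          ring
        rw [h1, Nat.add_mul_div_left _ _ (Nat.pow_pos hb), Nat.add_mul_mod_self_left]
        exact hj j (by omega)
      · rw [Nat.add_mul_div_left _ _ (Nat.pow_pos hb), Nat.div_eq_of_lt hc, Nat.zero_add]
        exact Nat.mod_eq_of_lt (hd _)

theorem pow_le_gSave {k m : ℕ} (hm : m * (m + 1) ≤ 2 * k) :
    ((k + 1) ^ 2) ^ (m + 1) ≤ 2 ^ gSave k := by
  have h1 : m ≤ Nat.sqrt (2 * k) := by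
    rw [Nat.le_sqrt]
    nlinarith
  have h2 : k + 1 ≤ 2 ^ (Nat.log 2 (k + 1) + 1) := (Nat.lt_pow_succ_log_self (by norm_num) _).le
  calc ((k + 1) ^ 2) ^ (m + 1) ≤ ((2 ^ (Nat.log 2 (k + 1) + 1)) ^ 2) ^ (m + 1) :=
        Nat.pow_le_pow_left (Nat.pow_le_pow_left h2 _) _
    _ = 2 ^ (2 * (m + 1) * (Nat.log 2 (k + 1) + 1)) := by
        rw [← pow_mul, ← pow_mul]
        congr 1
        ring
    _ ≤ 2 ^ gSave k := by
        refine Nat.pow_le_pow_right (by norm_num) ?_
        unfold gSave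
        refine Nat.mul_le_mul_right _ ?_
        omega

/-- The combinatorial part of the algorithm for Saving `k` vertices -/
theorem save_math : S_A1 := by
  classical
  intro p hp k T hT
  have hT0 : 0 < T := (Nat.pow_pos (by norm_num)).trans_le hT
  constructor
  · rintro ⟨σ, hσ, hk⟩
    rcases Nat.eq_zero_or_pos k with rfl | hk0
    · exact Or.inr ⟨0, hT0, Nat.zero_le _⟩
    by_cases hbig : ∃ v ≤ p.length, v ≠ 0 ∧ k ≤ sz p hp v
    · exact Or.inl hbig
    · right
      push Not at hbig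
      obtain ⟨X₀, h1, h2⟩ := exists_good ((strategy_iff hp σ).1 hσ)
      obtain ⟨m, X₁, hm, hm0, h3, h4⟩ := exists_min hk0 ⟨X₀, h1, hk.trans h2⟩
      have hmk : m ≤ k := by nlinarith
      obtain ⟨X, hX, hrk⟩ := exists_small_rank hmk hbig ⟨X₁, h3, h4⟩
      have hb : 0 < (k + 1) ^ 2 := by positivity
      -- the digits
      have hdig : ∀ j, ∃ d < (k + 1) ^ 2, ∀ x ∈ X, (Tp p hp).dep x = j → rk p hp x = d := by
        intro j
        by_cases hj : ∃ x ∈ X, (Tp p hp).dep x = j
        · obtain ⟨x, hx, hxj⟩ := hj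
          refine ⟨rk p hp x, hrk x hx, fun y hy hyj => ?_⟩
          rw [hX.1.inj y hy x hx (hyj.trans hxj.symm)]
        · exact ⟨0, hb, fun x hx hxj => (hj ⟨x, hx, hxj⟩).elim⟩
      choose d hd1 hd2 using hdig
      obtain ⟨c, hc, hc'⟩ := digits ((k + 1) ^ 2) d hd1 (m + 1)
      refine ⟨c, (hc.trans_le (pow_le_gSave hm)).trans_le hT, hX.2.2.trans ?_⟩
      rw [← Set.ncard_coe_finset]
      refine Set.ncard_le_ncard ?_ ((Set.finite_Iic p.length).subset fun _ h => h.1)
      intro v hv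
      obtain ⟨hv1, x, hx, hxv⟩ := mem_un.1 (Finset.mem_coe.1 hv)
      refine ⟨hv1, x, ⟨hX.1.le x hx, hX.1.ne x hx, ?_⟩, hxv⟩
      rw [hc' _ (Nat.lt_succ_of_le (hX.2.1 x hx))]
      exact hd2 _ x hx rfl
  · rintro (⟨v, hv, hv0, hk⟩ | ⟨c, -, hk⟩)
    · obtain ⟨σ, h1, h2⟩ := exists_strategy (p := p) (hp := hp) (X := {v})
        ⟨by simpa using hv, by simpa using hv0, by simp⟩
      refine ⟨σ, h1, ?_⟩
      rw [h2, Set.ncard_coe_finset]
      have h3 : un p hp {v} = sub p hp v := by simp [un]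
      rw [h3, ← sz_eq]
      exact hk
    · have hfin : (chosen p hp k c).Finite := (Set.finite_Iic p.length).subset fun _ h => h.1
      obtain ⟨σ, h1, h2⟩ := exists_strategy (p := p) (hp := hp) (X := hfin.toFinset)
        ⟨fun x hx => ((hfin.mem_toFinset).1 hx).1, fun x hx => ((hfin.mem_toFinset).1 hx).2.1,
        fun x hx y hy hxy => by
          have hx' := (hfin.mem_toFinset).1 hx
          have hy' := (hfin.mem_toFinset).1 hy
          refine rk_inj hx'.1 hy'.1 hxy ?_
          rw [hx'.2.2, hy'.2.2, hxy]⟩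
      refine ⟨σ, h1, ?_⟩
      rw [h2]
      refine hk.trans (le_of_eq ?_)
      congr 1
      ext v
      rw [Finset.mem_coe, mem_un, Set.mem_setOf_eq]
      simp only [Set.Finite.mem_toFinset]

end Pool.Agent.K9h83.FF
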