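import Pool.Agent.K9h83.FF.StmA
import Pool.Agent.K9h83.FF.PolyR

/-!
# The algorithm for Saving `k` vertices takes polynomial time
-/

set_option autoImplicit false

namespace Pool.Agent.K9h83.FF

open Pool.Agent.NPC

/-- the ancestors of `v` -/
def pth (p : List ℕ) (v : ℕ) : List ℕ := (List.range (p.length + 1)).map fun t => (up p)^[t] v

/-- the depth -/
def dpL (p : List ℕ) (v : ℕ) : ℕ := ((pth p v).filter fun a => decide (a ≠ 0)).length

/-- the size of the subtree -/
def szL (p : List ℕ) (a : ℕ) : ℕ :=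
  ((List.range (p.length + 1)).filter fun v => decide (a ∈ pth p v)).length

/-- the rank -/
def rkL (p : List ℕ) (v : ℕ) : ℕ :=
  ((List.range (p.length + 1)).filter fun u => decide (dpL p u = dpL p v ∧
    (szL p v < szL p u ∨ (szL p u = szL p v ∧ u < v)))).length

/-- the vertex `a` is chosen by the code `c` -/
def chL (p : List ℕ) (k c a : ℕ) : Bool :=
  decide (a ≠ 0 ∧ rkL p a = c / ((k + 1) * (k + 1)) ^ dpL p a % ((k + 1) * (k + 1)))

/-- the number of vertices below the chosen ones -/
def cntL (p : List ℕ) (k c : ℕ) : ℕ :=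
  ((List.range (p.length + 1)).filter fun v => (pth p v).any fun a => chL p k c a).length

/-- the algorithm -/
def alg (a : (List ℕ × ℕ) × List Bool) : Bool :=
  ((List.range (a.1.1.length + 1)).any fun v => decide (v ≠ 0 ∧ a.1.2 ≤ szL a.1.1 v)) ||
  ((List.range a.2.length).any fun c => decide (a.1.2 ≤ cntL a.1.1 a.1.2 c))

section correct

variable {p : List ℕ} (hp : IsTree p)

include hp

theorem iter_anc (t : ℕ) {v : ℕ} (hv : v ≤ p.length) :
    (Tp p hp).Anc ((up p)^[t] v) v ∧ (up p)^[t] v ≤ p.length ∧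
      (Tp p hp).dep ((up p)^[t] v) = (Tp p hp).dep v - t := by
  induction t generalizing v with
  | zero => exact ⟨RT.Anc.refl _ _, hv, rfl⟩
  | succ t ih =>
    rw [Function.iterate_succ_apply]
    by_cases h0 : v = 0
    · subst h0
      have h1 : up p 0 = 0 := rfl
      rw [h1]
      obtain ⟨h2, h3, h4⟩ := ih (Nat.zero_le p.length)
      refine ⟨h2, h3, ?_⟩
      rw [h4]
      have : (Tp p hp).dep 0 = 0 := rfl
      omega
    · have h1 := (Tp p hp).par_mem v hv h0
      have h2 := (Tp p hp).dep_par v hv h0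
      obtain ⟨h3, h4, h5⟩ := ih (v := up p v) h1
      refine ⟨h3.trans (RT.anc_par (T := Tp p hp) hv h0), h4, ?_⟩
      have h6 : (Tp p hp).dep ((Tp p hp).par v) = (Tp p hp).dep (up p v) := rfl
      rw [h6] at h2
      rw [h5]
      omega

theorem dep_le_self {v : ℕ} (hv : v ≤ p.length) : (Tp p hp).dep v ≤ v := by
  induction v using Nat.strong_induction_on with
  | _ v ih =>
    by_cases h0 : v = 0
    · subst h0
      exact Nat.le_refl 0
    · have h1 : up p v < v := up_lt hp hv h0
      have h2 := (Tp p hp).dep_par v hv h0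
      have h3 := ih _ h1 ((Tp p hp).par_mem v hv h0)
      have h6 : (Tp p hp).dep ((Tp p hp).par v) = (Tp p hp).dep (up p v) := rfl
      rw [h6] at h2
      omega

theorem mem_pth {a v : ℕ} (hv : v ≤ p.length) : a ∈ pth p v ↔ (Tp p hp).Anc a v := by
  unfold pth
  rw [List.mem_map]
  constructor
  · rintro ⟨t, _, rfl⟩
    exact (iter_anc hp t hv).1
  · intro h
    have h1 := h.dep_le
    have h2 := dep_le_self hp hv
    refine ⟨(Tp p hp).dep v - (Tp p hp).dep a, List.mem_range.2 (by omega), ?_⟩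
    obtain ⟨h3, _, h4⟩ := iter_anc hp ((Tp p hp).dep v - (Tp p hp).dep a) hv
    rcases h3.total h with h5 | h5
    · exact h5.eq_of_dep (by omega)
    · exact (h5.eq_of_dep (by omega)).symm

theorem dpL_eq {v : ℕ} (hv : v ≤ p.length) : dpL p v = (Tp p hp).dep v := by
  unfold dpL pth
  rw [List.filter_map, List.length_map]
  have h2 := dep_le_self hp hv
  have h1 : ((List.range (p.length + 1)).filter
      ((fun a => decide (a ≠ 0)) ∘ fun t => (up p)^[t] v)) =
      (List.range (p.length + 1)).filter fun t => decide (t < (Tp p hp).dep v) := by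
    refine List.filter_congr fun t _ => ?_
    simp only [Function.comp]
    rw [decide_eq_decide]
    obtain ⟨_, h3, h4⟩ := iter_anc hp t hv
    constructor
    · intro h
      by_contra hc
      apply h
      exact RT.eq_root_of_dep (T := Tp p hp) h3 (by omega)
    · intro h h5
      rw [h5] at h4
      have : (Tp p hp).dep 0 = 0 := rfl
      omega
  rw [h1]
  have h3 : ((List.range (p.length + 1)).filter fun t => decide (t < (Tp p hp).dep v)).toFinset =
      Finset.range ((Tp p hp).dep v) := by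
    ext t
    rw [List.mem_toFinset, List.mem_filter, List.mem_range, Finset.mem_range, decide_eq_true_iff]
    omega
  rw [← List.toFinset_card_of_nodup (List.nodup_range.filter _), h3, Finset.card_range]

omit hp in
theorem ncard_filter (n : ℕ) (P : ℕ → Prop) (f : ℕ → Bool) (h : ∀ v ≤ n, f v = true ↔ P v) :
    ((List.range (n + 1)).filter f).length = {v | v ≤ n ∧ P v}.ncard := by
  rw [← List.toFinset_card_of_nodup (List.nodup_range.filter _), ← Set.ncard_coe_finset]
  congr 1
  ext v
  rw [Finset.mem_coe, List.mem_toFinset, List.mem_filter, List.mem_range]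
  constructor
  · rintro ⟨h1, h2⟩
    exact ⟨by omega, (h v (by omega)).1 h2⟩
  · rintro ⟨h1, h2⟩
    exact ⟨by omega, (h v h1).2 h2⟩

theorem szL_eq (a : ℕ) : szL p a = sz p hp a := by
  unfold szL sz
  refine ncard_filter p.length _ _ fun v hv => ?_
  rw [decide_eq_true_iff, mem_pth hp hv]

theorem rkL_eq {v : ℕ} (hv : v ≤ p.length) : rkL p v = rk p hp v := by
  unfold rkL rk
  refine ncard_filter p.length _ _ fun u hu => ?_
  rw [decide_eq_true_iff, dpL_eq hp hu, dpL_eq hp hv, szL_eq hp, szL_eq hp]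

theorem cntL_eq (k c : ℕ) :
    cntL p k c = {v | v ≤ p.length ∧ ∃ a ∈ chosen p hp k c, (Tp p hp).Anc a v}.ncard := by
  unfold cntL
  refine ncard_filter p.length _ _ fun v hv => ?_
  rw [List.any_eq_true]
  constructor
  · rintro ⟨a, h1, h2⟩
    rw [mem_pth hp hv] at h1
    have ha : a ≤ p.length := h1.mem (T := Tp p hp) hv
    unfold chL at h2
    rw [decide_eq_true_iff, rkL_eq hp ha, dpL_eq hp ha, ← sq] at h2
    exact ⟨a, ⟨ha, h2.1, h2.2⟩, h1⟩
  · rintro ⟨a, ⟨ha, h2, h3⟩, h1⟩
    refine ⟨a, (mem_pth hp hv).2 h1, ?_⟩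
    unfold chL
    rw [decide_eq_true_iff, rkL_eq hp ha, dpL_eq hp ha, ← sq]
    exact ⟨h2, h3⟩

theorem alg_iff (k : ℕ) (l : List Bool) : alg ((p, k), l) = true ↔
    (∃ v ≤ p.length, v ≠ 0 ∧ k ≤ sz p hp v) ∨
    ∃ c < l.length, k ≤ {v | v ≤ p.length ∧ ∃ a ∈ chosen p hp k c, (Tp p hp).Anc a v}.ncard := by
  unfold alg
  rw [Bool.or_eq_true, List.any_eq_true, List.any_eq_true]
  refine or_congr ⟨?_, ?_⟩ ⟨?_, ?_⟩
  · rintro ⟨v, h1, h2⟩
    rw [List.mem_range] at h1
    rw [decide_eq_true_iff, szL_eq hp] at h2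
    exact ⟨v, by simp only at h1; omega, h2⟩
  · rintro ⟨v, h1, h2⟩
    refine ⟨v, List.mem_range.2 (by simp only; omega), ?_⟩
    rw [decide_eq_true_iff, szL_eq hp]
    exact h2
  · rintro ⟨c, h1, h2⟩
    rw [List.mem_range] at h1
    rw [decide_eq_true_iff, cntL_eq hp] at h2
    exact ⟨c, h1, h2⟩
  · rintro ⟨c, h1, h2⟩
    refine ⟨c, List.mem_range.2 h1, ?_⟩
    rw [decide_eq_true_iff, cntL_eq hp]
    exact h2

end correct

section poly

variable {α : Type} [TEnc α]

theorem poly_divpow {x b i : α → ℕ} (hx : NPC.Poly x) (hb : NPC.Poly b) (hi : UPoly i) :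
    NPC.Poly (fun a => x a / b a ^ i a) := by
  obtain ⟨q, hq⟩ := hx.sz_le
  have key : ∀ b k n : ℕ, (fun n => n / b)^[k] n = n / b ^ k := by
    intro b k
    induction k with
    | zero => intro n; simp
    | succ k ih =>
      intro n
      rw [Function.iterate_succ_apply, ih, Nat.div_div_eq_div_mul, ← pow_succ']
  refine (NPC.Poly.iterLen (s := x) (F := fun a n => n / b a) hi.range hx ?_
    (Polynomial.C 2 * q) ?_).congr fun a => ?_
  · have h : NPC.Poly (fun p : α × ℕ => b p.1) := hb.comp (NPC.Poly.fst NPC.Poly.id)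
    fun_prop
  · intro a k _
    rw [key]
    have h1 := sz_nat_mono_le (Nat.div_le_self (x a) (b a ^ k))
    have h2 := hq a
    simp only [Polynomial.eval_mul, Polynomial.eval_C]
    omega
  · rw [key, List.length_range]

theorem up_poly {p : α → List ℕ} {v : α → ℕ} (hp : NPC.Poly p) (hv : NPC.Poly v) :
    NPC.Poly (fun a => up (p a) (v a)) := by
  unfold up
  fun_prop

/-- a bound for the values of the iterates -/
theorem iter_bound (p : List ℕ) (v t : ℕ) : (up p)^[t] v ≤ v + p.sum := by
  have h1 : ∀ v, up p v ≤ p.sum := by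
    intro v
    unfold up
    split_ifs
    · exact Nat.zero_le _
    · by_cases h : v - 1 < p.length
      · rw [getD_of_lt h]
        exact List.single_le_sum (fun _ _ => Nat.zero_le _) _ (List.getElem_mem h)
      · rw [List.getD_eq_getElem?_getD, List.getElem?_eq_none (by omega)]
        exact Nat.zero_le _
  cases t with
  | zero => exact Nat.le_add_right _ _
  | succ t =>
    rw [Function.iterate_succ_apply']
    exact (h1 _).trans (Nat.le_add_left _ _)

theorem iter_poly {p : α → List ℕ} {v t : α → ℕ} (hp : NPC.Poly p) (hv : NPC.Poly v)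
    (ht : UPoly t) : NPC.Poly (fun a => (up (p a))^[t a] (v a)) := by
  have hs : NPC.Poly (fun a => v a + (p a).sum) := by fun_prop
  obtain ⟨q, hq⟩ := hs.sz_le
  refine (NPC.Poly.iterLen (s := v) (F := fun a n => up (p a) n) ht.range hv ?_
    (Polynomial.C 2 * q) ?_).congr fun a => ?_
  · exact up_poly (hp.comp (NPC.Poly.fst NPC.Poly.id)) (NPC.Poly.snd NPC.Poly.id)
  · intro a k _
    change NPC.sz ((up (p a))^[k] (v a)) ≤ _
    have h1 := sz_nat_mono_le (iter_bound (p a) (v a) k)
    have h2 := hq a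
    simp only [Polynomial.eval_mul, Polynomial.eval_C]
    omega
  · rw [List.length_range]

theorem upoly_range {l : α → List ℕ} (hl : NPC.Poly l) :
    NPC.Poly (fun a => List.range ((l a).length + 1)) :=
  (UPoly.add (UPoly.length hl) (UPoly.const 1)).range

/-- functions of an element of `range` are functions of a unary number -/
theorem map_range_poly {n : α → ℕ} {β : Type} [TEnc β] {F : α → ℕ → β} (hn : UPoly n)
    (hF : NPC.Poly (fun q : α × List Unit => F q.1 q.2.length)) :
    NPC.Poly (fun a => (List.range (n a)).map (F a)) := by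
  have h0 : NPC.Poly (fun q : α × ℕ => List.replicate (min q.2 (n q.1)) ()) := by
    have h1 : NPC.Poly (fun q : α × ℕ => n q.1) := hn.toPoly.comp (NPC.Poly.fst NPC.Poly.id)
    have h2 : UPoly (fun q : α × ℕ => n q.1) := hn.comp (NPC.Poly.fst NPC.Poly.id)
    exact UPoly.of_le (m := fun q : α × ℕ => min q.2 (n q.1))
      (NPC.Poly.min (NPC.Poly.snd NPC.Poly.id) h1) h2 fun q => min_le_right _ _
  have h1 : NPC.Poly (fun q : α × ℕ => F q.1 (min q.2 (n q.1))) := by
    refine (hF.comp (f := fun q : α × ℕ => (q.1, List.replicate (min q.2 (n q.1)) ()))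
      (NPC.Poly.pair (NPC.Poly.fst NPC.Poly.id) h0)).congr fun q => ?_
    rw [List.length_replicate]
  refine (NPC.Poly.map (F := fun a t => F a (min t (n a))) hn.range h1).congr fun a => ?_
  refine List.map_congr_left fun t ht => ?_
  rw [List.mem_range] at ht
  rw [min_eq_left ht.le]

theorem pth_poly {p : α → List ℕ} {v : α → ℕ} (hp : NPC.Poly p) (hv : NPC.Poly v) :
    NPC.Poly (fun a => pth (p a) (v a)) := by
  unfold pth
  refine map_range_poly (UPoly.add (UPoly.length hp) (UPoly.const 1)) ?_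
  exact iter_poly (hp.comp (NPC.Poly.fst NPC.Poly.id)) (hv.comp (NPC.Poly.fst NPC.Poly.id))
    (UPoly.length (NPC.Poly.snd NPC.Poly.id))

theorem dpL_poly {p : α → List ℕ} {v : α → ℕ} (hp : NPC.Poly p) (hv : NPC.Poly v) :
    UPoly (fun a => dpL (p a) (v a)) := by
  have h := pth_poly hp hv
  unfold dpL
  exact UPoly.length (by fun_prop)

theorem szL_poly {p : α → List ℕ} {v : α → ℕ} (hp : NPC.Poly p) (hv : NPC.Poly v) :
    NPC.Poly (fun a => szL (p a) (v a)) := by
  unfold szL
  have h1 : NPC.Poly (fun q : α × ℕ => pth (p q.1) q.2) :=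
    pth_poly (hp.comp (NPC.Poly.fst NPC.Poly.id)) (NPC.Poly.snd NPC.Poly.id)
  have h2 : NPC.Poly (fun q : α × ℕ => v q.1) := hv.comp (NPC.Poly.fst NPC.Poly.id)
  exact NPC.Poly.length (NPC.Poly.filter (upoly_range hp) (by fun_prop))

theorem rkL_poly {p : α → List ℕ} {v : α → ℕ} (hp : NPC.Poly p) (hv : NPC.Poly v) :
    NPC.Poly (fun a => rkL (p a) (v a)) := by
  unfold rkL
  have hp' : NPC.Poly (fun q : α × ℕ => p q.1) := hp.comp (NPC.Poly.fst NPC.Poly.id)
  have h2 : NPC.Poly (fun q : α × ℕ => v q.1) := hv.comp (NPC.Poly.fst NPC.Poly.id)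
  have h3 := (dpL_poly hp' h2).toPoly
  have h4 := (dpL_poly hp' (NPC.Poly.snd NPC.Poly.id)).toPoly
  have h5 := szL_poly hp' h2
  have h6 := szL_poly hp' (NPC.Poly.snd NPC.Poly.id)
  exact NPC.Poly.length (NPC.Poly.filter (upoly_range hp) (by fun_prop))

theorem chL_poly {p : α → List ℕ} {k c v : α → ℕ} (hp : NPC.Poly p) (hk : NPC.Poly k)
    (hc : NPC.Poly c) (hv : NPC.Poly v) : NPC.Poly (fun a => chL (p a) (k a) (c a) (v a)) := by
  unfold chL
  have h1 := rkL_poly hp hv
  have h2 : NPC.Poly (fun a => c a / ((k a + 1) * (k a + 1)) ^ dpL (p a) (v a)) :=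
    poly_divpow hc (by fun_prop) (dpL_poly hp hv)
  fun_prop

theorem cntL_poly {p : α → List ℕ} {k c : α → ℕ} (hp : NPC.Poly p) (hk : NPC.Poly k)
    (hc : NPC.Poly c) : NPC.Poly (fun a => cntL (p a) (k a) (c a)) := by
  unfold cntL
  refine NPC.Poly.length (NPC.Poly.filter (upoly_range hp) (NPC.Poly.any ?_ ?_))
  · exact pth_poly (hp.comp (NPC.Poly.fst NPC.Poly.id)) (NPC.Poly.snd NPC.Poly.id)
  · exact chL_poly (hp.comp (NPC.Poly.fst (NPC.Poly.fst NPC.Poly.id)))
      (hk.comp (NPC.Poly.fst (NPC.Poly.fst NPC.Poly.id)))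
      (hc.comp (NPC.Poly.fst (NPC.Poly.fst NPC.Poly.id))) (NPC.Poly.snd NPC.Poly.id)

theorem alg_poly : NPC.Poly alg := by
  unfold alg
  refine NPC.Poly.or (NPC.Poly.any ?_ ?_) (NPC.Poly.any ?_ ?_)
  · exact upoly_range (by fun_prop)
  · have h1 : NPC.Poly (fun q : ((List ℕ × ℕ) × List Bool) × ℕ => szL q.1.1.1 q.2) :=
      szL_poly (by fun_prop) (by fun_prop)
    fun_prop
  · exact (UPoly.length (by fun_prop)).range
  · have h1 : NPC.Poly (fun q : ((List ℕ × ℕ) × List Bool) × ℕ => cntL q.1.1.1 q.1.1.2 q.2) :=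
      cntL_poly (by fun_prop) (by fun_prop) (by fun_prop)
    fun_prop

end poly

theorem save_decides (h : S_A1) : Decides gSave (fun k => k) Saving := by
  refine ⟨fun x => match unbits ((List ℕ × ℕ) × List Bool) x with
    | some a => [alg a]
    | none => [false], ?_, ?_⟩
  · refine H622R2.polyTime_of_poly_list ?_
    refine (NPC.Poly.optCases (o := unbits ((List ℕ × ℕ) × List Bool)) (g := fun _ => [false])
      (h := fun _ a => [alg a]) poly_unbits (NPC.Poly.const _) ?_).congr ?_
    · have h0 : NPC.Poly (fun q : List Bool × ((List ℕ × ℕ) × List Bool) => alg q.2) :=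
        alg_poly.comp (NPC.Poly.snd NPC.Poly.id)
      exact NPC.Poly.cons h0 (NPC.Poly.const _)
    · intro x
      cases unbits ((List ℕ × ℕ) × List Bool) x <;> rfl
  · intro p k T hp hT
    beta_reduce
    rw [unbits_bits]
    simp only [List.cons.injEq, and_true]
    rw [alg_iff hp, List.length_replicate]
    exact (h p hp k T hT).symm

end Pool.Agent.K9h83.FF
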