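import Pool.Agent.K9h83.FF.Lab

/-!
# A winning strategy gives a satisfying assignment
-/

set_option autoImplicit false

namespace Pool.Agent.K9h83.FF

open Pool.Agent.NPC

variable {φ : F3} {r w : ℕ}

theorem gl_max {b d a t : ℕ} (hd : d ≤ Hh φ r w) : d + gl φ r w b d a t ≤ Hh φ r w := by
  unfold gl
  split_ifs with h1 h2 h3 h4
  · unfold Hh
    omega
  · omega
  · unfold Hh
    omega
  · unfold Hh
    omega
  · omega

theorem ln_before {b d : ℕ} (h : d ≤ 2 * b * r) : ln r b d = 0 := by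
  unfold ln
  rw [Nat.sub_eq_zero_of_le h]
  simp

theorem ln_after {b d : ℕ} (h : 2 * b * r + 2 * r ≤ d) : ln r b d = r := by
  unfold ln
  apply min_eq_left
  omega

theorem ln_sel (hr : 1 ≤ r) (s : ℕ) : ln r (s / r) (2 * s) = s % r ∧
    ln r (s / r) (2 * s + 1) = s % r + 1 ∧ ln r (s / r) (2 * s + 2) = s % r + 1 := by
  have h1 := Nat.div_add_mod s r
  have h2 := Nat.mod_lt s hr
  have h3 : 2 * (s / r) * r = 2 * (r * (s / r)) := by ring
  unfold ln
  rw [h3]
  generalize r * (s / r) = z at *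
  generalize s % r = q at *
  subst h1
  refine ⟨?_, ?_, ?_⟩
  · rw [show (2 * (z + q) - 2 * z + 1) / 2 = q by omega]
    exact min_eq_right h2.le
  · rw [show (2 * (z + q) + 1 - 2 * z + 1) / 2 = q + 1 by omega]
    exact min_eq_right h2
  · rw [show (2 * (z + q) + 2 - 2 * z + 1) / 2 = q + 1 by omega]
    exact min_eq_right h2

theorem ln_other (hr : 1 ≤ r) (s b : ℕ) (hb : b ≠ s / r) :
    ln r b (2 * s + 1) = ln r b (2 * s) ∧ ln r b (2 * s + 2) = ln r b (2 * s) := by
  have h1 := Nat.div_add_mod s r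
  have h2 := Nat.mod_lt s hr
  rcases Nat.lt_or_ge b (s / r) with h | h
  · have h3 : r * (b + 1) ≤ r * (s / r) := Nat.mul_le_mul_left r h
    have h4 : 2 * b * r + 2 * r ≤ 2 * s := by
      have : 2 * b * r + 2 * r = 2 * (r * (b + 1)) := by ring
      omega
    rw [ln_after h4, ln_after (by omega), ln_after (by omega)]
    exact ⟨rfl, rfl⟩
  · have h3 : r * (s / r + 1) ≤ r * b := Nat.mul_le_mul_left r (by omega)
    have h4 : 2 * s + 2 ≤ 2 * b * r := by
      have : r * (s / r + 1) = r * (s / r) + r := by ring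
      have : 2 * b * r = 2 * (r * b) := by ring
      omega
    rw [ln_before h4, ln_before (by omega), ln_before (by omega)]
    exact ⟨rfl, rfl⟩

theorem mv_burn_mem {σ : List Lb} {b d a : ℕ} (hd : 1 ≤ d)
    (hu : mv b d a ∈ (Lab φ r w).Burn σ) : b < w ∧ d ≤ Hh φ r w ∧ a < 2 ^ ln r b d := by
  have := hu.1
  rw [mv_pos hd] at this
  exact (ok_main φ r w hd).1 this

theorem hitG {σ : List Lb} (hσ : (Lab φ r w).Valid σ) (hfin : (Lab φ r w).S.Finite)
    (hB : ((Lab φ r w).Burn σ).ncard ≤ Bb φ r w) {b d a t : ℕ} (hd : 1 ≤ d)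
    (hu : mv b d a ∈ (Lab φ r w).Burn σ) (hg : 0 < gl φ r w b d a t) :
    ∃ h i, ∃ hi : i < σ.length, 1 ≤ h ∧ h ≤ gl φ r w b d a t ∧ σ[i] = (b, d, a, t, h, 0) ∧
      i < d + h := by
  classical
  obtain ⟨h1, h2, h3⟩ := mv_burn_mem hd hu
  have hmax := gl_max (b := b) (a := a) (t := t) h2
  set g := gl φ r w b d a t with hgdef
  have hin : ∀ h, 1 ≤ h → h ≤ g → Ok φ r w (b, d, a, t, h, 0) := fun h ha hb => by
    rw [ok_gad φ r w ha]
    exact ⟨h1, hd, h2, h3, hg, Or.inl ⟨hb, rfl⟩⟩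
  have hleaf : ∀ x, x < Wt φ r w → Ok φ r w (b, d, a, t, g + 1, x) := fun x hx => by
    rw [ok_gad φ r w (by omega)]
    exact ⟨h1, hd, h2, h3, hg, Or.inr ⟨rfl, hx⟩⟩
  have hBfin : ((Lab φ r w).Burn σ).Finite := hfin.subset fun _ h => h.1
  by_cases hy : (b, d, a, t, g, 0) ∈ (Lab φ r w).Burn σ
  · exfalso
    have hs2 : ∀ x ∈ (Finset.range (Wt φ r w)).filter
        (fun x => ¬ (b, d, a, t, g + 1, x) ∈ (Lab φ r w).Burn σ),
        ∃ i, ∃ hi : i < σ.length, σ[i] = (b, d, a, t, g + 1, x) ∧ i < d + g + 1 := by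
      intro x hx
      rw [Finset.mem_filter, Finset.mem_range] at hx
      obtain ⟨i, hi, h4, h5, h6⟩ := RT.hit hσ hy (hleaf x hx.1) hx.2
        (gad_anc_gad φ r w (hleaf x hx.1) hg (by omega))
      have h7 : σ[i] = (b, d, a, t, g + 1, x) := by
        refine h5.eq_of_dep ?_
        rw [Lab_dep] at h6
        rw [Lab_dep]
        simp only at h6 ⊢
        omega
      refine ⟨i, hi, h7, ?_⟩
      rw [h7, Lab_dep] at h4
      simp only at h4
      omega
    have hc1 : ((Finset.range (Wt φ r w)).filter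
        (fun x => (b, d, a, t, g + 1, x) ∈ (Lab φ r w).Burn σ)).card ≤ Bb φ r w := by
      refine le_trans ?_ hB
      rw [← Finset.card_image_of_injective (f := fun x => ((b, d, a, t, g + 1, x) : Lb)) _
        (fun x y hxy => by simpa using hxy), ← Set.ncard_coe_finset]
      refine Set.ncard_le_ncard ?_ hBfin
      intro y hy
      rw [Finset.mem_coe, Finset.mem_image] at hy
      obtain ⟨x, hx, rfl⟩ := hy
      exact (Finset.mem_filter.1 hx).2
    have hc2 : ((Finset.range (Wt φ r w)).filter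
        (fun x => ¬ (b, d, a, t, g + 1, x) ∈ (Lab φ r w).Burn σ)).card ≤ Hh φ r w + 1 := by
      have := Finset.card_le_card_of_injOn (s := (Finset.range (Wt φ r w)).filter
        (fun x => ¬ (b, d, a, t, g + 1, x) ∈ (Lab φ r w).Burn σ))
        (t := Finset.range (Hh φ r w + 1))
        (fun x => if h : x ∈ (Finset.range (Wt φ r w)).filter
          (fun x => ¬ (b, d, a, t, g + 1, x) ∈ (Lab φ r w).Burn σ) then (hs2 x h).choose else 0)
        (by
          intro x hx
          have hx' := Finset.mem_coe.1 hx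
          rw [Finset.mem_coe, Finset.mem_range]
          simp only
          rw [dif_pos hx']
          obtain ⟨_, _, h6⟩ := (hs2 x hx').choose_spec
          omega)
        (by
          intro x hx y hy hxy
          have hx' := Finset.mem_coe.1 hx
          have hy' := Finset.mem_coe.1 hy
          simp only at hxy
          rw [dif_pos hx', dif_pos hy'] at hxy
          obtain ⟨h4, h5, _⟩ := (hs2 x hx').choose_spec
          obtain ⟨h6, h7, _⟩ := (hs2 y hy').choose_spec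
          have h8 : σ[(hs2 x hx').choose] = σ[(hs2 y hy').choose] := by
            congr 1
          rw [h5, h7] at h8
          simpa using h8)
      rwa [Finset.card_range] at this
    have hc3 := Finset.card_filter_add_card_filter_not (s := Finset.range (Wt φ r w))
      (fun x => (b, d, a, t, g + 1, x) ∈ (Lab φ r w).Burn σ)
    rw [Finset.card_range] at hc3
    unfold Wt at hc1 hc2 hc3
    omega
  · obtain ⟨i, hi, h4, h5, h6⟩ := RT.hit hσ hu (hin g hg le_rfl) hy
      (gad_anc_main φ r w hg (hin g hg le_rfl))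
    rw [dep_mv] at h6
    have h7 : (Lab φ r w).dep σ[i] ≤ d + g := h5.dep_le
    refine ⟨(Lab φ r w).dep σ[i] - d, i, hi, by omega, by omega, ?_, by omega⟩
    set h := (Lab φ r w).dep σ[i] - d with hh
    have h8 : (Lab φ r w).Anc (b, d, a, t, h, 0) (b, d, a, t, g, 0) := by
      rcases Nat.lt_or_ge h g with h9 | h9
      · exact gad_anc_gad φ r w (hin g hg le_rfl) (by omega) h9
      · have : h = g := by omega
        rw [this]
        exact RT.Anc.refl _ _
    refine h5.unique h8 ?_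
    rw [Lab_dep _ _ _ (b, d, a, t, h, 0)]
    simp only
    omega

theorem extend {σ : List Lb} (hσ : (Lab φ r w).Valid σ) {b d a a' : ℕ} (hb : b < w)
    (hu : mv b d a ∈ (Lab φ r w).Burn σ) (hd : d + 1 ≤ Hh φ r w) (ha : a' < 2 ^ ln r b (d + 1))
    (haa : a' / 2 ^ (ln r b (d + 1) - ln r b d) = a)
    (hn : ∀ i, ∀ hi : i < σ.length, i < d + 1 → σ[i] ≠ mv b (d + 1) a') :
    mv b (d + 1) a' ∈ (Lab φ r w).Burn σ := by
  by_contra hc
  have hm := mv_mem φ r w hb hd ha
  have hne : mv b (d + 1) a' ≠ (Lab φ r w).root := by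
    intro h
    have := congrArg (Lab φ r w).dep h
    rw [dep_mv, (Lab φ r w).dep_root] at this
    omega
  have hanc := RT.anc_par hm hne
  rw [mv_par, haa] at hanc
  obtain ⟨i, hi, h4, h5, h6⟩ := RT.hit hσ hu hm hc hanc
  rw [dep_mv] at h6
  have h7 : σ[i] = mv b (d + 1) a' := by
    refine h5.eq_of_dep ?_
    rw [dep_mv]
    omega
  rw [h7, dep_mv] at h4
  exact hn i hi h4 h7

/-- all moves before `t` are at depths at most `t` -/
def Old (φ : F3) (r w : ℕ) (σ : List Lb) (t : ℕ) : Prop :=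
  ∀ i < t, ∃ hi : i < σ.length, (Lab φ r w).dep σ[i] ≤ t

theorem sel_step (hr : 1 ≤ r) {σ : List Lb} (hσ : (Lab φ r w).Valid σ)
    (hfin : (Lab φ r w).S.Finite) (hB : ((Lab φ r w).Burn σ).ncard ≤ Bb φ r w) {s : ℕ}
    (hs : s < w * r) (ho : Old φ r w σ (2 * s))
    (hb : ∀ b < w, ∃ a, a < 2 ^ ln r b (2 * s) ∧ mv b (2 * s) a ∈ (Lab φ r w).Burn σ) :
    Old φ r w σ (2 * s + 2) ∧
    ∀ b < w, ∃ a, a < 2 ^ ln r b (2 * s + 2) ∧ mv b (2 * s + 2) a ∈ (Lab φ r w).Burn σ := by
  have hb0 : s / r < w := Nat.div_lt_of_lt_mul (by rwa [mul_comm])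
  obtain ⟨hl0, hl1, hl2⟩ := ln_sel hr s
  have hq := Nat.mod_lt s hr
  have hH : 2 * s + 2 ≤ Hh φ r w := by
    unfold Hh
    have : 2 * w * r = 2 * (w * r) := by ring
    omega
  have hlt : 2 * s + 1 < 2 * w * r := by
    have : 2 * w * r = 2 * (w * r) := by ring
    omega
  obtain ⟨a, ha, hab⟩ := hb (s / r) hb0
  rw [hl0] at ha
  have hold : ∀ i, ∀ hi : i < σ.length, 2 * s < (Lab φ r w).dep σ[i] → 2 * s ≤ i := by
    intro i hi h
    by_contra hc
    obtain ⟨_, h2⟩ := ho i (by omega)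
    omega
  -- the two children
  have hch : ∀ e, e < 2 → 2 * a + e < 2 ^ ln r (s / r) (2 * s + 1) := by
    intro e he
    rw [hl1, pow_succ]
    omega
  have hdiv : ∀ e, e < 2 →
      (2 * a + e) / 2 ^ (ln r (s / r) (2 * s + 1) - ln r (s / r) (2 * s)) = a := by
    intro e he
    rw [hl0, hl1, show s % r + 1 - s % r = 1 by omega, pow_one]
    omega
  have hgl : ∀ e, gl φ r w (s / r) (2 * s + 1) (2 * a + e) 0 = 1 := by
    intro e
    unfold gl
    rw [if_pos hlt, if_pos]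
    exact ⟨by omega, by rw [show (2 * s + 1) / 2 = s by omega], rfl⟩
  have hdem : ∀ e, e < 2 → ∃ i, ∃ hi : i < σ.length, 2 * s ≤ i ∧ i < 2 * s + 2 ∧
      ((σ[i] = (s / r, 2 * s + 1, 2 * a + e, 0, 0, 0) ∧ i = 2 * s) ∨
       (σ[i] = (s / r, 2 * s + 1, 2 * a + e, 0, 1, 0) ∧
        mv (s / r) (2 * s + 1) (2 * a + e) ∈ (Lab φ r w).Burn σ)) := by
    intro e he
    have hm := mv_mem φ r w hb0 (by omega) (hch e he)
    by_cases hc : mv (s / r) (2 * s + 1) (2 * a + e) ∈ (Lab φ r w).Burn σ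
    · obtain ⟨h, i, hi, h4, h5, h6, h7⟩ := hitG hσ hfin hB (t := 0) (by omega) hc (by
        rw [hgl e]
        omega)
      rw [hgl e] at h5
      have hh : h = 1 := by omega
      subst hh
      refine ⟨i, hi, hold i hi ?_, by omega, Or.inr ⟨h6, hc⟩⟩
      rw [h6, Lab_dep]
      simp only
      omega
    · have hne : mv (s / r) (2 * s + 1) (2 * a + e) ≠ (Lab φ r w).root := by
        intro h
        have := congrArg (Lab φ r w).dep h
        rw [dep_mv, (Lab φ r w).dep_root] at this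
        omega
      have hanc := RT.anc_par hm hne
      rw [mv_par, hdiv e he] at hanc
      obtain ⟨i, hi, h4, h5, h6⟩ := RT.hit hσ hab hm hc hanc
      rw [dep_mv] at h6
      have h7 : σ[i] = mv (s / r) (2 * s + 1) (2 * a + e) := by
        refine h5.eq_of_dep ?_
        rw [dep_mv]
        omega
      have h8 := hold i hi h6
      rw [h7, dep_mv] at h4
      refine ⟨i, hi, h8, by omega, Or.inl ⟨?_, by omega⟩⟩
      rw [h7, mv_pos (by omega)]
  obtain ⟨i0, hi0, h1, h2, h3⟩ := hdem 0 (by omega)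
  obtain ⟨i1, hi1, h4, h5, h6⟩ := hdem 1 (by omega)
  have hne : i0 ≠ i1 := by
    rintro rfl
    rcases h3 with ⟨h3, _⟩ | ⟨h3, _⟩ <;> rcases h6 with ⟨h6, _⟩ | ⟨h6, _⟩ <;>
      rw [h3] at h6 <;> simp at h6
  have hboth : ∀ i, 2 * s ≤ i → i < 2 * s + 2 → i = i0 ∨ i = i1 := by
    intro i _ _
    omega
  have hnew : ∀ i, 2 * s ≤ i → i < 2 * s + 2 → ∃ hi : i < σ.length, ∃ a' h,
      σ[i] = (s / r, 2 * s + 1, a', 0, h, 0) ∧ h ≤ 1 := by
    intro i ha hb
    rcases hboth i ha hb with rfl | rfl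
    · refine ⟨hi0, 2 * a + 0, ?_⟩
      rcases h3 with ⟨h3, _⟩ | ⟨h3, _⟩
      · exact ⟨0, h3, by omega⟩
      · exact ⟨1, h3, by omega⟩
    · refine ⟨hi1, 2 * a + 1, ?_⟩
      rcases h6 with ⟨h6, _⟩ | ⟨h6, _⟩
      · exact ⟨0, h6, by omega⟩
      · exact ⟨1, h6, by omega⟩
  have hnot2 : ∀ b a', ∀ i, ∀ hi : i < σ.length, i < 2 * s + 2 → σ[i] ≠ mv b (2 * s + 2) a' := by
    intro b a' i hi hlt hc
    have hd : (Lab φ r w).dep σ[i] = 2 * s + 2 := by rw [hc, dep_mv]
    obtain ⟨_, a'', h, h7, h8⟩ := hnew i (hold i hi (by omega)) hlt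
    rw [hc, mv_pos (by omega)] at h7
    simp only [Prod.mk.injEq] at h7
    omega
  have hnot1 : ∀ b a', b ≠ s / r → ∀ i, ∀ hi : i < σ.length, i < 2 * s + 2 →
      σ[i] ≠ mv b (2 * s + 1) a' := by
    intro b a' hbne i hi hlt hc
    have hd : (Lab φ r w).dep σ[i] = 2 * s + 1 := by rw [hc, dep_mv]
    obtain ⟨_, a'', h, h7, h8⟩ := hnew i (hold i hi (by omega)) hlt
    rw [hc, mv_pos (by omega)] at h7
    simp only [Prod.mk.injEq] at h7
    exact hbne h7.1
  refine ⟨?_, ?_⟩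
  · intro i hi
    by_cases hlt' : i < 2 * s
    · obtain ⟨h7, h8⟩ := ho i hlt'
      exact ⟨h7, by omega⟩
    · obtain ⟨h7, a', h, h8, h9⟩ := hnew i (by omega) hi
      refine ⟨h7, ?_⟩
      rw [h8, Lab_dep]
      simp only
      omega
  · intro b hbw
    by_cases hbe : b = s / r
    · subst hbe
      have hex : ∃ e, e < 2 ∧ mv (s / r) (2 * s + 1) (2 * a + e) ∈ (Lab φ r w).Burn σ := by
        rcases h3 with ⟨_, h3⟩ | ⟨_, h3⟩
        · rcases h6 with ⟨_, h6⟩ | ⟨_, h6⟩
          · omega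
          · exact ⟨1, by omega, h6⟩
        · exact ⟨0, by omega, h3⟩
      obtain ⟨e, he, hburn⟩ := hex
      have ha2 : 2 * a + e < 2 ^ ln r (s / r) (2 * s + 2) := by
        have := hch e he
        rwa [hl1, ← hl2] at this
      refine ⟨2 * a + e, ha2, ?_⟩
      refine extend hσ hbw (a' := 2 * a + e) hburn (by omega) ha2 ?_ ?_
      · rw [show 2 * s + 1 + 1 = 2 * s + 2 by ring, hl1, hl2, Nat.sub_self, pow_zero, Nat.div_one]
      · intro i hi hlt'
        exact hnot2 _ _ i hi hlt'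
    · obtain ⟨a1, ha1, hab1⟩ := hb b hbw
      obtain ⟨hm1, hm2⟩ := ln_other hr s b hbe
      have hs1 : mv b (2 * s + 1) a1 ∈ (Lab φ r w).Burn σ := by
        refine extend hσ hbw hab1 (by omega) (by rwa [hm1]) ?_ ?_
        · rw [hm1, Nat.sub_self, pow_zero, Nat.div_one]
        · intro i hi hlt'
          exact hnot1 _ _ hbe i hi (by omega)
      refine ⟨a1, by rwa [hm2], ?_⟩
      refine extend hσ hbw hs1 (by omega) (by rwa [show 2 * s + 1 + 1 = 2 * s + 2 by ring, hm2])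
        ?_ ?_
      · rw [show 2 * s + 1 + 1 = 2 * s + 2 by ring, hm1, hm2, Nat.sub_self, pow_zero,
          Nat.div_one]
      · intro i hi hlt'
        exact hnot2 _ _ i hi hlt'

theorem sel_all (hr : 1 ≤ r) {σ : List Lb} (hσ : (Lab φ r w).Valid σ)
    (hfin : (Lab φ r w).S.Finite) (hB : ((Lab φ r w).Burn σ).ncard ≤ Bb φ r w) :
    ∀ s ≤ w * r, Old φ r w σ (2 * s) ∧
      ∀ b < w, ∃ a, a < 2 ^ ln r b (2 * s) ∧ mv b (2 * s) a ∈ (Lab φ r w).Burn σ := by
  intro s
  induction s with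
  | zero =>
    intro _
    refine ⟨fun i hi => by omega, fun b _ => ⟨0, by positivity, ?_⟩⟩
    rw [Nat.mul_zero, mv_zero]
    exact RT.root_burn hσ
  | succ s ih =>
    intro hs
    obtain ⟨h1, h2⟩ := ih (by omega)
    exact sel_step hr hσ hfin hB (by omega) h1 h2

/-- the literal in the slot `t` of the clause `j` is true under the codes `A` of the blocks -/
def LT (φ : F3) (r : ℕ) (A : ℕ → ℕ) (j t : ℕ) : Prop :=
  vl r (A ((slot (cl φ j) t).2 / r)) (slot (cl φ j) t).2 = (slot (cl φ j) t).1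

theorem clause_step (hr : 1 ≤ r) (hw : 1 ≤ w) {σ : List Lb} (hσ : (Lab φ r w).Valid σ)
    (hfin : (Lab φ r w).S.Finite) (hB : ((Lab φ r w).Burn σ).ncard ≤ Bb φ r w)
    (hv : ∀ j < φ.length, ∀ t < 3, (slot (cl φ j) t).2 / r < w) {A : ℕ → ℕ}
    (hA : ∀ b < w, A b < 2 ^ r) {j : ℕ}
    (hj : j < φ.length) (ho : Old φ r w σ (2 * w * r + 3 * j))
    (hb : ∀ b < w, mv b (2 * w * r + 3 * j) (A b) ∈ (Lab φ r w).Burn σ) :
    (∃ t < 3, LT φ r A j t) ∧ Old φ r w σ (2 * w * r + 3 * j + 3) ∧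
    ∀ b < w, mv b (2 * w * r + 3 * j + 3) (A b) ∈ (Lab φ r w).Burn σ := by
  set E := 2 * w * r + 3 * j with hE
  have hEpos : 1 ≤ E := by
    have : 0 < w * r := Nat.mul_pos (by omega) (by omega)
    have h : 2 * w * r = 2 * (w * r) := by ring
    omega
  have hEH : E + 3 ≤ Hh φ r w := by
    unfold Hh
    omega
  have hln : ∀ b < w, ∀ d, 2 * w * r ≤ d → ln r b d = r := by
    intro b hb d hd
    refine ln_after (le_trans ?_ hd)
    have : (b + 1) * r ≤ w * r := Nat.mul_le_mul_right r hb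
    have e1 : 2 * b * r + 2 * r = 2 * ((b + 1) * r) := by ring
    have e2 : 2 * w * r = 2 * (w * r) := by ring
    omega
  have hold : ∀ i, ∀ hi : i < σ.length, E < (Lab φ r w).dep σ[i] → E ≤ i := by
    intro i hi h
    by_contra hc
    obtain ⟨_, h2⟩ := ho i (by omega)
    omega
  have hgl : ∀ t < 3, gl φ r w ((slot (cl φ j) t).2 / r) E (A ((slot (cl φ j) t).2 / r)) t =
      if vl r (A ((slot (cl φ j) t).2 / r)) (slot (cl φ j) t).2 = (slot (cl φ j) t).1
      then 3 else 2 := by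
    intro t ht
    unfold gl
    have e1 : E - 2 * w * r = 3 * j := by omega
    have e2 : 3 * j / 3 = j := by omega
    rw [if_neg (by omega), e1, e2, if_pos ⟨by omega, hj, ht, rfl⟩]
  have hdem : ∀ t < 3, ∃ i, ∃ hi : i < σ.length, E ≤ i ∧ i < E + 3 ∧ ∃ b a h,
      1 ≤ h ∧ h ≤ 3 ∧ σ[i] = (b, E, a, t, h, 0) ∧ (¬ LT φ r A j t → i < E + 2) := by
    intro t ht
    have hbt := hv j hj t ht
    have hg := hgl t ht
    obtain ⟨h, i, hi, h4, h5, h6, h7⟩ := hitG hσ hfin hB (t := t) hEpos (hb _ hbt) (by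
      rw [hg]
      split_ifs <;> omega)
    have h8 : E ≤ i := by
      refine hold i hi ?_
      rw [h6, Lab_dep]
      simp only
      omega
    rw [hg] at h5
    have h3 : h ≤ 3 := by split_ifs at h5 <;> omega
    refine ⟨i, hi, h8, by omega, _, _, h, h4, h3, h6, ?_⟩
    intro hn
    unfold LT at hn
    rw [if_neg hn] at h5
    omega
  obtain ⟨i0, hi0, p0, q0, b0, a0, h0, r0, s0, e0, n0⟩ := hdem 0 (by omega)
  obtain ⟨i1, hi1, p1, q1, b1, a1, h1, r1, s1, e1, n1⟩ := hdem 1 (by omega)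
  obtain ⟨i2, hi2, p2, q2, b2, a2, h2, r2, s2, e2, n2⟩ := hdem 2 (by omega)
  have d01 : i0 ≠ i1 := by
    rintro rfl
    rw [e0] at e1
    simp at e1
  have d02 : i0 ≠ i2 := by
    rintro rfl
    rw [e0] at e2
    simp at e2
  have d12 : i1 ≠ i2 := by
    rintro rfl
    rw [e1] at e2
    simp at e2
  have hnew : ∀ i, E ≤ i → i < E + 3 → ∃ hi : i < σ.length, ∃ b a t h,
      1 ≤ h ∧ h ≤ 3 ∧ σ[i] = (b, E, a, t, h, 0) := by
    intro i ha hb
    have : i = i0 ∨ i = i1 ∨ i = i2 := by omega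
    rcases this with rfl | rfl | rfl
    · exact ⟨hi0, b0, a0, 0, h0, r0, s0, e0⟩
    · exact ⟨hi1, b1, a1, 1, h1, r1, s1, e1⟩
    · exact ⟨hi2, b2, a2, 2, h2, r2, s2, e2⟩
  have hnot : ∀ b d a', ∀ i, ∀ hi : i < σ.length, E < d → i < E + 3 → σ[i] ≠ mv b d a' := by
    intro b d a' i hi hEd hlt hc
    have hd : (Lab φ r w).dep σ[i] = d := by rw [hc, dep_mv]
    obtain ⟨_, b', a'', t', h, h7, h8, h9⟩ := hnew i (hold i hi (by omega)) hlt
    rw [hc, mv_pos (by omega)] at h9
    simp only [Prod.mk.injEq] at h9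
    omega
  refine ⟨?_, ?_, ?_⟩
  · by_contra hc
    have hc0 : ¬ LT φ r A j 0 := fun h => hc ⟨0, by omega, h⟩
    have hc1 : ¬ LT φ r A j 1 := fun h => hc ⟨1, by omega, h⟩
    have hc2 : ¬ LT φ r A j 2 := fun h => hc ⟨2, by omega, h⟩
    have := n0 hc0
    have := n1 hc1
    have := n2 hc2
    omega
  · intro i hi
    by_cases hlt' : i < E
    · obtain ⟨h7, h8⟩ := ho i hlt'
      exact ⟨h7, by omega⟩
    · obtain ⟨h7, b, a, t, h, h8, h9, h10⟩ := hnew i (by omega) hi
      refine ⟨h7, ?_⟩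
      rw [h10, Lab_dep]
      simp only
      omega
  · intro b hbw
    have hstep : ∀ d, E ≤ d → d < E + 3 → mv b d (A b) ∈ (Lab φ r w).Burn σ →
        mv b (d + 1) (A b) ∈ (Lab φ r w).Burn σ := by
      intro d hd1 hd2 hburn
      refine extend hσ hbw hburn (by omega) ?_ ?_ ?_
      · rw [hln b hbw _ (by omega)]
        exact hA b hbw
      · rw [hln b hbw _ (by omega), hln b hbw _ (by omega), Nat.sub_self, pow_zero, Nat.div_one]
      · intro i hi hlt'
        exact hnot b _ _ i hi (by omega) (by omega)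
    exact hstep (E + 2) (by omega) (by omega) (hstep (E + 1) (by omega) (by omega)
      (hstep E (by omega) (by omega) (hb b hbw)))

theorem sound (hr : 1 ≤ r) (hw : 1 ≤ w) (hfin : (Lab φ r w).S.Finite)
    (hv : ∀ j < φ.length, ∀ t < 3, (slot (cl φ j) t).2 / r < w) {L : ℕ}
    (h : (Lab φ r w).Win (Bb φ r w) L) : SAT3 φ := by
  obtain ⟨σ, hσ, hB, _⟩ := h
  obtain ⟨ho, hb⟩ := sel_all hr hσ hfin hB (w * r) le_rfl
  rw [show 2 * (w * r) = 2 * w * r by ring] at ho hb
  have hln : ∀ b < w, ∀ d, 2 * w * r ≤ d → ln r b d = r := by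
    intro b hb d hd
    refine ln_after (le_trans ?_ hd)
    have : (b + 1) * r ≤ w * r := Nat.mul_le_mul_right r hb
    have e1 : 2 * b * r + 2 * r = 2 * ((b + 1) * r) := by ring
    have e2 : 2 * w * r = 2 * (w * r) := by ring
    omega
  choose! A hA hAb using hb
  have hA' : ∀ b < w, A b < 2 ^ r := fun b hb => by
    have := hA b hb
    rwa [hln b hb _ le_rfl] at this
  have hall : ∀ j ≤ φ.length, (∀ i < j, ∃ t < 3, LT φ r A i t) ∧
      Old φ r w σ (2 * w * r + 3 * j) ∧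
      ∀ b < w, mv b (2 * w * r + 3 * j) (A b) ∈ (Lab φ r w).Burn σ := by
    intro j
    induction j with
    | zero =>
      intro _
      exact ⟨fun i hi => by omega, ho, hAb⟩
    | succ j ih =>
      intro hj
      obtain ⟨h1, h2, h3⟩ := ih (by omega)
      obtain ⟨h4, h5, h6⟩ := clause_step hr hw hσ hfin hB hv hA' (by omega) h2 h3
      refine ⟨?_, ?_, ?_⟩
      · intro i hi
        rcases Nat.lt_or_ge i j with h | h
        · exact h1 i h
        · have : i = j := by omega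
          rw [this]
          exact h4
      · rw [show 2 * w * r + 3 * (j + 1) = 2 * w * r + 3 * j + 3 by ring]
        exact h5
      · rw [show 2 * w * r + 3 * (j + 1) = 2 * w * r + 3 * j + 3 by ring]
        exact h6
  refine ⟨fun v => vl r (A (v / r)) v, ?_⟩
  intro C hC
  obtain ⟨j, hj, rfl⟩ := List.getElem_of_mem hC
  obtain ⟨t, ht, h1⟩ := (hall φ.length le_rfl).1 j hj
  have hcl : cl φ j = φ[j] := by
    unfold cl
    rw [List.getD_eq_getElem?_getD, List.getElem?_eq_getElem hj, Option.getD_some]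
  unfold LT at h1
  rw [hcl] at h1
  rcases (by omega : t = 0 ∨ t = 1 ∨ t = 2) with rfl | rfl | rfl
  · left
    simpa [slot] using h1
  · right; left
    simpa [slot] using h1
  · right; right
    simpa [slot] using h1

end Pool.Agent.K9h83.FF
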