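import Pool.Agent.K9h83.FF.Fire

/-!
# Saving `k` vertices: the statement of the combinatorial part
-/

set_option autoImplicit false

namespace Pool.Agent.K9h83.FF

/-- the size of the subtree below `v` -/
noncomputable def sz (p : List ℕ) (hp : IsTree p) (v : ℕ) : ℕ :=
  {u | u ≤ p.length ∧ (Tp p hp).Anc v u}.ncard

/-- the rank of `v` among the vertices of its depth (large subtrees first) -/
noncomputable def rk (p : List ℕ) (hp : IsTree p) (v : ℕ) : ℕ :=
  {u | u ≤ p.length ∧ (Tp p hp).dep u = (Tp p hp).dep v ∧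
    (sz p hp v < sz p hp u ∨ (sz p hp u = sz p hp v ∧ u < v))}.ncard

/-- the vertices chosen by the code `c`: at most one in each depth -/
def chosen (p : List ℕ) (hp : IsTree p) (k c : ℕ) : Set ℕ :=
  {a | a ≤ p.length ∧ a ≠ 0 ∧
    rk p hp a = c / ((k + 1) ^ 2) ^ (Tp p hp).dep a % ((k + 1) ^ 2)}

/-- the exponent of the running time -/
def gSave (k : ℕ) : ℕ := 2 * (Nat.sqrt (2 * k) + 2) * (Nat.log 2 (k + 1) + 1)

/-- The combinatorial part of the algorithm for Saving `k` vertices -/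
def S_A1 : Prop := ∀ (p : List ℕ) (hp : IsTree p) (k T : ℕ), 2 ^ gSave k ≤ T →
  (Saving p k ↔ (∃ v ≤ p.length, v ≠ 0 ∧ k ≤ sz p hp v) ∨
    ∃ c < T, k ≤ {v | v ≤ p.length ∧ ∃ a ∈ chosen p hp k c, (Tp p hp).Anc a v}.ncard)

end Pool.Agent.K9h83.FF
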