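import Pool.Agent.K9h83.FF.StmA

/-!
# The exponent is sublinear
-/

set_option autoImplicit false

namespace Pool.Agent.K9h83.FF

theorem exp_large (A : ℕ) : ∃ m₀ : ℕ, 1 ≤ m₀ ∧ ∀ m, m₀ ≤ m → A * m ^ 2 ≤ 2 ^ m := by
  have h1 := tendsto_pow_const_div_const_pow_of_one_lt 2 (show (1 : ℝ) < 2 by norm_num)
  have h2 : ∀ᶠ m : ℕ in Filter.atTop, (m : ℝ) ^ 2 / 2 ^ m < 1 / ((A : ℝ) + 1) :=
    h1.eventually_lt_const (by positivity)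
  rw [Filter.eventually_atTop] at h2
  obtain ⟨m₀, h2⟩ := h2
  refine ⟨m₀ + 1, by omega, fun m hm => ?_⟩
  have h3 := h2 m (by omega)
  rw [div_lt_div_iff₀ (by positivity) (by positivity), one_mul] at h3
  have h4 : (A : ℝ) * (m : ℝ) ^ 2 ≤ (2 : ℝ) ^ m := by nlinarith [sq_nonneg (m : ℝ)]
  exact_mod_cast h4

theorem gSave_sublinear : Sublinear gSave := by
  intro c
  obtain ⟨m₀, hm0, hm₀⟩ := exp_large (192 * c ^ 2 + 1)
  refine ⟨2 ^ m₀, fun k hk => ?_⟩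
  unfold gSave
  set m := Nat.log 2 (k + 1) with hm
  set s := Nat.sqrt (2 * k) with hs
  have h1 : 2 ^ m ≤ k + 1 := Nat.pow_log_le_self 2 (by omega)
  have h2 : m₀ ≤ m := Nat.le_log_of_pow_le (by norm_num) (by omega)
  have h3 := hm₀ m h2
  have h4 : s * s ≤ 2 * k := Nat.sqrt_le _
  have hk1 : 1 ≤ k := le_trans Nat.one_le_two_pow hk
  have hm1 : 1 ≤ m := by omega
  have h5 : 48 * c ^ 2 * (m + 1) ^ 2 ≤ k := by
    have h6 : (m + 1) ^ 2 ≤ 4 * m ^ 2 := by nlinarith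
    have h7 : 48 * c ^ 2 * (m + 1) ^ 2 ≤ 48 * c ^ 2 * (4 * m ^ 2) := Nat.mul_le_mul_left _ h6
    have h8 : 1 ≤ m ^ 2 := Nat.one_le_pow _ _ hm1
    have h9 : (192 * c ^ 2 + 1) * m ^ 2 = 48 * c ^ 2 * (4 * m ^ 2) + m ^ 2 := by ring
    omega
  have h6 : (s + 2) ^ 2 ≤ 12 * k := by nlinarith
  have h7 : (c * (2 * (s + 2) * (m + 1))) ^ 2 ≤ k ^ 2 := by
    calc (c * (2 * (s + 2) * (m + 1))) ^ 2 = 4 * c ^ 2 * (m + 1) ^ 2 * (s + 2) ^ 2 := by ring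
      _ ≤ 4 * c ^ 2 * (m + 1) ^ 2 * (12 * k) := Nat.mul_le_mul_left _ h6
      _ = 48 * c ^ 2 * (m + 1) ^ 2 * k := by ring
      _ ≤ k * k := Nat.mul_le_mul_right _ h5
      _ = k ^ 2 := by ring
  exact (Nat.pow_le_pow_iff_left (by norm_num)).1 h7

end Pool.Agent.K9h83.FF
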