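import Pool.Agent.K9h83.FF.Defs

/-!
# Rooted trees and valid sequences of protected vertices
-/

set_option autoImplicit false

namespace Pool.Agent.K9h83.FF

/-- Rooted trees (possibly infinite), with the depths. -/
structure RT (V : Type) where
  S : Set V
  root : V
  par : V → V
  dep : V → ℕ
  root_mem : root ∈ S
  dep_root : dep root = 0
  par_mem : ∀ v ∈ S, v ≠ root → par v ∈ S
  dep_par : ∀ v ∈ S, v ≠ root → dep v = dep (par v) + 1

namespace RT

variable {V : Type} (T : RT V)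

/-- `v` is a child of `u` -/
def Step (u v : V) : Prop := v ∈ T.S ∧ v ≠ T.root ∧ T.par v = u

/-- `a` is an ancestor of `v`, or `v` itself -/
def Anc (a v : V) : Prop := Relation.ReflTransGen T.Step a v

theorem Anc.refl (v : V) : T.Anc v v := Relation.ReflTransGen.refl

variable {T}

theorem Anc.trans {a b c : V} (h : T.Anc a b) (h' : T.Anc b c) : T.Anc a c :=
  Relation.ReflTransGen.trans h h'

theorem anc_par {v : V} (hv : v ∈ T.S) (h : v ≠ T.root) : T.Anc (T.par v) v :=
  Relation.ReflTransGen.single ⟨hv, h, rfl⟩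

theorem Anc.cases {a v : V} (h : T.Anc a v) :
    a = v ∨ (v ∈ T.S ∧ v ≠ T.root ∧ T.Anc a (T.par v)) := by
  rcases Relation.ReflTransGen.cases_tail h with h | ⟨u, h1, h2, h3, h4⟩
  · exact Or.inl h.symm
  · exact Or.inr ⟨h2, h3, h4 ▸ h1⟩

theorem Anc.dep_le {a v : V} (h : T.Anc a v) : T.dep a ≤ T.dep v := by
  induction h with
  | refl => exact le_rfl
  | tail _ h2 ih =>
    have := T.dep_par _ h2.1 h2.2.1
    rw [h2.2.2] at this
    omega

theorem Anc.eq_of_dep {a v : V} (h : T.Anc a v) (hd : T.dep v ≤ T.dep a) : a = v := by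
  rcases h.cases with h1 | ⟨h1, h2, h3⟩
  · exact h1
  · have := T.dep_par v h1 h2
    have := h3.dep_le
    omega

theorem Anc.mem {a v : V} (h : T.Anc a v) (hv : v ∈ T.S) : a ∈ T.S := by
  induction h with
  | refl => exact hv
  | @tail b c h1 h2 ih =>
    refine ih ?_
    rw [← h2.2.2]
    exact T.par_mem _ h2.1 h2.2.1

theorem Anc.root {a : V} (h : T.Anc a T.root) : a = T.root := by
  rcases h.cases with h1 | ⟨h1, h2, h3⟩
  · exact h1
  · exact absurd rfl h2

theorem eq_root_of_dep {v : V} (hv : v ∈ T.S) (h : T.dep v = 0) : v = T.root := by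
  by_contra h1
  have := T.dep_par v hv h1
  omega

theorem Anc.total {a b v : V} (h : T.Anc a v) (h' : T.Anc b v) : T.Anc a b ∨ T.Anc b a := by
  induction h with
  | refl => exact Or.inr h'
  | @tail u w h1 h2 ih =>
    rcases h'.cases with h3 | ⟨h3, h4, h5⟩
    · subst h3
      exact Or.inl (h1.tail h2)
    · exact ih (h2.2.2 ▸ h5)

theorem exists_anc {v : V} (hv : v ∈ T.S) : ∀ {j : ℕ}, j ≤ T.dep v → ∃ a, T.Anc a v ∧ T.dep a = j := by
  suffices h : ∀ n (v : V), v ∈ T.S → T.dep v = n → ∀ j ≤ n, ∃ a, T.Anc a v ∧ T.dep a = j from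
    fun {j} hj => h _ v hv rfl j hj
  intro n
  induction n with
  | zero =>
    intro v _ h0 j hj
    exact ⟨v, Anc.refl T v, by omega⟩
  | succ n ih =>
    intro v hv hd j hj
    by_cases hj' : j = n + 1
    · exact ⟨v, Anc.refl T v, by omega⟩
    · have hr : v ≠ T.root := by
        rintro rfl
        rw [T.dep_root] at hd
        omega
      have h1 := T.dep_par v hv hr
      obtain ⟨a, h2, h3⟩ := ih (T.par v) (T.par_mem v hv hr) (by omega) j (by omega)
      exact ⟨a, h2.trans (anc_par hv hr), h3⟩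

variable (T)

/-- `σ[t]` is a vertex which does not burn before the step `t + 1` -/
def Valid (σ : List V) : Prop :=
  ∀ t, ∀ h : t < σ.length, σ[t] ∈ T.S ∧ (t < T.dep σ[t] ∨ ∃ a ∈ σ.take t, T.Anc a σ[t])

/-- the vertices which burn -/
def Burn (σ : List V) : Set V := {v | v ∈ T.S ∧ ∀ a ∈ σ, ¬ T.Anc a v}

/-- some valid sequence of length at most `L` lets at most `B` vertices burn -/
def Win (B L : ℕ) : Prop := ∃ σ, T.Valid σ ∧ (T.Burn σ).ncard ≤ B ∧ σ.length ≤ L

variable {T}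

theorem Valid.mem {σ : List V} (h : T.Valid σ) {v : V} (hv : v ∈ σ) : v ∈ T.S := by
  obtain ⟨i, hi, rfl⟩ := List.getElem_of_mem hv
  exact (h i hi).1

/-- A protected vertex below which no other vertex was protected before is protected in time. -/
theorem Valid.first {σ : List V} (h : T.Valid σ) {v : V} (hv : v ∈ σ)
    (hp : ∀ a ∈ σ, T.Anc a v → a = v) : ∃ i, ∃ hi : i < σ.length, σ[i] = v ∧ i < T.dep v := by
  classical
  have hex : ∃ i, ∃ hi : i < σ.length, σ[i] = v := List.getElem_of_mem hv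
  obtain ⟨hi, he⟩ := Nat.find_spec hex
  refine ⟨Nat.find hex, hi, he, ?_⟩
  rcases (h _ hi).2 with h1 | ⟨a, h1, h2⟩
  · rwa [he] at h1
  · exfalso
    rw [he] at h2
    have h3 := hp a (List.mem_of_mem_take h1) h2
    subst h3
    obtain ⟨j, hj, hj'⟩ := List.getElem_of_mem h1
    rw [List.length_take] at hj
    rw [List.getElem_take] at hj'
    exact Nat.find_min hex (by omega) ⟨by omega, hj'⟩

end RT

/-- transport along an isomorphism -/
structure Iso {V W : Type} (T : RT V) (U : RT W) (f : V → W) : Prop where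
  mem : ∀ v ∈ T.S, f v ∈ U.S
  inj : Set.InjOn f T.S
  surj : ∀ w ∈ U.S, ∃ v ∈ T.S, f v = w
  root : f T.root = U.root
  par : ∀ v ∈ T.S, v ≠ T.root → U.par (f v) = f (T.par v)
  dep : ∀ v ∈ T.S, U.dep (f v) = T.dep v

namespace Iso

variable {V W : Type} {T : RT V} {U : RT W} {f : V → W}

theorem ne_root (h : Iso T U f) {v : V} (hv : v ∈ T.S) (hr : v ≠ T.root) : f v ≠ U.root :=
  fun h' => hr (h.inj hv T.root_mem (h'.trans h.root.symm))

theorem anc (h : Iso T U f) {a v : V} (hv : v ∈ T.S) (ha : T.Anc a v) : U.Anc (f a) (f v) := by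
  induction ha with
  | refl => exact RT.Anc.refl U _
  | @tail b c h1 h2 ih =>
    have hb : b ∈ T.S := by
      rw [← h2.2.2]
      exact T.par_mem _ h2.1 h2.2.1
    refine (ih hb).tail ⟨h.mem _ h2.1, h.ne_root h2.1 h2.2.1, ?_⟩
    rw [h.par _ h2.1 h2.2.1, h2.2.2]

theorem of_anc (h : Iso T U f) {a v : V} (ha : a ∈ T.S) (hv : v ∈ T.S)
    (h' : U.Anc (f a) (f v)) : T.Anc a v := by
  suffices H : ∀ w, U.Anc (f a) w → ∀ v ∈ T.S, f v = w → T.Anc a v from H _ h' v hv rfl
  intro w hw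
  induction hw with
  | refl =>
    intro v hv he
    rw [h.inj hv ha he]
    exact RT.Anc.refl T _
  | @tail b c h1 h2 ih =>
    intro v hv he
    subst he
    have hr : v ≠ T.root := by
      rintro rfl
      exact h2.2.1 h.root
    have h3 := h.par v hv hr
    rw [h2.2.2] at h3
    exact (ih _ (T.par_mem v hv hr) h3.symm).trans (RT.anc_par hv hr)

theorem valid (h : Iso T U f) {σ : List V} (hσ : T.Valid σ) : U.Valid (σ.map f) := by
  intro t ht
  rw [List.length_map] at ht
  obtain ⟨h1, h2⟩ := hσ t ht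
  rw [List.getElem_map]
  refine ⟨h.mem _ h1, ?_⟩
  rcases h2 with h2 | ⟨a, h2, h3⟩
  · left
    rwa [h.dep _ h1]
  · right
    refine ⟨f a, ?_, h.anc h1 h3⟩
    rw [← List.map_take]
    exact List.mem_map_of_mem h2

theorem valid_of (h : Iso T U f) {σ : List V} (hm : ∀ v ∈ σ, v ∈ T.S) (hσ : U.Valid (σ.map f)) :
    T.Valid σ := by
  intro t ht
  have h0 : σ[t] ∈ T.S := hm _ (List.getElem_mem ht)
  obtain ⟨h1, h2⟩ := hσ t (by rwa [List.length_map])
  rw [List.getElem_map] at h1 h2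
  refine ⟨h0, ?_⟩
  rcases h2 with h2 | ⟨a, h2, h3⟩
  · left
    rwa [h.dep _ h0] at h2
  · right
    rw [← List.map_take, List.mem_map] at h2
    obtain ⟨b, h4, rfl⟩ := h2
    exact ⟨b, h4, h.of_anc (hm _ (List.mem_of_mem_take h4)) h0 h3⟩

theorem burn (h : Iso T U f) {σ : List V} (hm : ∀ v ∈ σ, v ∈ T.S) :
    U.Burn (σ.map f) = f '' T.Burn σ := by
  ext w
  constructor
  · rintro ⟨h1, h2⟩
    obtain ⟨v, hv, rfl⟩ := h.surj w h1
    exact ⟨v, ⟨hv, fun a ha h3 => h2 (f a) (List.mem_map_of_mem ha) (h.anc hv h3)⟩, rfl⟩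
  · rintro ⟨v, ⟨h1, h2⟩, rfl⟩
    refine ⟨h.mem _ h1, fun a ha h3 => ?_⟩
    rw [List.mem_map] at ha
    obtain ⟨b, hb, rfl⟩ := ha
    exact h2 b hb (h.of_anc (hm b hb) h1 h3)

theorem ncard_burn (h : Iso T U f) {σ : List V} (hm : ∀ v ∈ σ, v ∈ T.S) :
    (U.Burn (σ.map f)).ncard = (T.Burn σ).ncard := by
  rw [h.burn hm]
  exact Set.ncard_image_of_injOn fun a ha b hb => h.inj ha.1 hb.1

theorem win (h : Iso T U f) (B L : ℕ) : T.Win B L ↔ U.Win B L := by
  constructor
  · rintro ⟨σ, h1, h2, h3⟩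
    exact ⟨σ.map f, h.valid h1, by rwa [h.ncard_burn fun v hv => h1.mem hv], by simpa using h3⟩
  · rintro ⟨τ, h1, h2, h3⟩
    have hex : ∃ σ : List V, (∀ v ∈ σ, v ∈ T.S) ∧ σ.map f = τ := by
      clear h2 h3
      have hm : ∀ w ∈ τ, w ∈ U.S := fun w hw => h1.mem hw
      clear h1
      induction τ with
      | nil => exact ⟨[], by simp, rfl⟩
      | cons w τ ih =>
        obtain ⟨σ, h1, h2⟩ := ih fun x hx => hm x (List.mem_cons_of_mem _ hx)
        obtain ⟨v, hv, hv'⟩ := h.surj w (hm w (List.mem_cons_self ..))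
        refine ⟨v :: σ, ?_, by rw [List.map_cons, hv', h2]⟩
        intro x hx
        rcases List.mem_cons.1 hx with rfl | hx
        · exact hv
        · exact h1 x hx
    obtain ⟨σ, hm, rfl⟩ := hex
    refine ⟨σ, h.valid_of hm h1, by rwa [h.ncard_burn hm] at h2, by simpa using h3⟩

end Iso

end Pool.Agent.K9h83.FF
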